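import Mathlib

namespace Pool.Agent.Lib.MP_91ed4c_nt

open Real MeasureTheory AddCircle Filter Topology

section
variable {T : ℝ} [hT : Fact (0 < T)]

/-- Birkhoff sum of `G` at `x` with step `a`. -/
noncomputable def bsum (G : AddCircle T → ℂ) (a : AddCircle T) (m : ℕ) (x : AddCircle T) : ℂ :=
  ∑ i ∈ Finset.range m, G (x + (i + 1) • a)

omit hT in
lemma bsum_add (G : AddCircle T → ℂ) (a : AddCircle T) (m l : ℕ) :
    bsum G a m (l • a) = bsum G a (l + m) 0 - bsum G a l 0 := by
  unfold bsum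
  rw [Finset.sum_range_add]
  simp only [zero_add, add_sub_cancel_left]
  refine Finset.sum_congr rfl fun i _ => ?_
  congr 1
  rw [← add_nsmul]
  congr 1

lemma fourierCoeff_translate (G : AddCircle T → ℂ) (a : AddCircle T) (h : ℤ) :
    fourierCoeff (fun x => G (x + a)) h = fourier h a * fourierCoeff G h := by
  unfold fourierCoeff
  have h1 : ∀ t : AddCircle T, fourier (-h) t • G (t + a) =
      fourier h a * (fun y => fourier (-h) y • G y) (t + a) := by
    intro t
    have h2 : (fourier (-h) (t + a) : ℂ) = fourier (-h) t * fourier (-h) a := by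
      simp only [fourier_apply, smul_add, toCircle_add, Circle.coe_mul]
    have h3 : (fourier h a : ℂ) * fourier (-h) a = 1 := by
      rw [← fourier_add]; simp
    simp only [smul_eq_mul, h2]
    linear_combination (-(fourier (-h) t * G (t + a))) * h3
  simp_rw [h1]
  rw [integral_const_mul]
  rw [integral_add_right_eq_self (μ := haarAddCircle) (fun y => fourier (-h) y • G y) a]

lemma fourierCoeff_bsum {G : AddCircle T → ℂ} (hG : Integrable G haarAddCircle)
    (a : AddCircle T) (m : ℕ) (h : ℤ) :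
    fourierCoeff (bsum G a m) h =
      (∑ i ∈ Finset.range m, (fourier h a : ℂ) ^ (i + 1)) * fourierCoeff G h := by
  have h0 : bsum G a m = ∑ i ∈ Finset.range m, (fun x => G (x + (i + 1) • a)) := by
    funext x; simp [bsum]
  have hint : ∀ b : AddCircle T, Integrable (fun x => G (x + b)) haarAddCircle := by
    intro b
    exact hG.comp_add_right b
  rw [h0, fourierCoeff.sum _ _ (fun i _ => hint _), Finset.sum_apply, Finset.sum_mul]
  refine Finset.sum_congr rfl fun i _ => ?_
  rw [fourierCoeff_translate]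
  congr 1
  simp only [fourier_apply]
  have : ∀ n : ℕ, (toCircle (h • (n • a)) : Circle) = (toCircle (h • a)) ^ n := by
    intro n
    rw [smul_comm, ← toCircle_nsmul]
  rw [this]; simp

/-- Cesàro mean of the Birkhoff sums. -/
noncomputable def cesaro (G : AddCircle T → ℂ) (a : AddCircle T) (L : ℕ) (x : AddCircle T) : ℂ :=
  (1 / (L : ℂ)) * ∑ m ∈ Finset.range L, bsum G a m x

lemma geom_aux {w : ℂ} (hw : w ≠ 1) (m : ℕ) :
    ∑ i ∈ Finset.range m, w ^ (i + 1) = w / (1 - w) - (w / (1 - w)) * w ^ m := by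
  have h1 : (1 - w) ≠ 0 := sub_ne_zero.mpr (Ne.symm hw)
  have h2 : ∑ i ∈ Finset.range m, w ^ (i + 1) = w * ∑ i ∈ Finset.range m, w ^ i := by
    rw [Finset.mul_sum]
    refine Finset.sum_congr rfl fun i _ => by ring
  rw [h2, geom_sum_eq hw]
  have h3 : w - 1 ≠ 0 := sub_ne_zero.mpr hw
  field_simp
  ring

lemma cesaro_tendsto {w : ℂ} (hw : w ≠ 1) (hn : ‖w‖ = 1) :
    Tendsto (fun L : ℕ => (1 / (L : ℂ)) *
      ∑ m ∈ Finset.range L, ∑ i ∈ Finset.range m, w ^ (i + 1)) atTop (𝓝 (w / (1 - w))) := by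
  have h1 : (1 - w) ≠ 0 := sub_ne_zero.mpr (Ne.symm hw)
  have hcalc : ∀ L : ℕ, 0 < L → (1 / (L : ℂ)) *
      ∑ m ∈ Finset.range L, ∑ i ∈ Finset.range m, w ^ (i + 1) =
      w / (1 - w) - (1 / (L : ℂ)) * ((w / (1 - w)) * ((w ^ L - 1) / (w - 1))) := by
    intro L hL
    simp_rw [geom_aux hw]
    rw [Finset.sum_sub_distrib, ← Finset.mul_sum, geom_sum_eq hw]
    have : (L : ℂ) ≠ 0 := by exact_mod_cast hL.ne'
    simp only [Finset.sum_const, Finset.card_range, nsmul_eq_mul]
    field_simp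
  have hz : Tendsto (fun L : ℕ => (1 / (L : ℂ)) * ((w / (1 - w)) * ((w ^ L - 1) / (w - 1))))
      atTop (𝓝 0) := by
    have hb : ∀ L : ℕ, ‖(w / (1 - w)) * ((w ^ L - 1) / (w - 1))‖ ≤
        ‖w / (1 - w)‖ * (2 / ‖w - 1‖) := by
      intro L
      rw [norm_mul, norm_div (w ^ L - 1)]
      gcongr
      calc ‖w ^ L - 1‖ ≤ ‖w ^ L‖ + ‖(1 : ℂ)‖ := norm_sub_le _ _
        _ = 2 := by rw [norm_pow, hn]; norm_num
    have h2 : Tendsto (fun L : ℕ => (1 / (L : ℂ))) atTop (𝓝 0) := by
      have := tendsto_inv_atTop_nhds_zero_nat (𝕜 := ℂ)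
      simpa [one_div] using this
    have h3 : IsBoundedUnder (· ≤ ·) atTop
        (norm ∘ fun L : ℕ => (w / (1 - w)) * ((w ^ L - 1) / (w - 1))) :=
      isBoundedUnder_of ⟨_, hb⟩
    exact h2.zero_mul_isBoundedUnder_le h3
  have h4 : Tendsto (fun L : ℕ => w / (1 - w) -
      (1 / (L : ℂ)) * ((w / (1 - w)) * ((w ^ L - 1) / (w - 1)))) atTop (𝓝 (w / (1 - w))) := by
    simpa using tendsto_const_nhds.sub hz
  refine h4.congr' ?_
  filter_upwards [eventually_gt_atTop 0] with L hL
  exact (hcalc L hL).symm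

lemma fourierCoeff_cesaro {G : AddCircle T → ℂ} (hG : Integrable G haarAddCircle)
    (a : AddCircle T) (L : ℕ) (h : ℤ) :
    fourierCoeff (cesaro G a L) h =
      ((1 / (L : ℂ)) * ∑ m ∈ Finset.range L, ∑ i ∈ Finset.range m, (fourier h a : ℂ) ^ (i + 1)) *
        fourierCoeff G h := by
  have hint : ∀ m : ℕ, Integrable (bsum G a m) haarAddCircle := by
    intro m
    unfold bsum
    exact integrable_finsetSum _ fun i _ => hG.comp_add_right _
  have h0 : cesaro G a L = fun x => (1 / (L : ℂ)) * (∑ m ∈ Finset.range L, bsum G a m) x := by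
    funext x; simp [cesaro]
  rw [h0, fourierCoeff.const_mul, fourierCoeff.sum _ _ (fun i _ => hint _), Finset.sum_apply,
    mul_assoc, Finset.sum_mul]
  congr 1
  exact Finset.sum_congr rfl fun m _ => fourierCoeff_bsum hG a m h

/-- Bessel inequality for a function bounded almost everywhere. -/
lemma bessel {F : AddCircle T → ℂ} (hF : AEStronglyMeasurable F haarAddCircle) {C : ℝ}
    (hb : ∀ᵐ x ∂(haarAddCircle : Measure (AddCircle T)), ‖F x‖ ≤ C) (H : Finset ℤ) :
    ∑ h ∈ H, ‖fourierCoeff F h‖ ^ 2 ≤ C ^ 2 := by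
  have hL2 : MemLp F 2 haarAddCircle := MemLp.of_bound hF C hb
  set f : Lp ℂ 2 (haarAddCircle : Measure (AddCircle T)) := hL2.toLp F with hf
  have hae : f =ᵐ[haarAddCircle] F := hL2.coeFn_toLp
  have h1 := hasSum_sq_fourierCoeff f
  have h2 : ∑ h ∈ H, ‖fourierCoeff f h‖ ^ 2 ≤ ∫ t : AddCircle T, ‖f t‖ ^ 2 ∂haarAddCircle :=
    sum_le_hasSum H (fun i _ => by positivity) h1
  have h3 : ∀ h : ℤ, fourierCoeff f h = fourierCoeff F h := fun h =>
    congrFun (fourierCoeff_congr_ae hae) h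
  simp_rw [h3] at h2
  refine h2.trans ?_
  have h4 : ∫ t : AddCircle T, ‖f t‖ ^ 2 ∂haarAddCircle ≤
      ∫ _t : AddCircle T, C ^ 2 ∂haarAddCircle := by
    apply integral_mono_of_nonneg
    · exact Eventually.of_forall fun x => by positivity
    · exact integrable_const _
    · filter_upwards [hae, hb] with x hx1 hx2
      rw [hx1]
      gcongr
  simpa using h4

/-- Main analytic input: if the Birkhoff sums at `0` of a function `G`, continuous off a null
set, are bounded by `M`, then the coboundary Fourier coefficients are square summable. -/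
theorem coboundary_bound {G : AddCircle T → ℂ} {a : AddCircle T} {E : Set (AddCircle T)}
    (hE : ∀ n : ℕ, (haarAddCircle : Measure (AddCircle T)) ((fun x => x + n • a) ⁻¹' E) = 0)
    (hc : ∀ x ∉ E, ContinuousAt G x)
    (hGi : Integrable G haarAddCircle)
    (ha : DenseRange (fun n : ℕ => n • a)) {M : ℝ}
    (hM : ∀ m : ℕ, ‖bsum G a m 0‖ ≤ M) (H : Finset ℤ) (hH : ∀ h ∈ H, (fourier h a : ℂ) ≠ 1) :
    ∑ h ∈ H, (‖fourierCoeff G h‖ / ‖1 - (fourier h a : ℂ)‖) ^ 2 ≤ (2 * M) ^ 2 := by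
  -- bound on Birkhoff sums almost everywhere
  have hae : ∀ m : ℕ, ∀ᵐ x ∂(haarAddCircle : Measure (AddCircle T)), ‖bsum G a m x‖ ≤ 2 * M := by
    intro m
    have hbad : (haarAddCircle : Measure (AddCircle T))
        (⋃ n : ℕ, (fun x => x + n • a) ⁻¹' E) = 0 := measure_iUnion_null hE
    have hgood : ∀ᵐ x ∂(haarAddCircle : Measure (AddCircle T)),
        x ∉ ⋃ n : ℕ, (fun x => x + n • a) ⁻¹' E := measure_eq_zero_iff_ae_notMem.mp hbad
    filter_upwards [hgood] with x hx
    simp only [Set.mem_iUnion, Set.mem_preimage, not_exists] at hx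
    by_contra hlt
    push Not at hlt
    have hcont : ContinuousAt (fun y => ‖bsum G a m y‖) x := by
      unfold bsum
      refine ContinuousAt.norm ?_
      refine tendsto_finsetSum _ fun i _ => ?_
      have h1 : ContinuousAt G (x + (i + 1) • a) := hc _ (hx (i + 1))
      exact ContinuousAt.comp (f := fun y => y + (i + 1) • a) h1 (by fun_prop)
    have hev : ∀ᶠ y in 𝓝 x, 2 * M < ‖bsum G a m y‖ := hcont.eventually (lt_mem_nhds hlt)
    obtain ⟨U, hU, hUo, hxU⟩ := mem_nhds_iff.mp hev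
    obtain ⟨l, hl⟩ := ha.exists_mem_open hUo ⟨x, hxU⟩
    have h2 : 2 * M < ‖bsum G a m (l • a)‖ := hU hl
    rw [bsum_add] at h2
    have h3 : ‖bsum G a (l + m) 0 - bsum G a l 0‖ ≤ M + M :=
      (norm_sub_le _ _).trans (add_le_add (hM _) (hM _))
    linarith
  have hmb : ∀ m : ℕ, AEStronglyMeasurable (bsum G a m) haarAddCircle := by
    intro m
    unfold bsum
    refine Finset.aestronglyMeasurable_fun_sum _ fun i _ => ?_
    exact (hGi.comp_add_right ((i + 1) • a)).aestronglyMeasurable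
  have hcm : ∀ L : ℕ, AEStronglyMeasurable (cesaro G a L) haarAddCircle := by
    intro L
    unfold cesaro
    exact (Finset.aestronglyMeasurable_fun_sum _ fun m _ => hmb m).const_mul _
  have hM0 : 0 ≤ M := (norm_nonneg _).trans (hM 0)
  have hcb : ∀ L : ℕ, ∀ᵐ x ∂(haarAddCircle : Measure (AddCircle T)),
      ‖cesaro G a L x‖ ≤ 2 * M := by
    intro L
    have hall : ∀ᵐ x ∂(haarAddCircle : Measure (AddCircle T)), ∀ m, ‖bsum G a m x‖ ≤ 2 * M :=
      ae_all_iff.mpr hae
    filter_upwards [hall] with x hx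
    unfold cesaro
    rw [norm_mul]
    rcases Nat.eq_zero_or_pos L with h0 | h0
    · subst h0; simp; positivity
    · have h1 : ‖∑ m ∈ Finset.range L, bsum G a m x‖ ≤ L * (2 * M) := by
        refine (norm_sum_le _ _).trans ?_
        refine (Finset.sum_le_card_nsmul _ _ _ fun m _ => hx m).trans ?_
        simp
      have hLpos : (0 : ℝ) < L := by exact_mod_cast h0
      calc ‖1 / (L : ℂ)‖ * ‖∑ m ∈ Finset.range L, bsum G a m x‖
          ≤ (1 / L) * (L * (2 * M)) := by
            gcongr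
            simp
        _ = 2 * M := by field_simp
  have hbess : ∀ L : ℕ, ∑ h ∈ H, ‖fourierCoeff (cesaro G a L) h‖ ^ 2 ≤ (2 * M) ^ 2 :=
    fun L => bessel (hcm L) (hcb L) H
  -- pass to the limit
  have hlim : Tendsto (fun L : ℕ => ∑ h ∈ H, ‖fourierCoeff (cesaro G a L) h‖ ^ 2) atTop
      (𝓝 (∑ h ∈ H, (‖fourierCoeff G h‖ / ‖1 - (fourier h a : ℂ)‖) ^ 2)) := by
    refine tendsto_finsetSum _ fun h hh => ?_
    have hnorm : ‖(fourier h a : ℂ)‖ = 1 := by
      rw [fourier_apply]; exact Circle.norm_coe _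
    have h1 := cesaro_tendsto (hH h hh) hnorm
    have h2 : Tendsto (fun L : ℕ => fourierCoeff (cesaro G a L) h) atTop
        (𝓝 ((fourier h a : ℂ) / (1 - fourier h a) * fourierCoeff G h)) := by
      simp_rw [fourierCoeff_cesaro hGi]
      exact h1.mul_const _
    have h3 := (h2.norm).pow 2
    convert h3 using 2
    rw [norm_mul, norm_div, hnorm]
    ring
  exact le_of_tendsto' hlim hbess

end

end Pool.Agent.Lib.MP_91ed4c_nt
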