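import Mathlib

namespace Pool.Agent.Lib.MP_91ed4c_nt

open Real

/-- Irrational numbers have good rational approximations with arbitrarily large denominators. -/
lemma exists_rat_large_den {ξ : ℝ} (hξ : Irrational ξ) (D : ℕ) :
    ∃ r : ℚ, D < r.den ∧ |ξ - r| ≤ 1 / (r.den : ℝ) ^ 2 := by
  -- positive lower bound for the distance to integers of `q ξ`, `1 ≤ q ≤ D`
  have key : ∃ δ : ℝ, 0 < δ ∧ ∀ q : ℕ, 1 ≤ q → q ≤ D → ∀ p : ℤ, δ ≤ |q * ξ - p| := by
    induction D with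
    | zero => exact ⟨1, one_pos, fun q h1 h2 => by omega⟩
    | succ D ih =>
      obtain ⟨δ, hδ, h⟩ := ih
      have hirr : Irrational (((D + 1 : ℕ) : ℝ) * ξ) := by
        have : ((D + 1 : ℕ) : ℤ) ≠ 0 := by positivity
        simpa using hξ.intCast_mul this
      have hpos : 0 < |((D + 1 : ℕ) : ℝ) * ξ - round (((D + 1 : ℕ) : ℝ) * ξ)| := by
        rw [abs_pos, sub_ne_zero]
        exact hirr.ne_int _
      refine ⟨min δ _, lt_min hδ hpos, fun q h1 h2 p => ?_⟩
      rcases Nat.lt_or_ge q (D + 1) with h3 | h3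
      · exact (min_le_left _ _).trans (h q h1 (by omega) p)
      · have : q = D + 1 := by omega
        subst this
        exact (min_le_right _ _).trans (round_le _ p)
  obtain ⟨δ, hδ, h⟩ := key
  obtain ⟨n, hn⟩ := exists_nat_one_div_lt hδ
  obtain ⟨r, hr1, hr2⟩ := Real.exists_rat_abs_sub_le_and_den_le ξ (Nat.succ_pos n)
  have hden : (0 : ℝ) < r.den := by exact_mod_cast r.pos
  have hmul : |(r.den : ℝ) * ξ - r.num| = r.den * |ξ - r| := by
    have : (r.den : ℝ) * ξ - r.num = r.den * (ξ - r) := by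
      have h3 : (r : ℝ) = r.num / r.den := by exact_mod_cast (Rat.num_div_den r).symm
      rw [h3]; field_simp
    rw [this, abs_mul, abs_of_pos hden]
  have h4 : |(r.den : ℝ) * ξ - r.num| ≤ 1 / ((n : ℝ) + 1 + 1) := by
    rw [hmul]
    calc (r.den : ℝ) * |ξ - r| ≤ r.den * (1 / (((n + 1 : ℕ) + 1 : ℝ) * r.den)) := by
          gcongr
      _ = 1 / ((n : ℝ) + 1 + 1) := by push_cast; field_simp
  refine ⟨r, ?_, ?_⟩
  · by_contra hle
    push Not at hle
    have h5 := h r.den r.pos hle r.num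
    have h6 : 1 / ((n : ℝ) + 1 + 1) ≤ 1 / ((n : ℝ) + 1) := by
      apply one_div_le_one_div_of_le <;> linarith [(Nat.cast_nonneg n : (0:ℝ) ≤ n)]
    linarith
  · refine hr1.trans ?_
    apply one_div_le_one_div_of_le (by positivity)
    have : (r.den : ℝ) ≤ (n + 1 : ℕ) := by exact_mod_cast hr2
    nlinarith

/-- Simultaneous congruence and approximation: there are `t` with
`(12 t + 1) ‖(12 t + 1) β‖ ≤ 18` and `‖(12 t + 1) β‖` as small as we please. -/
lemma exists_good {β : ℝ} (hβ : Irrational β) {ε : ℝ} (hε : 0 < ε) :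
    ∃ (t : ℕ) (u : ℤ), |((12 * t + 1 : ℕ) : ℝ) * β - u| < ε ∧
      ((12 * t + 1 : ℕ) : ℝ) * |((12 * t + 1 : ℕ) : ℝ) * β - u| ≤ 18 := by
  have h12 : Irrational ((12 : ℝ) * β) := by
    have := hβ.intCast_mul (m := 12) (by norm_num)
    simpa using this
  obtain ⟨D, hD⟩ := exists_nat_gt (2 / ε)
  obtain ⟨r, hr1, hr2⟩ := exists_rat_large_den h12 (D + 1)
  set q : ℕ := r.den with hq
  set p : ℤ := r.num with hp
  have hq0 : 0 < q := r.pos
  have hqR : (0 : ℝ) < q := by exact_mod_cast hq0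
  set N : ℤ := round (-(q : ℝ) * β) with hN
  have hNb : |(N : ℝ) + q * β| ≤ 1 / 2 := by
    have h1 := abs_sub_round (-(q : ℝ) * β)
    have h2 : (N : ℝ) + q * β = -(-(q : ℝ) * β - N) := by ring
    rw [h2, abs_neg]
    exact h1
  -- choose `t`
  have hcop : IsCoprime p (q : ℤ) := by
    rw [Int.isCoprime_iff_gcd_eq_one]
    exact r.reduced
  obtain ⟨a, b, hab⟩ := hcop
  -- a * p + b * q = 1
  set t : ℤ := (a * N) % q with ht
  have ht0 : 0 ≤ t := Int.emod_nonneg _ (by omega)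
  have htq : t < q := Int.emod_lt_of_pos _ (by omega)
  obtain ⟨u, hu⟩ : ∃ u : ℤ, t * p = N + q * u := by
    have h1 : t = a * N - q * (a * N / q) := by
      rw [ht, Int.emod_def]
    refine ⟨-(b * N) - (a * N / q) * p, ?_⟩
    rw [h1]
    linear_combination N * hab
  obtain ⟨t', ht'⟩ : ∃ t' : ℕ, (t' : ℤ) = t := ⟨t.toNat, Int.toNat_of_nonneg ht0⟩
  have ht'q : t' < q := by omega
  have hrpq : (r : ℝ) = (p : ℝ) / q := by
    rw [hp, hq]; exact_mod_cast (Rat.num_div_den r).symm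
  have huR : (t' : ℝ) * p = N + q * u := by
    have : ((t' : ℤ) : ℝ) * (p : ℝ) = N + q * u := by
      rw [ht']; exact_mod_cast hu
    simpa using this
  have hmain : |((12 * t' + 1 : ℕ) : ℝ) * β - u| ≤ 3 / 2 / q := by
    have e1 : ((12 * t' + 1 : ℕ) : ℝ) * β - u =
        t' * (12 * β - r) + (N + q * β) / q := by
      rw [hrpq]
      push_cast
      field_simp
      linear_combination huR
    rw [e1]
    calc |(t' : ℝ) * (12 * β - r) + (N + q * β) / q|
        ≤ |(t' : ℝ) * (12 * β - r)| + |(N + q * β) / q| := abs_add_le _ _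
      _ ≤ q * (1 / (q : ℝ) ^ 2) + (1 / 2) / q := by
          rw [abs_mul, abs_div, abs_of_pos hqR, abs_of_nonneg (Nat.cast_nonneg t')]
          gcongr
      _ = 3 / 2 / q := by field_simp; norm_num
  refine ⟨t', u, lt_of_le_of_lt hmain ?_, ?_⟩
  · rw [div_lt_iff₀ hqR]
    have h7 : (D : ℝ) + 1 < q := by exact_mod_cast hr1
    have h8 : 2 / ε < q := by linarith
    rw [div_lt_iff₀ hε] at h8
    linarith
  · calc ((12 * t' + 1 : ℕ) : ℝ) * |((12 * t' + 1 : ℕ) : ℝ) * β - u|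
        ≤ (12 * q) * (3 / 2 / q) := by
          gcongr
          · have : 12 * t' + 1 ≤ 12 * q := by omega
            exact_mod_cast this
      _ = 18 := by field_simp; norm_num

/-- Infinitely many `t` with `(12 t + 1) ‖(12 t + 1) β‖ ≤ 18`. -/
lemma infinite_good {β : ℝ} (hβ : Irrational β) :
    {t : ℕ | ∃ u : ℤ, ((12 * t + 1 : ℕ) : ℝ) * |((12 * t + 1 : ℕ) : ℝ) * β - u| ≤ 18}.Infinite := by
  intro hfin
  set S := {t : ℕ | ∃ u : ℤ, ((12 * t + 1 : ℕ) : ℝ) * |((12 * t + 1 : ℕ) : ℝ) * β - u| ≤ 18} with hS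
  have hpos : ∀ t : ℕ, 0 < |((12 * t + 1 : ℕ) : ℝ) * β - round (((12 * t + 1 : ℕ) : ℝ) * β)| := by
    intro t
    have hirr : Irrational (((12 * t + 1 : ℕ) : ℝ) * β) := by
      have h0 : ((12 * t + 1 : ℕ) : ℤ) ≠ 0 := by positivity
      simpa using hβ.intCast_mul h0
    rw [abs_pos, sub_ne_zero]
    exact hirr.ne_int _
  obtain ⟨ε, hε, hlt⟩ : ∃ ε : ℝ, 0 < ε ∧ ∀ t ∈ S,
      ε ≤ |((12 * t + 1 : ℕ) : ℝ) * β - round (((12 * t + 1 : ℕ) : ℝ) * β)| := by
    classical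
    rcases S.eq_empty_or_nonempty with h | h
    · exact ⟨1, one_pos, by simp [h]⟩
    · obtain ⟨t0, ht0, hmin⟩ := Set.exists_min_image S
        (fun t => |((12 * t + 1 : ℕ) : ℝ) * β - round (((12 * t + 1 : ℕ) : ℝ) * β)|) hfin h
      exact ⟨_, hpos t0, hmin⟩
  obtain ⟨t, u, h1, h2⟩ := exists_good hβ hε
  have h3 := hlt t ⟨u, h2⟩
  have h4 := round_le (((12 * t + 1 : ℕ) : ℝ) * β) u
  linarith

end Pool.Agent.Lib.MP_91ed4c_nt
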