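import Mathlib

namespace Pool.Agent.Lib.MP_91ed4c_nt

open Real MeasureTheory Filter Topology

/-- The step function `1` on `(1/2, √3/2)`, `-1` on `(-√3/2, -1/2)` and `0` elsewhere
(up to endpoints). -/
noncomputable def chi (t : ℝ) : ℤ :=
  if 1 < 4 * t ^ 2 ∧ 4 * t ^ 2 < 3 then (if 0 < t then 1 else -1) else 0

lemma chi_abs_le (t : ℝ) : |(chi t : ℝ)| ≤ 1 := by
  unfold chi; split_ifs <;> simp

lemma measurable_chi : Measurable chi := by
  unfold chi
  refine Measurable.ite ?_ (Measurable.ite ?_ measurable_const measurable_const) measurable_const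
  · have h4 : Measurable fun t : ℝ => 4 * t ^ 2 := by fun_prop
    apply MeasurableSet.inter
    · exact measurableSet_lt measurable_const h4
    · exact measurableSet_lt h4 measurable_const
  · exact measurableSet_lt measurable_const measurable_id

lemma chi_eventually {t : ℝ} (h1 : 4 * t ^ 2 ≠ 1) (h2 : 4 * t ^ 2 ≠ 3) :
    ∀ᶠ s in 𝓝 t, chi s = chi t := by
  have hc : ContinuousAt (fun s : ℝ => 4 * s ^ 2) t := by fun_prop
  have hc' : ContinuousAt (fun s : ℝ => s) t := continuousAt_id
  rcases lt_or_gt_of_ne h1 with h | h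
  · filter_upwards [hc.eventually (gt_mem_nhds h)] with s hs
    unfold chi
    rw [if_neg (by intro hh; linarith [hh.1]), if_neg (by intro hh; linarith [hh.1])]
  rcases lt_or_gt_of_ne h2 with h' | h'
  · rcases lt_or_ge 0 t with h0 | h0
    · filter_upwards [hc.eventually (lt_mem_nhds h), hc.eventually (gt_mem_nhds h'),
        hc'.eventually (lt_mem_nhds h0)] with s hs1 hs2 hs3
      have a1 : 1 < 4 * s ^ 2 ∧ 4 * s ^ 2 < 3 := ⟨hs1, hs2⟩
      have a2 : 1 < 4 * t ^ 2 ∧ 4 * t ^ 2 < 3 := ⟨h, h'⟩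
      have a3 : 0 < s := hs3
      unfold chi
      rw [if_pos a1, if_pos a2, if_pos a3, if_pos h0]
    · have h0' : t < 0 := by
        rcases h0.lt_or_eq with h3 | h3
        · exact h3
        · subst h3; norm_num at h
      filter_upwards [hc.eventually (lt_mem_nhds h), hc.eventually (gt_mem_nhds h'),
        hc'.eventually (gt_mem_nhds h0')] with s hs1 hs2 hs3
      have a1 : 1 < 4 * s ^ 2 ∧ 4 * s ^ 2 < 3 := ⟨hs1, hs2⟩
      have a2 : 1 < 4 * t ^ 2 ∧ 4 * t ^ 2 < 3 := ⟨h, h'⟩
      have a3 : ¬ 0 < s := not_lt.mpr (le_of_lt hs3)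
      unfold chi
      rw [if_pos a1, if_pos a2, if_neg a3, if_neg (not_lt.mpr h0)]
  · filter_upwards [hc.eventually (lt_mem_nhds h')] with s hs
    unfold chi
    rw [if_neg (by intro hh; linarith [hh.2]), if_neg (by intro hh; linarith [hh.2])]

instance fact_two_pi : Fact (0 < 2 * π) := ⟨two_pi_pos⟩

/-- The step function on the circle. -/
noncomputable def G : AddCircle (2 * π) → ℂ := fun x => ((chi (Real.Angle.cos x) : ℤ) : ℂ)

lemma G_coe (x : ℝ) : G (x : AddCircle (2 * π)) = ((chi (cos x) : ℤ) : ℂ) := rfl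

lemma measurable_G : Measurable G := by
  unfold G
  have h0 : Continuous (fun x : AddCircle (2 * π) => Real.Angle.cos x) :=
    Real.Angle.continuous_cos
  have h1 : Measurable (fun x : AddCircle (2 * π) => Real.Angle.cos x) := h0.measurable
  have h2 : Measurable (fun n : ℤ => (n : ℂ)) := measurable_from_top
  exact h2.comp (measurable_chi.comp h1)

lemma norm_G_le (x : AddCircle (2 * π)) : ‖G x‖ ≤ 1 := by
  unfold G
  have h := chi_abs_le (Real.Angle.cos x)
  rw [Complex.norm_intCast]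
  exact h

lemma integrable_G : Integrable G AddCircle.haarAddCircle :=
  MeasureTheory.Integrable.of_bound measurable_G.aestronglyMeasurable 1
    (Eventually.of_forall norm_G_le)

/-- the exceptional set -/
def badSet : Set (AddCircle (2 * π)) :=
  {x | 4 * (Real.Angle.cos x) ^ 2 = 1 ∨ 4 * (Real.Angle.cos x) ^ 2 = 3}

lemma continuousAt_G {x : AddCircle (2 * π)} (hx : x ∉ badSet) : ContinuousAt G x := by
  have hx' : ¬ (4 * (Real.Angle.cos x) ^ 2 = 1 ∨ 4 * (Real.Angle.cos x) ^ 2 = 3) := hx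
  rw [not_or] at hx'
  have h1 := chi_eventually hx'.1 hx'.2
  have h2 : ContinuousAt (fun x : AddCircle (2 * π) => Real.Angle.cos x) x :=
    Real.Angle.continuous_cos.continuousAt
  have h3 := h2.eventually h1
  have h4 : G =ᶠ[𝓝 x] fun _ => G x := by
    filter_upwards [h3] with y hy
    unfold G
    rw [hy]
  exact (continuousAt_const).congr h4.symm

lemma finite_cos_eq (c : ℝ) : {x : Real.Angle | Real.Angle.cos x = c}.Finite := by
  rcases Set.eq_empty_or_nonempty {x : Real.Angle | Real.Angle.cos x = c} with h | ⟨x0, h0⟩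
  · rw [h]; exact Set.finite_empty
  · refine (Set.toFinite {x0, -x0}).subset fun x hx => ?_
    have hx' : Real.Angle.cos x = c := hx
    have h0' : Real.Angle.cos x0 = c := h0
    have : Real.Angle.cos x = Real.Angle.cos x0 := by
      rw [hx', h0']
    rcases Real.Angle.cos_eq_iff_eq_or_eq_neg.mp this with h | h
    · left; exact h
    · right; exact h

lemma finite_badSet : badSet.Finite := by
  have hs3 : √3 ^ 2 = (3 : ℝ) := Real.sq_sqrt (by norm_num)
  have : badSet ⊆ {x : Real.Angle | Real.Angle.cos x = 1 / 2} ∪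
      {x : Real.Angle | Real.Angle.cos x = -(1 / 2)} ∪
      {x : Real.Angle | Real.Angle.cos x = √3 / 2} ∪
      {x : Real.Angle | Real.Angle.cos x = -(√3 / 2)} := by
    intro x hx
    have hx' : 4 * (Real.Angle.cos x) ^ 2 = 1 ∨ 4 * (Real.Angle.cos x) ^ 2 = 3 := hx
    rcases hx' with h | h
    · have h1 : (Real.Angle.cos x - 1 / 2) * (Real.Angle.cos x + 1 / 2) = 0 := by nlinarith
      rcases mul_eq_zero.mp h1 with h2 | h2
      · left; left; left
        change Real.Angle.cos x = 1 / 2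
        linarith
      · left; left; right
        change Real.Angle.cos x = -(1 / 2)
        linarith
    · have h1 : (Real.Angle.cos x - √3 / 2) * (Real.Angle.cos x + √3 / 2) = 0 := by nlinarith
      rcases mul_eq_zero.mp h1 with h2 | h2
      · left; right
        change Real.Angle.cos x = √3 / 2
        linarith
      · right
        change Real.Angle.cos x = -(√3 / 2)
        linarith
  exact (((finite_cos_eq _).union (finite_cos_eq _)).union (finite_cos_eq _)).union
    (finite_cos_eq _) |>.subset this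

lemma haar_singleton (x : AddCircle (2 * π)) :
    (AddCircle.haarAddCircle : Measure (AddCircle (2 * π))) {x} = 0 := by
  have h1 : (volume : Measure (AddCircle (2 * π))) {x} = 0 := by
    have h2 := AddCircle.volume_closedBall (T := 2 * π) (x := x) 0
    rw [Metric.closedBall_zero] at h2
    rw [h2]
    simp [pi_pos.le]
  rw [AddCircle.volume_eq_smul_haarAddCircle, Measure.smul_apply, smul_eq_mul, mul_eq_zero] at h1
  rcases h1 with h1 | h1
  · exfalso
    rw [ENNReal.ofReal_eq_zero] at h1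
    linarith [two_pi_pos]
  · exact h1

lemma null_badSet (b : AddCircle (2 * π)) :
    (AddCircle.haarAddCircle : Measure (AddCircle (2 * π))) ((fun x => x + b) ⁻¹' badSet) = 0 := by
  have : ((fun x => x + b) ⁻¹' badSet).Finite :=
    finite_badSet.preimage (add_left_injective b).injOn
  rw [← Set.biUnion_of_singleton ((fun x => x + b) ⁻¹' badSet),
    measure_biUnion_null_iff this.countable]
  intro x _
  exact haar_singleton x

lemma chi_cos_eq {x : ℝ} (hx : x ∈ Set.Ioo 0 π) :
    ((chi (cos x) : ℤ) : ℝ) = (Set.Ioo (π / 6) (π / 3)).indicator (fun _ => (1 : ℝ)) x -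
      (Set.Ioo (2 * π / 3) (5 * π / 6)).indicator (fun _ => (1 : ℝ)) x := by
  have hs3 : √3 ^ 2 = (3 : ℝ) := Real.sq_sqrt (by norm_num)
  have hs0 : 0 < √3 := by positivity
  have hpi := pi_pos
  have c1 : cos (π / 6) = √3 / 2 := cos_pi_div_six
  have c2 : cos (π / 3) = 1 / 2 := cos_pi_div_three
  have c3 : cos (2 * π / 3) = -(1 / 2) := by
    rw [show 2 * π / 3 = π - π / 3 by ring, cos_pi_sub, c2]
  have c4 : cos (5 * π / 6) = -(√3 / 2) := by
    rw [show 5 * π / 6 = π - π / 6 by ring, cos_pi_sub, c1]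
  have hanti : StrictAntiOn cos (Set.Icc 0 π) := strictAntiOn_cos
  have m0 : x ∈ Set.Icc 0 π := ⟨hx.1.le, hx.2.le⟩
  have m1 : π / 6 ∈ Set.Icc 0 π := ⟨by positivity, by linarith⟩
  have m2 : π / 3 ∈ Set.Icc 0 π := ⟨by positivity, by linarith⟩
  have m3 : 2 * π / 3 ∈ Set.Icc 0 π := ⟨by positivity, by linarith⟩
  have m4 : 5 * π / 6 ∈ Set.Icc 0 π := ⟨by positivity, by linarith⟩
  have e1 : cos x < √3 / 2 ↔ π / 6 < x := by rw [← c1]; exact hanti.lt_iff_gt m0 m1
  have e2 : 1 / 2 < cos x ↔ x < π / 3 := by rw [← c2]; exact hanti.lt_iff_gt m2 m0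
  have e3 : cos x < -(1 / 2) ↔ 2 * π / 3 < x := by rw [← c3]; exact hanti.lt_iff_gt m0 m3
  have e4 : -(√3 / 2) < cos x ↔ x < 5 * π / 6 := by rw [← c4]; exact hanti.lt_iff_gt m4 m0
  have i1 : (Set.Ioo (π / 6) (π / 3)).indicator (fun _ => (1 : ℝ)) x =
      if cos x < √3 / 2 ∧ 1 / 2 < cos x then 1 else 0 := by
    simp only [Set.indicator, Set.mem_Ioo, e1, e2]
  have i2 : (Set.Ioo (2 * π / 3) (5 * π / 6)).indicator (fun _ => (1 : ℝ)) x =
      if cos x < -(1 / 2) ∧ -(√3 / 2) < cos x then 1 else 0 := by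
    simp only [Set.indicator, Set.mem_Ioo, e3, e4]
  rw [i1, i2]
  have hs12 : 1 < √3 := by nlinarith
  unfold chi
  by_cases hpos : 0 < cos x
  · have n1 : ¬ (cos x < -(1 / 2) ∧ -(√3 / 2) < cos x) := by
      intro h; linarith [h.1]
    rw [if_neg n1]
    have iff1 : (1 < 4 * cos x ^ 2 ∧ 4 * cos x ^ 2 < 3) ↔ (cos x < √3 / 2 ∧ 1 / 2 < cos x) := by
      constructor
      · rintro ⟨h1, h2⟩
        constructor
        · by_contra h; push Not at h; nlinarith
        · by_contra h; push Not at h; nlinarith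
      · rintro ⟨h1, h2⟩
        constructor <;> nlinarith
    by_cases h : 1 < 4 * cos x ^ 2 ∧ 4 * cos x ^ 2 < 3
    · rw [if_pos h, if_pos hpos, if_pos (iff1.mp h)]; simp
    · rw [if_neg h, if_neg (fun h' => h (iff1.mpr h'))]; simp
  · push Not at hpos
    have n1 : ¬ (cos x < √3 / 2 ∧ 1 / 2 < cos x) := by
      intro h; linarith [h.2]
    rw [if_neg n1]
    have iff1 : (1 < 4 * cos x ^ 2 ∧ 4 * cos x ^ 2 < 3) ↔
        (cos x < -(1 / 2) ∧ -(√3 / 2) < cos x) := by
      constructor
      · rintro ⟨h1, h2⟩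
        constructor
        · by_contra h; push Not at h; nlinarith
        · by_contra h; push Not at h; nlinarith
      · rintro ⟨h1, h2⟩
        constructor <;> nlinarith
    by_cases h : 1 < 4 * cos x ^ 2 ∧ 4 * cos x ^ 2 < 3
    · rw [if_pos h, if_neg (not_lt.mpr hpos), if_pos (iff1.mp h)]; simp
    · rw [if_neg h, if_neg (fun h' => h (iff1.mpr h'))]; simp

lemma intervalIntegrable_aux (g : ℝ → ℂ) (hg : Continuous g) (a b : ℝ) :
    IntervalIntegrable (fun x => g x * ((chi (cos x) : ℤ) : ℂ)) volume a b := by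
  have h1 : IntervalIntegrable g volume a b := hg.intervalIntegrable a b
  have h2 : Measurable (fun x : ℝ => ((chi (cos x) : ℤ) : ℂ)) := by
    have h2 : Measurable (fun n : ℤ => (n : ℂ)) := measurable_from_top
    exact h2.comp (measurable_chi.comp continuous_cos.measurable)
  have h3 : ∀ x, ‖((chi (cos x) : ℤ) : ℂ)‖ ≤ 1 := by
    intro x; rw [Complex.norm_intCast]; exact chi_abs_le _
  constructor
  · exact h1.1.mul_bdd h2.aestronglyMeasurable (Eventually.of_forall h3)
  · exact h1.2.mul_bdd h2.aestronglyMeasurable (Eventually.of_forall h3)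

lemma integral_half (h : ℕ) (hh : 0 < h) :
    ∫ x in (0 : ℝ)..π, cos (h * x) * ((chi (cos x) : ℤ) : ℝ) =
      (1 / h) * (sin (h * (π / 3)) - sin (h * (π / 6))
        - (sin (h * (5 * π / 6)) - sin (h * (2 * π / 3)))) := by
  have hpi := pi_pos
  have hR : (h : ℝ) ≠ 0 := by exact_mod_cast hh.ne'
  have hanti : ∀ a b : ℝ, ∫ x in a..b, cos (h * x) = (1 / h) * (sin (h * b) - sin (h * a)) := by
    intro a b
    rw [intervalIntegral.integral_comp_mul_left (fun x => cos x) hR, integral_cos]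
    simp
  rw [intervalIntegral.integral_of_le hpi.le, integral_Ioc_eq_integral_Ioo]
  have h1 : ∫ x in Set.Ioo 0 π, cos (h * x) * ((chi (cos x) : ℤ) : ℝ) =
      ∫ x in Set.Ioo 0 π, ((Set.Ioo (π / 6) (π / 3)).indicator (fun x => cos (h * x)) x -
      (Set.Ioo (2 * π / 3) (5 * π / 6)).indicator (fun x => cos (h * x)) x) := by
    refine setIntegral_congr_fun measurableSet_Ioo fun x hx => ?_
    rw [chi_cos_eq hx]
    simp only [Set.indicator]
    split_ifs <;> ring
  have hint : ∀ a b : ℝ, 0 ≤ a → b ≤ π → Integrable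
      (fun x => (Set.Ioo a b).indicator (fun x => cos (h * x)) x)
      (volume.restrict (Set.Ioo 0 π)) := by
    intro a b _ _
    apply Integrable.indicator _ measurableSet_Ioo
    have : IntegrableOn (fun x : ℝ => cos (h * x)) (Set.Icc 0 π) := by
      apply Continuous.integrableOn_Icc
      fun_prop
    exact this.mono_set Set.Ioo_subset_Icc_self
  have hset : ∀ a b : ℝ, 0 ≤ a → b ≤ π → a ≤ b →
      ∫ x in Set.Ioo 0 π, (Set.Ioo a b).indicator (fun x => cos (h * x)) x =
        (1 / h) * (sin (h * b) - sin (h * a)) := by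
    intro a b ha hb hab
    rw [setIntegral_indicator measurableSet_Ioo]
    have : Set.Ioo 0 π ∩ Set.Ioo a b = Set.Ioo a b :=
      Set.inter_eq_right.mpr (Set.Ioo_subset_Ioo ha hb)
    rw [this, ← integral_Ioc_eq_integral_Ioo, ← intervalIntegral.integral_of_le hab, hanti]
  rw [h1, integral_sub (hint _ _ (by positivity) (by linarith))
    (hint _ _ (by positivity) (by linarith)),
    hset _ _ (by positivity) (by linarith) (by linarith),
    hset _ _ (by positivity) (by linarith) (by linarith)]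
  ring

lemma integral_value (t : ℕ) :
    ∫ x in (0 : ℝ)..π, cos (((12 * t + 1 : ℕ) : ℝ) * x) * ((chi (cos x) : ℤ) : ℝ) =
      (√3 - 1) / ((12 * t + 1 : ℕ) : ℝ) := by
  rw [integral_half _ (by omega)]
  have s1 : sin (((12 * t + 1 : ℕ) : ℝ) * (π / 3)) = √3 / 2 := by
    have : ((12 * t + 1 : ℕ) : ℝ) * (π / 3) = π / 3 + (2 * t : ℕ) * (2 * π) := by
      push_cast; ring
    rw [this, sin_add_nat_mul_two_pi, sin_pi_div_three]
  have s2 : sin (((12 * t + 1 : ℕ) : ℝ) * (π / 6)) = 1 / 2 := by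
    have : ((12 * t + 1 : ℕ) : ℝ) * (π / 6) = π / 6 + (t : ℕ) * (2 * π) := by
      push_cast; ring
    rw [this, sin_add_nat_mul_two_pi, sin_pi_div_six]
  have s3 : sin (((12 * t + 1 : ℕ) : ℝ) * (5 * π / 6)) = 1 / 2 := by
    have : ((12 * t + 1 : ℕ) : ℝ) * (5 * π / 6) = 5 * π / 6 + (5 * t : ℕ) * (2 * π) := by
      push_cast; ring
    rw [this, sin_add_nat_mul_two_pi, show 5 * π / 6 = π - π / 6 by ring, sin_pi_sub,
      sin_pi_div_six]
  have s4 : sin (((12 * t + 1 : ℕ) : ℝ) * (2 * π / 3)) = √3 / 2 := by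
    have : ((12 * t + 1 : ℕ) : ℝ) * (2 * π / 3) = 2 * π / 3 + (4 * t : ℕ) * (2 * π) := by
      push_cast; ring
    rw [this, sin_add_nat_mul_two_pi, show 2 * π / 3 = π - π / 3 by ring, sin_pi_sub,
      sin_pi_div_three]
  rw [s1, s2, s3, s4]
  ring

lemma fourierCoeff_G (t : ℕ) :
    fourierCoeff G ((12 * t + 1 : ℕ) : ℤ) =
      (((√3 - 1) / (π * ((12 * t + 1 : ℕ) : ℝ)) : ℝ) : ℂ) := by
  set h : ℕ := 12 * t + 1 with hh
  have hpi := pi_pos
  rw [fourierCoeff_eq_intervalIntegral G _ (-π)]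
  have hend : -π + 2 * π = π := by ring
  rw [hend]
  set g : ℝ → ℂ := fun x => (fourier (-(h : ℤ)) (x : AddCircle (2 * π)) : ℂ) with hg
  have hgc : Continuous g := by
    have : Continuous (fun x : ℝ => (x : AddCircle (2 * π))) := AddCircle.continuous_mk' _
    exact (map_continuous (fourier (-(h : ℤ)))).comp this
  have hgval : ∀ x : ℝ, g x = Complex.exp (-(h * x : ℝ) * Complex.I) := by
    intro x
    simp only [hg]
    rw [fourier_coe_apply]
    congr 1
    push_cast
    have : (π : ℂ) ≠ 0 := by exact_mod_cast hpi.ne'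
    field_simp
  have hfun : ∀ x : ℝ, (fourier (-(h : ℤ)) (x : AddCircle (2 * π)) : ℂ) • G x =
      g x * ((chi (cos x) : ℤ) : ℂ) := by
    intro x; rw [G_coe]; rfl
  simp_rw [hfun]
  have hi : ∀ a b : ℝ, IntervalIntegrable (fun x => g x * ((chi (cos x) : ℤ) : ℂ)) volume a b :=
    fun a b => intervalIntegrable_aux g hgc a b
  rw [← intervalIntegral.integral_add_adjacent_intervals (hi (-π) 0) (hi 0 π)]
  have hneg : ∫ x in (-π)..0, g x * ((chi (cos x) : ℤ) : ℂ) =
      ∫ x in (0 : ℝ)..π, g (-x) * ((chi (cos x) : ℤ) : ℂ) := by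
    have h1 := intervalIntegral.integral_comp_neg (a := 0) (b := π)
      (fun x => g x * ((chi (cos x) : ℤ) : ℂ))
    simp only [cos_neg, neg_zero] at h1
    exact h1.symm
  have hi' : IntervalIntegrable (fun x => g (-x) * ((chi (cos x) : ℤ) : ℂ)) volume 0 π :=
    intervalIntegrable_aux (fun x => g (-x)) (by fun_prop) 0 π
  rw [hneg, ← intervalIntegral.integral_add hi' (hi 0 π)]
  have hsum : ∀ x : ℝ, g (-x) * ((chi (cos x) : ℤ) : ℂ) + g x * ((chi (cos x) : ℤ) : ℂ) =
      ((2 * (cos (h * x) * ((chi (cos x) : ℤ) : ℝ)) : ℝ) : ℂ) := by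
    intro x
    rw [← add_mul, hgval, hgval]
    have h2 : Complex.exp (-((h : ℝ) * -x : ℝ) * Complex.I) +
        Complex.exp (-((h : ℝ) * x : ℝ) * Complex.I) = 2 * ((cos (h * x) : ℝ) : ℂ) := by
      rw [Complex.ofReal_cos, Complex.two_cos]
      congr 1
      congr 1
      push_cast
      ring
    rw [h2]
    push_cast
    ring
  simp_rw [hsum]
  have hval := integral_value t
  rw [← hh] at hval
  rw [intervalIntegral.integral_ofReal, intervalIntegral.integral_const_mul, hval]
  rw [Complex.real_smul, ← Complex.ofReal_mul]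
  congr 1
  have : (h : ℝ) ≠ 0 := by
    rw [hh]; positivity
  field_simp

end Pool.Agent.Lib.MP_91ed4c_nt
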