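import Mathlib
import Pool.Agent.Lib.MP_91ed4c_nt.Dioph
import Pool.Agent.Lib.MP_91ed4c_nt.Bessel
import Pool.Agent.Lib.MP_91ed4c_nt.Step

namespace Pool.Agent.Lib.MP_91ed4c_nt

open Real MeasureTheory Filter Topology

lemma dense_nsmul {φ : ℝ} (hφ : Irrational (φ / (2 * π))) :
    DenseRange (fun n : ℕ => n • (φ : AddCircle (2 * π))) := by
  have h1 : DenseRange (fun n : ℤ => n • (φ : AddCircle (2 * π))) :=
    AddCircle.denseRange_zsmul_coe_iff.mpr hφ
  have h2 : Dense ((AddSubgroup.closure {(φ : AddCircle (2 * π))} :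
      AddSubgroup (AddCircle (2 * π))) : Set (AddCircle (2 * π))) := by
    rw [← AddSubgroup.zmultiples_eq_closure, AddSubgroup.coe_zmultiples]
    exact h1
  have h3 := dense_addSubmonoidClosure_iff_addSubgroupClosure.mpr h2
  rw [← AddSubmonoid.multiples_eq_closure, AddSubmonoid.coe_multiples] at h3
  exact h3

/-- Unboundedness of the Birkhoff sums of `chi ∘ cos` along the orbit of `0` of an irrational
rotation. -/
theorem unbounded_sums {φ : ℝ} (hφ : Irrational (φ / (2 * π))) (M : ℝ) :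
    ∃ m : ℕ, M < |∑ i ∈ Finset.range m, ((chi (cos ((i + 1 : ℕ) * φ)) : ℤ) : ℝ)| := by
  by_contra hcon
  push Not at hcon
  have hpi := pi_pos
  set a : AddCircle (2 * π) := (φ : AddCircle (2 * π)) with ha
  set β : ℝ := φ / (2 * π) with hβ
  -- bounded Birkhoff sums
  have hb : ∀ m : ℕ, ‖bsum G a m 0‖ ≤ M := by
    intro m
    have h1 : bsum G a m 0 =
        ((∑ i ∈ Finset.range m, ((chi (cos ((i + 1 : ℕ) * φ)) : ℤ) : ℝ) : ℝ) : ℂ) := by
      unfold bsum
      push_cast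
      refine Finset.sum_congr rfl fun i _ => ?_
      rw [zero_add, ha]
      have h2 : (i + 1) • (φ : AddCircle (2 * π)) = (((i + 1 : ℕ) * φ : ℝ) : AddCircle (2 * π)) := by
        rw [← nsmul_eq_mul]
        exact (AddCircle.coe_nsmul (p := 2 * π)).symm
      rw [h2, G_coe]
      push_cast
      rfl
    rw [h1, Complex.norm_real]
    exact hcon m
  -- the good frequencies
  have hinf := infinite_good hφ
  set S := {t : ℕ | ∃ u : ℤ, ((12 * t + 1 : ℕ) : ℝ) * |((12 * t + 1 : ℕ) : ℝ) * β - u| ≤ 18} with hS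
  set c0 : ℝ := (√3 - 1) / (36 * π ^ 2) with hc0
  have hs3 : 1 < √3 := by
    rw [show (1 : ℝ) = √1 by simp]
    exact Real.sqrt_lt_sqrt (by norm_num) (by norm_num)
  have hc0pos : 0 < c0 := by
    rw [hc0]
    apply div_pos (by linarith) (by positivity)
  have hne : ∀ t : ℕ, (fourier ((12 * t + 1 : ℕ) : ℤ) a : ℂ) ≠ 1 := by
    intro t h1
    rw [ha, fourier_coe_apply, Complex.exp_eq_one_iff] at h1
    obtain ⟨n, hn⟩ := h1
    have hpiC : (π : ℂ) ≠ 0 := by exact_mod_cast hpi.ne'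
    have h2 : (((12 * t + 1 : ℕ) : ℝ) * φ : ℂ) = ((n * (2 * π) : ℝ) : ℂ) := by
      have h3 : (2 * π * Complex.I : ℂ) ≠ 0 := by
        simp [hpiC]
      have h4 : (2 * (π : ℂ) * Complex.I * (((12 * t + 1 : ℕ) : ℤ) : ℂ) * φ / ((2 * π : ℝ) : ℂ)) =
          (((12 * t + 1 : ℕ) : ℝ) * φ : ℂ) * Complex.I := by
        push_cast
        field_simp
      rw [h4] at hn
      have h5 : (((12 * t + 1 : ℕ) : ℝ) * φ : ℂ) * Complex.I =
          ((n * (2 * π) : ℝ) : ℂ) * Complex.I := by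
        rw [hn]; push_cast; ring
      exact mul_right_cancel₀ Complex.I_ne_zero h5
    have h3 : ((12 * t + 1 : ℕ) : ℝ) * φ = n * (2 * π) := by exact_mod_cast h2
    have hirr : Irrational (((12 * t + 1 : ℕ) : ℝ) * β) := by
      have h0 : ((12 * t + 1 : ℕ) : ℤ) ≠ 0 := by positivity
      simpa using hφ.intCast_mul h0
    apply hirr
    refine ⟨n, ?_⟩
    rw [hβ]
    field_simp
    rw [h3]
    push_cast
    ring
  have hterm : ∀ t ∈ S, c0 ≤ ‖fourierCoeff G ((12 * t + 1 : ℕ) : ℤ)‖ /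
      ‖1 - (fourier ((12 * t + 1 : ℕ) : ℤ) a : ℂ)‖ := by
    rintro t ⟨u, hu⟩
    set h : ℝ := ((12 * t + 1 : ℕ) : ℝ) with hh
    have hpos : 0 < h := by rw [hh]; positivity
    have h1 : ‖fourierCoeff G ((12 * t + 1 : ℕ) : ℤ)‖ = (√3 - 1) / (π * h) := by
      rw [fourierCoeff_G, Complex.norm_real, Real.norm_of_nonneg]
      exact div_nonneg (by linarith) (by positivity)
    have h2 : ‖1 - (fourier ((12 * t + 1 : ℕ) : ℤ) a : ℂ)‖ ≤ 2 * π * |h * β - u| := by
      have h3 : (fourier ((12 * t + 1 : ℕ) : ℤ) a : ℂ) =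
          Complex.exp (Complex.I * ((2 * π * (h * β - u) : ℝ) : ℂ)) := by
        rw [ha, fourier_coe_apply]
        rw [Complex.exp_eq_exp_iff_exists_int]
        refine ⟨u, ?_⟩
        have hpiC : (π : ℂ) ≠ 0 := by exact_mod_cast hpi.ne'
        rw [hβ, hh]
        push_cast
        field_simp
        ring
      rw [h3, norm_sub_rev]
      refine (Real.norm_exp_I_mul_ofReal_sub_one_le).trans ?_
      rw [Real.norm_eq_abs, abs_mul, abs_of_pos (by positivity : (0 : ℝ) < 2 * π)]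
    have h4 : ‖1 - (fourier ((12 * t + 1 : ℕ) : ℤ) a : ℂ)‖ ≤ 36 * π / h := by
      refine h2.trans ?_
      rw [le_div_iff₀ hpos]
      calc 2 * π * |h * β - u| * h = 2 * π * (h * |h * β - u|) := by ring
        _ ≤ 2 * π * 18 := by gcongr
        _ = 36 * π := by ring
    have h5 : 0 < ‖1 - (fourier ((12 * t + 1 : ℕ) : ℤ) a : ℂ)‖ := by
      rw [norm_pos_iff, sub_ne_zero]
      exact (hne t).symm
    rw [h1, le_div_iff₀ h5]
    calc c0 * ‖1 - (fourier ((12 * t + 1 : ℕ) : ℤ) a : ℂ)‖ ≤ c0 * (36 * π / h) := by gcongr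
      _ = (√3 - 1) / (π * h) := by
        rw [hc0]; field_simp
  -- choose many frequencies
  obtain ⟨n, hn⟩ := exists_nat_gt ((2 * M) ^ 2 / c0 ^ 2)
  obtain ⟨F, hFS, hFn⟩ := hinf.exists_subset_card_eq n
  have hinj : Function.Injective (fun t : ℕ => ((12 * t + 1 : ℕ) : ℤ)) := by
    intro x y hxy
    have hxy' : ((12 * x + 1 : ℕ) : ℤ) = ((12 * y + 1 : ℕ) : ℤ) := hxy
    have : 12 * x + 1 = 12 * y + 1 := by exact_mod_cast hxy'
    omega
  have hmain := coboundary_bound (G := G) (a := a) (E := badSet)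
    (fun n => null_badSet _) (fun x hx => continuousAt_G hx) integrable_G (dense_nsmul hφ) hb
    (F.map ⟨_, hinj⟩) (by
      intro h hh
      rw [Finset.mem_map] at hh
      obtain ⟨t, _, rfl⟩ := hh
      exact hne t)
  rw [Finset.sum_map] at hmain
  have hlow : (n : ℝ) * c0 ^ 2 ≤ ∑ t ∈ F, (‖fourierCoeff G ((12 * t + 1 : ℕ) : ℤ)‖ /
      ‖1 - (fourier ((12 * t + 1 : ℕ) : ℤ) a : ℂ)‖) ^ 2 := by
    rw [← hFn, ← nsmul_eq_mul]
    refine Finset.card_nsmul_le_sum _ _ _ fun t ht => ?_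
    have := hterm t (hFS ht)
    gcongr
  have h6 : (n : ℝ) * c0 ^ 2 ≤ (2 * M) ^ 2 := hlow.trans hmain
  rw [div_lt_iff₀ (by positivity)] at hn
  linarith

end Pool.Agent.Lib.MP_91ed4c_nt
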