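import Mathlib
import Pool.Agent.Lib.MP_91ed4c_nt.Unbounded

namespace Pool.Agent.Lib.MP_91ed4c_nt

open Real

/-- The nonprincipal character modulo 3 on natural numbers. -/
def chi3 (a : ℕ) : ℤ := if a % 3 = 1 then 1 else if a % 3 = 2 then -1 else 0

/-- Representations `N = a² + 3 b²` with `0 ≤ b < a < 3 b`. -/
def reps (N : ℕ) : Finset (ℕ × ℕ) :=
  ((Finset.range (N + 1)) ×ˢ (Finset.range (N + 1))).filter
    (fun p => p.1 ^ 2 + 3 * p.2 ^ 2 = N ∧ p.2 < p.1 ∧ p.1 < 3 * p.2)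

lemma mem_reps {N : ℕ} {p : ℕ × ℕ} :
    p ∈ reps N ↔ p.1 ^ 2 + 3 * p.2 ^ 2 = N ∧ p.2 < p.1 ∧ p.1 < 3 * p.2 := by
  unfold reps
  rw [Finset.mem_filter, Finset.mem_product, Finset.mem_range, Finset.mem_range]
  constructor
  · exact fun h => h.2
  · intro h
    refine ⟨⟨?_, ?_⟩, h⟩
    · nlinarith [h.1, Nat.zero_le p.2, sq_nonneg p.1, Nat.le_self_pow (two_ne_zero) p.1]
    · nlinarith [h.1, Nat.zero_le p.2, sq_nonneg p.1, Nat.le_self_pow (two_ne_zero) p.2]

/-- The arithmetic expression for the coefficients. -/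
def cval (N : ℕ) : ℤ := - ∑ p ∈ reps N, chi3 p.1

lemma chi3_mul_five (a : ℕ) : chi3 (5 * a) = - chi3 a := by
  unfold chi3
  have : a % 3 = 0 ∨ a % 3 = 1 ∨ a % 3 = 2 := by omega
  rcases this with h | h | h
  · have h1 : (5 * a) % 3 = 0 := by omega
    simp [h, h1]
  · have h1 : (5 * a) % 3 = 2 := by omega
    simp [h, h1]
  · have h1 : (5 * a) % 3 = 1 := by omega
    simp [h, h1]

lemma chi3_mul_seven (a : ℕ) : chi3 (7 * a) = chi3 a := by
  unfold chi3
  have h1 : (7 * a) % 3 = a % 3 := by omega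
  rw [h1]

/-- scaling embedding -/
def scaleEmb (k : ℕ) (hk : 0 < k) : ℕ × ℕ ↪ ℕ × ℕ where
  toFun p := (k * p.1, k * p.2)
  inj' := by
    intro p q h
    simp only [Prod.mk.injEq] at h
    exact Prod.ext (Nat.eq_of_mul_eq_mul_left hk h.1) (Nat.eq_of_mul_eq_mul_left hk h.2)

@[simp] lemma scaleEmb_apply (k : ℕ) (hk : 0 < k) (p : ℕ × ℕ) :
    scaleEmb k hk p = (k * p.1, k * p.2) := rfl

lemma five_dvd {a b : ℕ} (h : 5 ∣ a ^ 2 + 3 * b ^ 2) : 5 ∣ a ∧ 5 ∣ b := by
  have key : ∀ x y : ZMod 5, x ^ 2 + 3 * y ^ 2 = 0 → x = 0 ∧ y = 0 := by decide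
  have h1 : ((a ^ 2 + 3 * b ^ 2 : ℕ) : ZMod 5) = 0 := (ZMod.natCast_eq_zero_iff _ _).mpr h
  push_cast at h1
  obtain ⟨h2, h3⟩ := key _ _ h1
  exact ⟨(ZMod.natCast_eq_zero_iff _ _).mp h2, (ZMod.natCast_eq_zero_iff _ _).mp h3⟩

lemma reps_twentyfive (N : ℕ) :
    reps (25 * N) = (reps N).map (scaleEmb 5 (by norm_num)) := by
  ext ⟨a, b⟩
  rw [Finset.mem_map, mem_reps]
  constructor
  · rintro ⟨h1, h2, h3⟩
    simp only at h1 h2 h3
    obtain ⟨⟨a', ha⟩, ⟨b', hb⟩⟩ := five_dvd (a := a) (b := b) (by rw [h1]; omega)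
    refine ⟨(a', b'), ?_, ?_⟩
    · rw [mem_reps]
      subst ha hb
      refine ⟨?_, ?_, ?_⟩ <;> simp only
      · nlinarith
      · omega
      · omega
    · simp [ha, hb]
  · rintro ⟨⟨a', b'⟩, h, heq⟩
    rw [mem_reps] at h
    simp only [scaleEmb_apply, Prod.mk.injEq] at heq
    obtain ⟨rfl, rfl⟩ := heq
    simp only at h ⊢
    refine ⟨?_, ?_, ?_⟩
    · rw [← h.1]; ring
    · omega
    · omega

lemma cval_twentyfive (N : ℕ) : cval (25 * N) = - cval N := by
  unfold cval
  rw [reps_twentyfive, Finset.sum_map]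
  simp only [scaleEmb_apply, chi3_mul_five, Finset.sum_neg_distrib]

/-! ### Powers of 49 -/

/-- `(1 - 4 √-3)^m = u m + v m √-3`. -/
def uv : ℕ → ℤ × ℤ
  | 0 => (1, 0)
  | m + 1 => ((uv m).1 + 12 * (uv m).2, (uv m).2 - 4 * (uv m).1)

lemma uv_norm (m : ℕ) : (uv m).1 ^ 2 + 3 * (uv m).2 ^ 2 = 49 ^ m := by
  induction m with
  | zero => simp [uv]
  | succ m ih =>
    simp only [uv]
    rw [pow_succ (49 : ℤ) m, ← ih]; ring

lemma uv_mod_three (m : ℕ) : (uv m).1 % 3 = 1 := by
  induction m with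
  | zero => simp [uv]
  | succ m ih => simp only [uv]; omega

lemma uv_mod_seven (m : ℕ) : (uv (m + 1)).2 % 7 = (3 * (uv (m + 1)).1) % 7 ∧
    (uv (m + 1)).1 % 7 ≠ 0 := by
  induction m with
  | zero => simp [uv]
  | succ m ih =>
    obtain ⟨h1, h2⟩ := ih
    rw [show m + 1 + 1 = (m + 1) + 1 from rfl, uv]
    simp only
    constructor
    · omega
    · omega

lemma uv_not_dvd (m : ℕ) : ¬ (7 : ℤ) ∣ (uv m).1 := by
  cases m with
  | zero => simp [uv]
  | succ m =>
    have := (uv_mod_seven m).2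
    omega

lemma prim_reps (m : ℕ) : ∀ a b : ℤ, a ^ 2 + 3 * b ^ 2 = 49 ^ m → ¬ (7 : ℤ) ∣ a →
    |a| = |(uv m).1| ∧ |b| = |(uv m).2| := by
  induction m with
  | zero =>
    intro a b h _
    simp only [uv, pow_zero] at h ⊢
    have hb : b = 0 := by
      by_contra hb
      have : 1 ≤ b ^ 2 := by
        have := Int.one_le_abs hb
        nlinarith [sq_abs b]
      nlinarith [sq_nonneg a]
    subst hb
    simp only [abs_zero, and_true]
    have h1 : (a - 1) * (a + 1) = 0 := by nlinarith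
    rcases mul_eq_zero.mp h1 with h2 | h2
    · have : a = 1 := by linarith
      simp [this]
    · have : a = -1 := by linarith
      simp [this]
  | succ m ih =>
    -- the main step, assuming `49 ∣ a - 12 b`
    have main : ∀ a b : ℤ, a ^ 2 + 3 * b ^ 2 = 49 ^ (m + 1) → ¬ (7 : ℤ) ∣ a →
        (49 : ℤ) ∣ a - 12 * b → |a| = |(uv (m + 1)).1| ∧ |b| = |(uv (m + 1)).2| := by
      intro a b h h7 hd
      obtain ⟨a', ha'⟩ := hd
      -- b' = (4 a + b) / 49
      set b' : ℤ := 4 * a' + b with hb'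
      have ea : a = a' + 12 * b' := by rw [hb']; linarith
      have eb : b = b' - 4 * a' := by rw [hb']; ring
      have hn : a' ^ 2 + 3 * b' ^ 2 = 49 ^ m := by
        have h1 : (49 : ℤ) * (a' ^ 2 + 3 * b' ^ 2) = 49 * 49 ^ m := by
          rw [← pow_succ', ← h, ea, eb]; ring
        exact mul_left_cancel₀ (by norm_num) h1
      have h7' : ¬ (7 : ℤ) ∣ a' := by
        intro hda
        rcases Nat.eq_zero_or_pos m with hm | hm
        · subst hm
          obtain ⟨k, hk⟩ := hda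
          have hb0 : b' = 0 := by
            by_contra hb
            have : 1 ≤ b' ^ 2 := by
              have := Int.one_le_abs hb
              nlinarith [sq_abs b']
            nlinarith [sq_nonneg a']
          rw [hb0, hk] at hn
          have : (49 : ℤ) * k ^ 2 = 1 := by nlinarith
          omega
        · have h2 : (7 : ℤ) ∣ 3 * b' ^ 2 := by
            have h3 : (7 : ℤ) ∣ 49 ^ m := dvd_pow (by norm_num) hm.ne'
            have h4 : (7 : ℤ) ∣ a' ^ 2 := dvd_pow hda (by norm_num)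
            have h5 : 3 * b' ^ 2 = 49 ^ m - a' ^ 2 := by linarith
            rw [h5]; exact dvd_sub h3 h4
          have hp : Prime (7 : ℤ) := by norm_num
          have h6 : (7 : ℤ) ∣ b' := by
            rcases hp.dvd_or_dvd h2 with h | h
            · norm_num at h
            · exact hp.dvd_of_dvd_pow h
          exact h7 (by rw [ea]; exact dvd_add hda (Dvd.dvd.mul_left h6 12))
      obtain ⟨h1, h2⟩ := ih a' b' hn h7'
      rw [abs_eq_abs] at h1 h2
      simp only [uv]
      rcases h1 with h1 | h1 <;> rcases h2 with h2 | h2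
      · constructor
        · rw [ea, h1, h2]
        · rw [eb, h1, h2]
      · -- conjugate case
        rcases Nat.eq_zero_or_pos m with hm | hm
        · subst hm
          simp only [uv] at h1 h2 ⊢
          rw [ea, eb, h1, h2]
          norm_num
        · exfalso
          obtain ⟨k, rfl⟩ := Nat.exists_eq_succ_of_ne_zero hm.ne'
          apply h7
          rw [ea, h1, h2]
          simp only [uv]
          exact ⟨7 * (uv k).1, by ring⟩
      · rcases Nat.eq_zero_or_pos m with hm | hm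
        · subst hm
          simp only [uv] at h1 h2 ⊢
          rw [ea, eb, h1, h2]
          norm_num
        · exfalso
          obtain ⟨k, rfl⟩ := Nat.exists_eq_succ_of_ne_zero hm.ne'
          apply h7
          rw [ea, h1, h2]
          simp only [uv]
          exact ⟨-7 * (uv k).1, by ring⟩
      · constructor
        · rw [ea, h1, h2, ← abs_neg]; congr 1; ring
        · rw [eb, h1, h2, ← abs_neg]; congr 1; ring
    intro a b h h7
    have hprod : (49 : ℤ) ∣ (a - 12 * b) * (a + 12 * b) := by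
      have h1 : (a - 12 * b) * (a + 12 * b) = 49 ^ (m + 1) - 49 * (3 * b ^ 2) := by
        rw [← h]; ring
      rw [h1]
      exact dvd_sub (dvd_pow_self _ (by omega)) (dvd_mul_right _ _)
    have hp : Prime (7 : ℤ) := by norm_num
    by_cases h8 : (7 : ℤ) ∣ a - 12 * b
    · have h9 : ¬ (7 : ℤ) ∣ a + 12 * b := by
        intro h9
        have h10 : (7 : ℤ) ∣ 2 * a := by
          have := dvd_add h8 h9
          have e : a - 12 * b + (a + 12 * b) = 2 * a := by ring
          rwa [e] at this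
        rcases hp.dvd_or_dvd h10 with h | h
        · norm_num at h
        · exact h7 h
      have hcop : IsCoprime (49 : ℤ) (a + 12 * b) := by
        have : IsCoprime (7 : ℤ) (a + 12 * b) := (Prime.coprime_iff_not_dvd hp).mpr h9
        have h2 := IsCoprime.pow_left (m := 2) this
        norm_num at h2
        exact h2
      exact main a b h h7 (hcop.dvd_of_dvd_mul_right hprod)
    · have hcop : IsCoprime (49 : ℤ) (a - 12 * b) := by
        have : IsCoprime (7 : ℤ) (a - 12 * b) := (Prime.coprime_iff_not_dvd hp).mpr h8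
        have h2 := IsCoprime.pow_left (m := 2) this
        norm_num at h2
        exact h2
      have h10 := main a (-b) (by rw [← h]; ring) h7
        (by
          have := hcop.dvd_of_dvd_mul_left hprod
          rwa [show a - 12 * -b = a + 12 * b by ring])
      rwa [abs_neg] at h10

lemma seven_dvd_of {a b : ℕ} {N : ℕ} (h : a ^ 2 + 3 * b ^ 2 = 49 * N) (ha : 7 ∣ a) : 7 ∣ b := by
  have h1 : 7 ∣ 3 * b ^ 2 := by
    have h2 : 7 ∣ a ^ 2 := dvd_pow ha (by norm_num)
    have h3 : 7 ∣ a ^ 2 + 3 * b ^ 2 := by rw [h]; exact Dvd.intro (7 * N) (by ring)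
    exact (Nat.dvd_add_right h2).mp h3
  have hp : Nat.Prime 7 := by norm_num
  rcases (Nat.Prime.dvd_mul hp).mp h1 with h | h
  · norm_num at h
  · exact hp.dvd_of_dvd_pow h

/-- recursive description of the representations of powers of 49 -/
lemma reps_fortynine (m : ℕ) :
    reps (49 ^ (m + 1)) = (reps (49 ^ m)).map (scaleEmb 7 (by norm_num)) ∪
      (({((uv (m + 1)).1.natAbs, (uv (m + 1)).2.natAbs)} : Finset (ℕ × ℕ)).filter
        (fun p => p.2 < p.1 ∧ p.1 < 3 * p.2)) := by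
  ext ⟨a, b⟩
  rw [Finset.mem_union, Finset.mem_map, Finset.mem_filter, Finset.mem_singleton, mem_reps]
  constructor
  · rintro ⟨h1, h2, h3⟩
    simp only at h1 h2 h3
    by_cases h7 : 7 ∣ a
    · left
      have h7b : 7 ∣ b := seven_dvd_of (by rw [h1, pow_succ']) h7
      obtain ⟨a', rfl⟩ := h7
      obtain ⟨b', rfl⟩ := h7b
      refine ⟨(a', b'), ?_, by simp⟩
      rw [mem_reps]
      refine ⟨?_, by simp only; omega, by simp only; omega⟩
      simp only
      have : 49 * (a' ^ 2 + 3 * b' ^ 2) = 49 * 49 ^ m := by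
        rw [← pow_succ', ← h1]; ring
      exact Nat.eq_of_mul_eq_mul_left (by norm_num) this
    · right
      have h4 := prim_reps (m + 1) (a : ℤ) (b : ℤ) (by exact_mod_cast h1)
        (by intro h; exact h7 (by exact_mod_cast h))
      simp only [Nat.abs_cast] at h4
      refine ⟨?_, h2, h3⟩
      rw [Prod.mk.injEq]
      constructor
      · zify; exact h4.1
      · zify; exact h4.2
  · rintro (⟨⟨a', b'⟩, h, heq⟩ | ⟨heq, h2, h3⟩)
    · rw [mem_reps] at h
      simp only [scaleEmb_apply, Prod.mk.injEq] at heq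
      obtain ⟨rfl, rfl⟩ := heq
      simp only at h ⊢
      refine ⟨?_, by omega, by omega⟩
      rw [pow_succ' 49 m, ← h.1]; ring
    · refine ⟨?_, h2, h3⟩
      rw [Prod.mk.injEq] at heq
      obtain ⟨rfl, rfl⟩ := heq
      simp only
      zify
      rw [sq_abs, sq_abs]
      exact_mod_cast uv_norm (m + 1)

/-- sign of the new term -/
def newterm (m : ℕ) : ℤ :=
  if (uv m).2.natAbs < (uv m).1.natAbs ∧ (uv m).1.natAbs < 3 * (uv m).2.natAbs then
    chi3 (uv m).1.natAbs else 0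

lemma cval_fortynine (m : ℕ) : cval (49 ^ (m + 1)) = cval (49 ^ m) - newterm (m + 1) := by
  have hdisj : Disjoint ((reps (49 ^ m)).map (scaleEmb 7 (by norm_num)))
      (({((uv (m + 1)).1.natAbs, (uv (m + 1)).2.natAbs)} : Finset (ℕ × ℕ)).filter
        (fun p => p.2 < p.1 ∧ p.1 < 3 * p.2)) := by
    rw [Finset.disjoint_left]
    intro p hp hq
    rw [Finset.mem_filter, Finset.mem_singleton] at hq
    rw [Finset.mem_map] at hp
    obtain ⟨q, _, rfl⟩ := hp
    obtain ⟨hq, _⟩ := hq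
    simp only [scaleEmb_apply, Prod.mk.injEq] at hq
    apply uv_not_dvd (m + 1)
    rw [← Int.dvd_natAbs, ← hq.1]
    exact_mod_cast dvd_mul_right 7 q.1
  unfold cval newterm
  rw [reps_fortynine, Finset.sum_union hdisj, Finset.sum_map, Finset.sum_filter,
    Finset.sum_singleton]
  simp only [scaleEmb_apply, chi3_mul_seven]
  ring

lemma cval_one : cval 1 = 0 := by decide

lemma cval_pow (m : ℕ) : cval (49 ^ m) = - ∑ i ∈ Finset.range m, newterm (i + 1) := by
  induction m with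
  | zero => simp [cval_one]
  | succ m ih => rw [cval_fortynine, ih, Finset.sum_range_succ]; ring

/-- the angle `arccos (1/7)` -/
noncomputable def phi0 : ℝ := arccos (1 / 7)

lemma cos_phi0 : cos phi0 = 1 / 7 := cos_arccos (by norm_num) (by norm_num)

lemma sin_phi0 : sin phi0 = 4 * √3 / 7 := by
  unfold phi0
  rw [sin_arccos]
  have h3 : √3 ^ 2 = (3 : ℝ) := Real.sq_sqrt (by norm_num)
  rw [show (1 : ℝ) - (1 / 7) ^ 2 = (4 * √3 / 7) ^ 2 by linear_combination (-16 / 49 : ℝ) * h3]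
  exact Real.sqrt_sq (by positivity)

lemma cos_sin_phi0 (m : ℕ) : cos (m * phi0) = (uv m).1 / 7 ^ m ∧
    sin (m * phi0) = - ((uv m).2 * √3 / 7 ^ m) := by
  induction m with
  | zero => simp [uv]
  | succ m ih =>
    obtain ⟨h1, h2⟩ := ih
    have hs3 : √3 * √3 = (3 : ℝ) := Real.mul_self_sqrt (by norm_num)
    have e : ((m + 1 : ℕ) : ℝ) * phi0 = m * phi0 + phi0 := by push_cast; ring
    constructor
    · rw [e, cos_add, h1, h2, cos_phi0, sin_phi0]
      simp only [uv]
      push_cast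
      field_simp
      linear_combination (28 * 7 ^ m * (uv m).2 : ℝ) * hs3
    · rw [e, sin_add, h1, h2, cos_phi0, sin_phi0]
      simp only [uv]
      push_cast
      field_simp
      ring

lemma irrational_phi0 : Irrational (phi0 / (2 * π)) := by
  rintro ⟨r, hr⟩
  have hpi : π ≠ 0 := pi_ne_zero
  have h1 : phi0 = ((2 * r : ℚ) : ℝ) * π := by
    push_cast
    rw [hr]; field_simp
  have h2 := niven ⟨2 * r, h1⟩ ⟨1 / 7, by rw [cos_phi0]; norm_num⟩
  rw [cos_phi0] at h2
  norm_num at h2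

lemma newterm_eq (m : ℕ) : newterm m = chi (cos (m * phi0)) := by
  rw [(cos_sin_phi0 m).1]
  have hn : ((uv m).1 : ℝ) ^ 2 + 3 * ((uv m).2 : ℝ) ^ 2 = 49 ^ m := by
    exact_mod_cast uv_norm m
  have h7 : ((7 : ℝ) ^ m) ^ 2 = 49 ^ m := by rw [← pow_mul, mul_comm, pow_mul]; norm_num
  have hpos : (0 : ℝ) < 7 ^ m := by positivity
  have hpos' : (0 : ℝ) < 49 ^ m := by positivity
  have c1 : (1 < 4 * (((uv m).1 : ℝ) / 7 ^ m) ^ 2 ∧ 4 * (((uv m).1 : ℝ) / 7 ^ m) ^ 2 < 3) ↔
      ((uv m).2.natAbs < (uv m).1.natAbs ∧ (uv m).1.natAbs < 3 * (uv m).2.natAbs) := by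
    have e1 : 4 * (((uv m).1 : ℝ) / 7 ^ m) ^ 2 = 4 * ((uv m).1 : ℝ) ^ 2 / 49 ^ m := by
      rw [div_pow, h7]; ring
    rw [e1, lt_div_iff₀ hpos', div_lt_iff₀ hpos', ← hn]
    have f1 : (1 * (((uv m).1 : ℝ) ^ 2 + 3 * ((uv m).2 : ℝ) ^ 2) < 4 * ((uv m).1 : ℝ) ^ 2) ↔
        (uv m).2.natAbs < (uv m).1.natAbs := by
      rw [Int.natAbs_lt_iff_sq_lt]
      have : ((uv m).2 ^ 2 < (uv m).1 ^ 2) ↔ (((uv m).2 : ℝ) ^ 2 < ((uv m).1 : ℝ) ^ 2) := by
        exact_mod_cast Iff.rfl
      rw [this]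
      constructor <;> intro h <;> linarith
    have f2 : (4 * ((uv m).1 : ℝ) ^ 2 < 3 * (((uv m).1 : ℝ) ^ 2 + 3 * ((uv m).2 : ℝ) ^ 2)) ↔
        (uv m).1.natAbs < 3 * (uv m).2.natAbs := by
      have g1 : 3 * (uv m).2.natAbs = (3 * (uv m).2).natAbs := by rw [Int.natAbs_mul]; rfl
      rw [g1, Int.natAbs_lt_iff_sq_lt]
      have : ((uv m).1 ^ 2 < (3 * (uv m).2) ^ 2) ↔
          (((uv m).1 : ℝ) ^ 2 < (3 * ((uv m).2 : ℝ)) ^ 2) := by
        exact_mod_cast Iff.rfl
      rw [this]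
      constructor <;> intro h <;> nlinarith
    rw [f1, f2]
  have c2 : (0 < ((uv m).1 : ℝ) / 7 ^ m) ↔ 0 < (uv m).1 := by
    rw [div_pos_iff_of_pos_right hpos]; exact_mod_cast Iff.rfl
  unfold newterm chi
  by_cases h : (uv m).2.natAbs < (uv m).1.natAbs ∧ (uv m).1.natAbs < 3 * (uv m).2.natAbs
  · rw [if_pos h, if_pos (c1.mpr h)]
    have h3 := uv_mod_three m
    by_cases h0 : 0 < (uv m).1
    · rw [if_pos (c2.mpr h0)]
      unfold chi3
      have : (uv m).1.natAbs % 3 = 1 := by omega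
      simp [this]
    · rw [if_neg (fun h' => h0 (c2.mp h'))]
      unfold chi3
      have : (uv m).1.natAbs % 3 = 2 := by omega
      simp [this]
  · rw [if_neg h, if_neg (fun h' => h (c1.mp h'))]

/-- The values `cval (49 ^ m)` are unbounded. -/
theorem cval_unbounded (M : ℤ) : ∃ m : ℕ, M < |cval (49 ^ m)| := by
  obtain ⟨m, hm⟩ := unbounded_sums irrational_phi0 M
  refine ⟨m, ?_⟩
  have h1 : cval (49 ^ m) = - ∑ i ∈ Finset.range m, chi (cos ((i + 1 : ℕ) * phi0)) := by
    rw [cval_pow]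
    congr 1
    exact Finset.sum_congr rfl fun i _ => newterm_eq (i + 1)
  rw [h1, abs_neg]
  have h2 : ((M : ℤ) : ℝ) < ((|∑ i ∈ Finset.range m, chi (cos ((i + 1 : ℕ) * phi0))| : ℤ) : ℝ) := by
    push_cast
    push_cast at hm
    exact hm
  exact_mod_cast h2

end Pool.Agent.Lib.MP_91ed4c_nt
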