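import Mathlib

namespace Pool.Agent.Lib.MP_91ed4c_nt

open PowerSeries Filter Topology
open scoped PowerSeries.WithPiTopology

/-- shorthand for the ring of integral power series -/
abbrev R := PowerSeries ℤ

lemma coeff_eq_zero_of_dvd {f : R} {n m : ℕ} (h : (X : R) ^ n ∣ f) (hm : m < n) :
    coeff m f = 0 := (PowerSeries.X_pow_dvd_iff.mp h) m hm

lemma summable_of_dvd {ι : Type*} {f : ι → R} {e : ι → ℕ}
    (he : ∀ d, {i | e i ≤ d}.Finite) (h : ∀ i, (X : R) ^ (e i) ∣ f i) : Summable f := by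
  rw [WithPiTopology.summable_iff_summable_coeff]
  intro d
  apply summable_of_hasFiniteSupport
  refine (he d).subset fun i hi => ?_
  by_contra hlt
  simp only [Set.mem_ofPred_eq, not_le] at hlt
  exact hi (coeff_eq_zero_of_dvd (h i) hlt)

lemma summable_nat {f : ℕ → R} (h : ∀ i, (X : R) ^ i ∣ f i) : Summable f :=
  summable_of_dvd (e := fun i => i) (fun d => (Set.finite_Iic d)) h

lemma summable_nat_nat {f : ℕ × ℕ → R} {e : ℕ × ℕ → ℕ} (h : ∀ i, (X : R) ^ (e i) ∣ f i)
    (h1 : ∀ p, p.1 ≤ e p + 1) (h2 : ∀ p, p.2 ≤ e p + 1) : Summable f := by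
  refine summable_of_dvd (e := e) (fun d => ?_) h
  refine ((Set.finite_Iic (d + 1)).prod (Set.finite_Iic (d + 1))).subset ?_
  rintro ⟨a, b⟩ hab
  simp only [Set.mem_ofPred_eq] at hab
  have h1' := h1 (a, b)
  have h2' := h2 (a, b)
  simp only at h1' h2'
  constructor <;> simp only [Set.mem_Iic] <;> omega

/-- A sequence with `X ^ n ∣ f n` tends to `0`. -/
lemma tendsto_zero_of_dvd {f : ℕ → R} (h : ∀ n, (X : R) ^ n ∣ f n) :
    Tendsto f atTop (𝓝 0) := by
  rw [WithPiTopology.tendsto_iff_coeff_tendsto]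
  intro d
  refine tendsto_const_nhds.congr' ?_
  filter_upwards [eventually_gt_atTop d] with n hn
  rw [coeff_eq_zero_of_dvd (h n) hn, map_zero]

/-- tsum of terms all divisible by `X ^ n` is divisible by `X ^ n`. -/
lemma dvd_tsum {ι : Type*} {f : ι → R} {n : ℕ} (h : ∀ i, (X : R) ^ n ∣ f i)
    (hs : Summable f) : (X : R) ^ n ∣ ∑' i, f i := by
  rw [PowerSeries.X_pow_dvd_iff]
  intro m hm
  have h1 := ((WithPiTopology.hasSum_iff_hasSum_coeff ℤ).mp hs.hasSum) m
  have h2 : (fun i => coeff m (f i)) = fun _ => 0 := by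
    funext i; exact coeff_eq_zero_of_dvd (h i) hm
  rw [h2] at h1
  exact (hasSum_zero.unique h1).symm

lemma hasSum_shift {f g : ℕ → R} {a : R} (h0 : f 0 = 0) (h : ∀ k, f (k + 1) = g k)
    (hg : HasSum g a) : HasSum f a := by
  have h1 : HasSum (fun k => f (k + 1)) a := by
    have : (fun k => f (k + 1)) = g := funext h
    rw [this]; exact hg
  have h2 := h1.zero_add
  rwa [h0, zero_add] at h2

section base

variable (Q : R)

/-- `(z; Q)_k` -/
noncomputable def poch (z : R) (k : ℕ) : R := ∏ j ∈ Finset.range k, (1 - z * Q ^ j)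

@[simp] lemma poch_zero (z : R) : poch Q z 0 = 1 := by simp [poch]

lemma poch_succ (z : R) (k : ℕ) : poch Q z (k + 1) = poch Q z k * (1 - z * Q ^ k) := by
  unfold poch; rw [Finset.prod_range_succ]

lemma poch_succ' (z : R) (k : ℕ) : poch Q z (k + 1) = (1 - z) * poch Q (z * Q) k := by
  unfold poch
  rw [Finset.prod_range_succ']
  simp only [pow_zero, mul_one]
  rw [mul_comm]
  congr 1
  refine Finset.prod_congr rfl fun j _ => ?_
  ring

lemma poch_add (z : R) (k l : ℕ) : poch Q z (k + l) = poch Q z k * poch Q (z * Q ^ k) l := by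
  unfold poch
  rw [Finset.prod_range_add]
  congr 1
  refine Finset.prod_congr rfl fun j _ => ?_
  ring

lemma isUnit_poch {z : R} (hz : (X : R) ∣ z) (k : ℕ) : IsUnit (poch Q z k) := by
  rw [PowerSeries.isUnit_iff_constantCoeff]
  unfold poch
  rw [map_prod]
  have : ∀ j ∈ Finset.range k, constantCoeff (1 - z * Q ^ j) = 1 := by
    intro j _
    have hz' : constantCoeff z = 0 := X_dvd_iff.mp hz
    simp [hz']
  rw [Finset.prod_congr rfl this]
  simp

/-- The inverse of `(Q; Q)_k` -/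
noncomputable def ip (k : ℕ) : R := Ring.inverse (poch Q Q k)

variable {Q} (hQ : (X : R) ∣ Q)
include hQ

lemma poch_mul_ip (k : ℕ) : poch Q Q k * ip Q k = 1 :=
  Ring.mul_inverse_cancel _ (isUnit_poch Q hQ k)

lemma ip_zero : ip Q 0 = 1 := by
  have := poch_mul_ip hQ 0
  simpa using this

lemma ip_eq (k : ℕ) : ip Q k = (1 - Q ^ (k + 1)) * ip Q (k + 1) := by
  have h1 := poch_mul_ip hQ k
  have h2 := poch_mul_ip hQ (k + 1)
  rw [poch_succ] at h2
  have h3 : poch Q Q k * (ip Q k) = poch Q Q k * ((1 - Q ^ (k + 1)) * ip Q (k + 1)) := by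
    exact h1.trans (h2.symm.trans (by ring))
  exact (isUnit_poch Q hQ k).mul_left_cancel h3

lemma X_pow_dvd (n : ℕ) : (X : R) ^ n ∣ Q ^ n := pow_dvd_pow_of_dvd hQ n

omit hQ in
lemma le_choose (k : ℕ) : k ≤ k.choose 2 + 1 := by
  induction k with
  | zero => omega
  | succ k ih =>
    rw [Nat.choose_succ_succ' k 1, Nat.choose_one_right]
    omega

/-- general term of the basic series `L(y, z) = ∑ (-1)^k Q^{k(k-1)/2} y^k (z;Q)_k / (Q;Q)_k` -/
noncomputable def Lterm (Q y z : R) (k : ℕ) : R :=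
  (-1) ^ k * Q ^ (k.choose 2) * y ^ k * poch Q z k * ip Q k

noncomputable def L (Q y z : R) : R := ∑' k, Lterm Q y z k

lemma X_dvd_Lterm (y z : R) (k : ℕ) : (X : R) ^ (k - 1) ∣ Lterm Q y z k := by
  unfold Lterm
  have h1 : (X : R) ^ (k - 1) ∣ Q ^ (k.choose 2) :=
    (pow_dvd_pow X (by have := le_choose k; omega)).trans (X_pow_dvd hQ _)
  have e : (-1) ^ k * Q ^ (k.choose 2) * y ^ k * poch Q z k * ip Q k =
    Q ^ (k.choose 2) * ((-1) ^ k * y ^ k * poch Q z k * ip Q k) := by ring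
  rw [e]
  exact h1.mul_right _

lemma summable_Lterm (y z : R) : Summable (Lterm Q y z) := by
  refine summable_of_dvd (e := fun k => k - 1) (fun d => ?_) (X_dvd_Lterm hQ y z)
  refine (Set.finite_Iic (d + 1)).subset fun k hk => ?_
  simp only [Set.mem_ofPred_eq] at hk
  simp only [Set.mem_Iic]
  omega

/-- First contiguous relation. -/
lemma L_rel (y z : R) :
    L Q (y * Q) z = L Q y (z * Q ^ 2) + (1 + z * Q) * y * L Q (y * Q) (z * Q ^ 2)
      + y ^ 2 * z * Q ^ 2 * L Q (y * Q ^ 2) (z * Q ^ 2) := by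
  set Z := z * Q ^ 2 with hZ
  have s0 : HasSum (Lterm Q y Z) (L Q y Z) := (summable_Lterm hQ y Z).hasSum
  have s1 : HasSum (Lterm Q (y * Q) Z) (L Q (y * Q) Z) := (summable_Lterm hQ (y * Q) Z).hasSum
  have s2 : HasSum (Lterm Q (y * Q ^ 2) Z) (L Q (y * Q ^ 2) Z) :=
    (summable_Lterm hQ (y * Q ^ 2) Z).hasSum
  -- shifted sequences
  let f1 : ℕ → R := fun k => match k with
    | 0 => 0
    | k + 1 => (1 + z * Q) * y * Lterm Q (y * Q) Z k
  let f2 : ℕ → R := fun k => match k with
    | 0 => 0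
    | 1 => 0
    | k + 2 => y ^ 2 * z * Q ^ 2 * Lterm Q (y * Q ^ 2) Z k
  have h1 : HasSum f1 ((1 + z * Q) * y * L Q (y * Q) Z) :=
    hasSum_shift rfl (fun k => rfl) (s1.mul_left ((1 + z * Q) * y))
  have h2 : HasSum f2 (y ^ 2 * z * Q ^ 2 * L Q (y * Q ^ 2) Z) :=
    hasSum_shift (g := fun k => f2 (k + 1)) rfl (fun k => rfl)
      (hasSum_shift rfl (fun k => rfl) (s2.mul_left (y ^ 2 * z * Q ^ 2)))
  have hsum := (s0.add h1).add h2
  have hterm : ∀ k, Lterm Q (y * Q) z k = Lterm Q y Z k + f1 k + f2 k := by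
    intro k
    match k with
    | 0 => simp [f1, f2, Lterm]
    | 1 =>
      simp only [f1, f2, Lterm, pow_zero, pow_one, Nat.choose_self, Nat.choose_zero_succ,
        poch_zero, poch_succ, ip_eq hQ 0, zero_add, mul_one, one_mul, add_zero]
      have : Nat.choose 1 2 = 0 := rfl
      rw [this]
      rw [hZ]
      ring
    | k + 2 =>
      simp only [f1, f2, Lterm]
      have c1 : (k + 2).choose 2 = k.choose 2 + 2 * k + 1 := by
        rw [show k + 2 = (k + 1) + 1 from rfl, Nat.choose_succ_succ' (k + 1) 1,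
          Nat.choose_one_right, Nat.choose_succ_succ' k 1, Nat.choose_one_right]; ring
      have c2 : (k + 1).choose 2 = k.choose 2 + k := by
        rw [Nat.choose_succ_succ' k 1, Nat.choose_one_right]; ring
      have p1 : poch Q z (k + 2) = (1 - z) * (1 - z * Q) * poch Q Z k := by
        rw [poch_succ', poch_succ', hZ]; ring_nf
      have p2 : poch Q Z (k + 2) = poch Q Z k * (1 - Z * Q ^ k) * (1 - Z * Q ^ (k + 1)) := by
        rw [poch_succ, poch_succ]
      have p3 : poch Q Z (k + 1) = poch Q Z k * (1 - Z * Q ^ k) := poch_succ _ _ _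
      have i1 : ip Q (k + 1) = (1 - Q ^ (k + 2)) * ip Q (k + 2) := ip_eq hQ (k + 1)
      have i0 : ip Q k = (1 - Q ^ (k + 1)) * ((1 - Q ^ (k + 2)) * ip Q (k + 2)) := by
        rw [ip_eq hQ k, i1]
      rw [c1, c2, p1, p2, p3, i0, i1, hZ]
      ring
  have hfin : HasSum (Lterm Q (y * Q) z) (L Q y Z + (1 + z * Q) * y * L Q (y * Q) Z +
      y ^ 2 * z * Q ^ 2 * L Q (y * Q ^ 2) Z) := by
    have : Lterm Q (y * Q) z = fun k => Lterm Q y Z k + f1 k + f2 k := funext hterm
    rw [this]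
    exact hsum
  exact hfin.tsum_eq

/-- Second relation. -/
lemma L_one (Z : R) : L Q 1 Z = Z * L Q (Q ^ 2) Z := by
  -- telescoping sequence
  let s : ℕ → R := fun k => match k with
    | 0 => 0
    | k + 1 => (-1) ^ k * Q ^ ((k + 1).choose 2) * poch Q Z (k + 1) * ip Q k
  have hs : Summable s := by
    refine summable_of_dvd (e := fun k => k - 1) (fun d => ?_) (fun k => ?_)
    · refine (Set.finite_Iic (d + 1)).subset fun k hk => ?_
      simp only [Set.mem_ofPred_eq] at hk
      simp only [Set.mem_Iic]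
      omega
    · match k with
      | 0 => simp [s]
      | k + 1 =>
        simp only [s]
        have h1 : (X : R) ^ (k + 1 - 1) ∣ Q ^ ((k + 1).choose 2) :=
          (pow_dvd_pow X (by have := le_choose (k + 1); omega)).trans (X_pow_dvd hQ _)
        have e : (-1) ^ k * Q ^ ((k + 1).choose 2) * poch Q Z (k + 1) * ip Q k =
          Q ^ ((k + 1).choose 2) * ((-1) ^ k * poch Q Z (k + 1) * ip Q k) := by ring
        rw [e]
        exact h1.mul_right _
  have hs1 : HasSum (fun k => s (k + 1)) (∑' k, s k) := by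
    have := (hasSum_nat_add_iff' 1).mpr hs.hasSum
    simpa [s] using this
  have hdiff : HasSum (fun k => s (k + 1) - s k) 0 := by
    simpa using hs1.sub hs.hasSum
  have h1 := (summable_Lterm hQ 1 Z).hasSum
  have h2 := ((summable_Lterm hQ (Q ^ 2) Z).hasSum).mul_left Z
  have hterm : ∀ k, s (k + 1) - s k = Lterm Q 1 Z k - Z * Lterm Q (Q ^ 2) Z k := by
    intro k
    match k with
    | 0 =>
      simp only [s, Lterm, pow_zero, poch_zero, poch_succ, ip_zero hQ, zero_add]
      have : Nat.choose 1 2 = 0 := rfl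
      have h02 : Nat.choose 0 2 = 0 := rfl
      rw [this, h02]
      ring
    | k + 1 =>
      simp only [s, Lterm]
      have c1 : (k + 1 + 1).choose 2 = (k + 1).choose 2 + (k + 1) := by
        rw [Nat.choose_succ_succ' (k + 1) 1, Nat.choose_one_right]; ring
      have i0 : ip Q k = (1 - Q ^ (k + 1)) * ip Q (k + 1) := ip_eq hQ k
      have p1 : poch Q Z (k + 1 + 1) = poch Q Z (k + 1) * (1 - Z * Q ^ (k + 1)) := poch_succ _ _ _
      rw [c1, i0, p1]
      ring
  have hfin := h1.sub h2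
  have heq : (fun k => s (k + 1) - s k) = fun k => Lterm Q 1 Z k - Z * Lterm Q (Q ^ 2) Z k :=
    funext hterm
  rw [heq] at hdiff
  exact sub_eq_zero.mp (hfin.unique hdiff)

/-- Euler-type relation `L(y,0) = (1 - y) L(yQ,0)`. -/
lemma L_zero (y : R) : L Q y 0 = (1 - y) * L Q (y * Q) 0 := by
  have s1 : HasSum (Lterm Q (y * Q) 0) (L Q (y * Q) 0) := (summable_Lterm hQ (y * Q) 0).hasSum
  let f1 : ℕ → R := fun k => match k with
    | 0 => 0
    | k + 1 => y * Lterm Q (y * Q) 0 k
  have h1 : HasSum f1 (y * L Q (y * Q) 0) :=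
    hasSum_shift rfl (fun k => rfl) (s1.mul_left y)
  have hsum := s1.sub h1
  have hterm : ∀ k, Lterm Q y 0 k = Lterm Q (y * Q) 0 k - f1 k := by
    intro k
    match k with
    | 0 => simp [f1, Lterm]
    | k + 1 =>
      simp only [f1, Lterm]
      have c2 : (k + 1).choose 2 = k.choose 2 + k := by
        rw [Nat.choose_succ_succ' k 1, Nat.choose_one_right]; ring
      have p : ∀ j, poch Q 0 j = 1 := by intro j; simp [poch]
      have i0 : ip Q k = (1 - Q ^ (k + 1)) * ip Q (k + 1) := ip_eq hQ k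
      rw [c2, p, p, i0]
      ring
  have hfin : HasSum (Lterm Q y 0) (L Q (y * Q) 0 - y * L Q (y * Q) 0) := by
    have : Lterm Q y 0 = fun k => Lterm Q (y * Q) 0 k - f1 k := funext hterm
    rw [this]; exact hsum
  rw [L, hfin.tsum_eq]
  ring

end base

end Pool.Agent.Lib.MP_91ed4c_nt
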