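import Mathlib
import Pool.Agent.Lib.MP_91ed4c_nt.QBase

namespace Pool.Agent.Lib.MP_91ed4c_nt

open PowerSeries Filter Topology
open scoped PowerSeries.WithPiTopology

/-- coefficients of the Laurent-type expansion -/
noncomputable def bb (Q : R) (m r : ℕ) : R :=
  Q ^ (r.choose 2 + m * r) * L Q (Q ^ (r + 1)) (Q ^ (2 * m + 1))

noncomputable def S (Q u : R) (m : ℕ) : R := ∑' r, (-u) ^ r * bb Q m r

noncomputable def W (Q u v : R) (m : ℕ) : R := S Q u m + S Q v m - bb Q m 0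

lemma hasSum_of_eq {ι : Type*} {f g : ι → R} {a b : R} (h : HasSum f a) (hfg : ∀ i, g i = f i)
    (hab : b = a) : HasSum g b := by
  have : g = f := funext hfg
  rw [this, hab]
  exact h

lemma hasSum_shift_add {f g : ℕ → R} {a : R} (h : ∀ k, f (k + 1) = g k)
    (hg : HasSum g a) : HasSum f (f 0 + a) := by
  have h1 : HasSum (fun k => f (k + 1)) a := hasSum_of_eq hg h rfl
  exact h1.zero_add

section
variable {Q : R} (hQ : (X : R) ∣ Q)
include hQ

lemma X_dvd_bb (m r : ℕ) : (X : R) ^ (r - 1) ∣ bb Q m r := by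
  unfold bb
  have h1 : (X : R) ^ (r - 1) ∣ Q ^ (r.choose 2 + m * r) :=
    (pow_dvd_pow X (by have := le_choose r; omega)).trans (X_pow_dvd hQ _)
  exact h1.mul_right _

lemma summable_S (u : R) (m : ℕ) : Summable (fun r => (-u) ^ r * bb Q m r) := by
  refine summable_of_dvd (e := fun k => k - 1) (fun d => ?_) (fun r => (X_dvd_bb hQ m r).mul_left _)
  refine (Set.finite_Iic (d + 1)).subset fun k hk => ?_
  simp only [Set.mem_ofPred_eq] at hk
  simp only [Set.mem_Iic]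
  omega

lemma bb_succ (m s : ℕ) : bb Q m (s + 1) = Q ^ m * bb Q (m + 1) s
    + (1 + Q ^ (2 * m + 2)) * bb Q (m + 1) (s + 1) + Q ^ (m + 2) * bb Q (m + 1) (s + 2) := by
  unfold bb
  have h := L_rel hQ (Q ^ (s + 1)) (Q ^ (2 * m + 1))
  have e1 : Q ^ (s + 1) * Q = Q ^ (s + 1 + 1) := by ring
  have e2 : Q ^ (2 * m + 1) * Q ^ 2 = Q ^ (2 * (m + 1) + 1) := by ring
  have e3 : Q ^ (s + 1) * Q ^ 2 = Q ^ (s + 2 + 1) := by ring
  rw [e1, e2, e3] at h
  rw [h]
  have c1 : (s + 1).choose 2 = s.choose 2 + s := by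
    rw [Nat.choose_succ_succ' s 1, Nat.choose_one_right]; ring
  have c2 : (s + 2).choose 2 = s.choose 2 + 2 * s + 1 := by
    rw [show s + 2 = (s + 1) + 1 from rfl, Nat.choose_succ_succ' (s + 1) 1,
      Nat.choose_one_right, c1]; ring
  rw [c1, c2]
  ring

lemma bb_zero (m : ℕ) : bb Q m 0 = Q ^ (m + 2) * bb Q (m + 1) 1
    + (1 + Q ^ (2 * m + 2)) * bb Q (m + 1) 0 + Q ^ (m + 2) * bb Q (m + 1) 1 := by
  unfold bb
  have h := L_rel hQ 1 (Q ^ (2 * m + 1))
  have e2 : Q ^ (2 * m + 1) * Q ^ 2 = Q ^ (2 * (m + 1) + 1) := by ring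
  rw [e2, L_one hQ] at h
  simp only [one_mul] at h
  have h0 : Nat.choose 0 2 = 0 := rfl
  have h1 : Nat.choose 1 2 = 0 := rfl
  simp only [h0, h1, mul_zero, add_zero, zero_add, pow_zero, one_mul, pow_one, mul_one]
  rw [h]
  ring

/-- recursion for the one-sided sums -/
lemma S_succ {u v : R} (huv : u * v = Q ^ 2) (m : ℕ) :
    S Q u m = (1 - u * Q ^ m) * (1 - v * Q ^ m) * S Q u (m + 1)
      + Q ^ m * v * bb Q (m + 1) 0 + Q ^ (m + 2) * bb Q (m + 1) 1 := by
  have h' : HasSum (fun r => (-u) ^ r * bb Q (m + 1) r) (S Q u (m + 1)) :=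
    (summable_S hQ u (m + 1)).hasSum
  have hs := summable_S hQ u m
  -- shifted sum
  have h1 : HasSum (fun r => (-u) ^ (r + 1) * bb Q (m + 1) (r + 1))
      (S Q u (m + 1) - bb Q (m + 1) 0) := by
    have := (hasSum_nat_add_iff' 1).mpr h'
    simpa using this
  have h2 : HasSum (fun r => (-u) ^ (r + 1) * (Q ^ m * v) * bb Q (m + 1) (r + 1 + 1) * (-u))
      ((Q ^ m * v) * (S Q u (m + 1) - bb Q (m + 1) 0 + u * bb Q (m + 1) 1)) := by
    have h3 := (hasSum_nat_add_iff' 1).mpr h1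
    have h4 := h3.mul_left (Q ^ m * v)
    refine hasSum_of_eq h4 (fun r => by ring) ?_
    rw [Finset.sum_range_one]
    ring
  have e : Q ^ (m + 2) = Q ^ m * (u * v) := by rw [huv]; ring
  have h5 : HasSum (fun s => (-u) ^ (s + 1) * bb Q m (s + 1))
      (Q ^ m * (-u) * S Q u (m + 1)
        + (1 + Q ^ (2 * m + 2)) * (S Q u (m + 1) - bb Q (m + 1) 0)
        - ((Q ^ m * v) * (S Q u (m + 1) - bb Q (m + 1) 0 + u * bb Q (m + 1) 1))) := by
    have h6 := ((h'.mul_left (Q ^ m * (-u))).add (h1.mul_left (1 + Q ^ (2 * m + 2)))).sub h2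
    refine hasSum_of_eq h6 (fun s => ?_) rfl
    rw [bb_succ hQ, e]
    ring
  have h7 : HasSum (fun r => (-u) ^ r * bb Q m r) (bb Q m 0 + (Q ^ m * (-u) * S Q u (m + 1)
        + (1 + Q ^ (2 * m + 2)) * (S Q u (m + 1) - bb Q (m + 1) 0)
        - ((Q ^ m * v) * (S Q u (m + 1) - bb Q (m + 1) 0 + u * bb Q (m + 1) 1)))) := by
    have h8 := hasSum_shift_add (f := fun r => (-u) ^ r * bb Q m r) (fun k => rfl) h5
    refine hasSum_of_eq h8 (fun s => rfl) ?_
    rw [pow_zero, one_mul]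
  rw [S, h7.tsum_eq, bb_zero hQ, e]
  have e2 : Q ^ (2 * m + 2) = (Q ^ m * u) * (Q ^ m * v) := by
    rw [show (Q ^ m * u) * (Q ^ m * v) = Q ^ m * Q ^ m * (u * v) by ring, huv]; ring
  rw [e2]
  ring

/-- recursion for `W` -/
lemma W_succ {u v : R} (huv : u * v = Q ^ 2) (m : ℕ) :
    W Q u v m = (1 - u * Q ^ m) * (1 - v * Q ^ m) * W Q u v (m + 1) := by
  unfold W
  rw [S_succ hQ huv, S_succ hQ (show v * u = Q ^ 2 by rw [mul_comm]; exact huv), bb_zero hQ m]
  have e2 : Q ^ (2 * m + 2) = (Q ^ m * u) * (Q ^ m * v) := by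
    rw [show (Q ^ m * u) * (Q ^ m * v) = Q ^ m * Q ^ m * (u * v) by ring, huv]; ring
  rw [e2]
  ring

lemma W_zero_eq {u v : R} (huv : u * v = Q ^ 2) (m : ℕ) :
    W Q u v 0 = (∏ j ∈ Finset.range m, ((1 - u * Q ^ j) * (1 - v * Q ^ j))) * W Q u v m := by
  induction m with
  | zero => simp
  | succ m ih =>
    rw [ih, W_succ hQ huv m, Finset.prod_range_succ]
    ring

/-! ### q-Chu-Vandermonde -/

/-- The finite sum in the Chu-Vandermonde identity. -/
noncomputable def hh (Q b : R) (N : ℕ) : R :=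
  ∑ p ∈ Finset.HasAntidiagonal.antidiagonal N,
    (-1) ^ p.1 * Q ^ (p.1.choose 2) * ip Q p.1 * ip Q p.2 * poch Q b p.2

lemma hh_succ (b : R) (N : ℕ) :
    (1 - Q ^ (N + 1)) * hh Q b (N + 1) = -b * Q ^ N * hh Q b N := by
  unfold hh
  have split : (1 - Q ^ (N + 1)) * ∑ p ∈ Finset.HasAntidiagonal.antidiagonal (N + 1),
      (-1) ^ p.1 * Q ^ (p.1.choose 2) * ip Q p.1 * ip Q p.2 * poch Q b p.2 =
      ∑ p ∈ Finset.HasAntidiagonal.antidiagonal (N + 1),
        (-1) ^ p.1 * Q ^ (p.1.choose 2) * ((1 - Q ^ p.1) * ip Q p.1) * ip Q p.2 * poch Q b p.2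
      + ∑ p ∈ Finset.HasAntidiagonal.antidiagonal (N + 1),
        (-1) ^ p.1 * Q ^ (p.1.choose 2) * Q ^ p.1 * ip Q p.1 * ((1 - Q ^ p.2) * ip Q p.2)
          * poch Q b p.2 := by
    rw [← Finset.sum_add_distrib, Finset.mul_sum]
    refine Finset.sum_congr rfl fun p hp => ?_
    rw [← Finset.HasAntidiagonal.mem_antidiagonal.mp hp]
    ring
  rw [split, Finset.Nat.sum_antidiagonal_succ, Finset.Nat.sum_antidiagonal_succ',
    ← add_assoc, add_assoc (_ + _)]
  simp only [pow_zero, sub_self, zero_mul, mul_zero, zero_add]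
  rw [← Finset.sum_add_distrib, Finset.mul_sum]
  refine Finset.sum_congr rfl fun p hp => ?_
  have c1 : (p.1 + 1).choose 2 = p.1.choose 2 + p.1 := by
    rw [Nat.choose_succ_succ' p.1 1, Nat.choose_one_right]; ring
  rw [← ip_eq hQ p.1, ← ip_eq hQ p.2, c1, poch_succ, ← Finset.HasAntidiagonal.mem_antidiagonal.mp hp]
  ring

lemma hh_eq (b : R) (N : ℕ) :
    poch Q Q N * hh Q b N = (-1) ^ N * Q ^ (N.choose 2) * b ^ N := by
  induction N with
  | zero =>
    simp [hh, ip_zero hQ]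
  | succ N ih =>
    have h := hh_succ hQ b N
    have c1 : (N + 1).choose 2 = N.choose 2 + N := by
      rw [Nat.choose_succ_succ' N 1, Nat.choose_one_right]; ring
    rw [poch_succ, c1]
    have e : Q * Q ^ N = Q ^ (N + 1) := by ring
    rw [e, mul_assoc, h]
    calc poch Q Q N * (-b * Q ^ N * hh Q b N) = -b * Q ^ N * (poch Q Q N * hh Q b N) := by ring
      _ = _ := by rw [ih]; ring

end

end Pool.Agent.Lib.MP_91ed4c_nt
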