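import Mathlib
import Pool.Agent.Lib.MP_91ed4c_nt.WLem

namespace Pool.Agent.Lib.MP_91ed4c_nt

open PowerSeries Filter Topology
open scoped PowerSeries.WithPiTopology

lemma hasSum_antidiagonal {F : ℕ × ℕ → R} {a : R} (h : HasSum F a) :
    HasSum (fun N => ∑ p ∈ Finset.HasAntidiagonal.antidiagonal N, F p) a := by
  have h1 := (Finset.HasAntidiagonal.sigmaAntidiagonalEquivProd (A := ℕ)).hasSum_iff.mpr h
  refine h1.sigma fun N => ?_
  have h2 := hasSum_fintype (fun c : (Finset.HasAntidiagonal.antidiagonal N) => F (c : ℕ × ℕ))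
  rw [Finset.sum_coe_sort (Finset.HasAntidiagonal.antidiagonal N) F] at h2
  exact h2

noncomputable def alpha (Q : R) (m : ℕ) : R := Q ^ m * poch Q Q (2 * m) * ip Q m

noncomputable def theta3 (Q y : R) : R :=
  ∑' N : ℕ, (-1) ^ N * y ^ N * Q ^ (N + N.choose 2 + N * (N + 1))

section
variable {Q : R} (hQ : (X : R) ∣ Q)
include hQ

lemma X_dvd_alpha (m : ℕ) : (X : R) ^ m ∣ alpha Q m := by
  unfold alpha
  rw [mul_assoc]
  exact (X_pow_dvd hQ m).mul_right _

/-- double family for the Chu-Vandermonde summation -/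
noncomputable def FF (Q y : R) (p : ℕ × ℕ) : R :=
  alpha Q p.1 * y ^ p.1 * Lterm Q (y * Q) (Q ^ (2 * p.1 + 1)) p.2

lemma summable_FF (y : R) : Summable (FF Q y) := by
  refine summable_nat_nat (e := fun p => p.1 + p.2) (fun p => ?_) (fun p => by omega)
    (fun p => by omega)
  unfold FF Lterm
  have h1 := X_dvd_alpha hQ p.1
  have h2 := X_pow_dvd hQ p.2
  have e : alpha Q p.1 * y ^ p.1 * ((-1) ^ p.2 * Q ^ (p.2.choose 2) * (y * Q) ^ p.2 *
      poch Q (Q ^ (2 * p.1 + 1)) p.2 * ip Q p.2) =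
      (alpha Q p.1 * Q ^ p.2) * (y ^ p.1 * (-1) ^ p.2 * Q ^ (p.2.choose 2) * y ^ p.2 *
      poch Q (Q ^ (2 * p.1 + 1)) p.2 * ip Q p.2) := by ring
  rw [e]
  rw [pow_add]
  exact (mul_dvd_mul h1 h2).mul_right _

lemma FF_antidiagonal (y : R) (N : ℕ) :
    ∑ p ∈ Finset.HasAntidiagonal.antidiagonal N, FF Q y p =
      (-1) ^ N * y ^ N * Q ^ (N + N.choose 2 + N * (N + 1)) := by
  have h1 : ∑ p ∈ Finset.HasAntidiagonal.antidiagonal N, FF Q y p =
      y ^ N * Q ^ N * (poch Q Q N * hh Q (Q ^ (N + 1)) N) := by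
    unfold hh
    rw [Finset.mul_sum, Finset.mul_sum, ← Finset.Nat.sum_antidiagonal_swap]
    refine Finset.sum_congr rfl fun p hp => ?_
    have hN : p.1 + p.2 = N := Finset.HasAntidiagonal.mem_antidiagonal.mp hp
    simp only [FF, Lterm, alpha, Prod.fst_swap, Prod.snd_swap]
    have p1 : poch Q Q (2 * p.2) * poch Q (Q ^ (2 * p.2 + 1)) p.1 =
        poch Q Q N * poch Q (Q ^ (N + 1)) p.2 := by
      have e1 : poch Q Q (2 * p.2 + p.1) = poch Q Q (2 * p.2) * poch Q (Q * Q ^ (2 * p.2)) p.1 :=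
        poch_add _ _ _ _
      have e2 : poch Q Q (N + p.2) = poch Q Q N * poch Q (Q * Q ^ N) p.2 := poch_add _ _ _ _
      have e3 : 2 * p.2 + p.1 = N + p.2 := by omega
      rw [e3] at e1
      rw [show Q ^ (2 * p.2 + 1) = Q * Q ^ (2 * p.2) by ring,
        show Q ^ (N + 1) = Q * Q ^ N by ring, ← e1, ← e2]
    have e4 : y ^ N * Q ^ N = y ^ p.1 * y ^ p.2 * (Q ^ p.1 * Q ^ p.2) := by
      rw [← hN]; ring
    calc Q ^ p.2 * poch Q Q (2 * p.2) * ip Q p.2 * y ^ p.2 *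
          ((-1) ^ p.1 * Q ^ (p.1.choose 2) * (y * Q) ^ p.1 * poch Q (Q ^ (2 * p.2 + 1)) p.1 *
            ip Q p.1)
        = (y ^ p.1 * y ^ p.2 * (Q ^ p.1 * Q ^ p.2)) *
          (poch Q Q (2 * p.2) * poch Q (Q ^ (2 * p.2 + 1)) p.1) *
          ((-1) ^ p.1 * Q ^ (p.1.choose 2) * ip Q p.1 * ip Q p.2) := by ring
      _ = _ := by rw [p1, ← e4]; ring
  rw [h1, hh_eq hQ]
  rw [← pow_mul]
  ring

lemma H_eq (y : R) :
    HasSum (fun m => alpha Q m * y ^ m * L Q (y * Q) (Q ^ (2 * m + 1))) (theta3 Q y) := by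
  have hF := (summable_FF hQ y).hasSum
  have h1 : HasSum (fun m => alpha Q m * y ^ m * L Q (y * Q) (Q ^ (2 * m + 1)))
      (∑' p, FF Q y p) := by
    refine hF.prod_fiberwise fun m => ?_
    have h2 : HasSum (Lterm Q (y * Q) (Q ^ (2 * m + 1))) (L Q (y * Q) (Q ^ (2 * m + 1))) :=
      (summable_Lterm hQ _ _).hasSum
    exact h2.mul_left (alpha Q m * y ^ m)
  have h3 := hasSum_antidiagonal hF
  have h4 : (∑' p, FF Q y p) = theta3 Q y := by
    rw [← h3.tsum_eq, theta3]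
    exact tsum_congr fun N => FF_antidiagonal hQ y N
  rw [← h4]
  exact h1

/-- summation of `alpha m * S u m` -/
lemma sum_alpha_S (u : R) :
    HasSum (fun m => alpha Q m * S Q u m) (∑' r, (-u) ^ r * Q ^ (r.choose 2) * theta3 Q (Q ^ r)) := by
  -- the double family
  set F : ℕ × ℕ → R := fun p => alpha Q p.1 * ((-u) ^ p.2 * bb Q p.1 p.2) with hF
  have hsum : Summable F := by
    refine summable_nat_nat (e := fun p => p.1 + (p.2 - 1)) (fun p => ?_)
      (fun p => by omega) (fun p => by omega)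
    simp only [hF]
    rw [pow_add]
    exact mul_dvd_mul (X_dvd_alpha hQ p.1) ((X_dvd_bb hQ p.1 p.2).mul_left _)
  have h1 : HasSum (fun m => alpha Q m * S Q u m) (∑' p, F p) := by
    refine hsum.hasSum.prod_fiberwise fun m => ?_
    have h2 : HasSum (fun r => (-u) ^ r * bb Q m r) (S Q u m) := (summable_S hQ u m).hasSum
    exact h2.mul_left (alpha Q m)
  have hsum' : Summable (F ∘ (Equiv.prodComm ℕ ℕ)) := (Equiv.prodComm ℕ ℕ).summable_iff.mpr hsum
  have h3 : HasSum (fun r => (-u) ^ r * Q ^ (r.choose 2) * theta3 Q (Q ^ r))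
      (∑' p, (F ∘ (Equiv.prodComm ℕ ℕ)) p) := by
    refine hsum'.hasSum.prod_fiberwise fun r => ?_
    have h4 := (H_eq hQ (Q ^ r)).mul_left ((-u) ^ r * Q ^ (r.choose 2))
    refine hasSum_of_eq h4 (fun m => ?_) rfl
    simp only [Function.comp_apply, Equiv.prodComm_apply, Prod.swap_prod_mk, hF, bb]
    ring_nf
  have h5 : ∑' p, (F ∘ (Equiv.prodComm ℕ ℕ)) p = ∑' p, F p := Equiv.tsum_eq (Equiv.prodComm ℕ ℕ) F
  rw [h3.tsum_eq, h5]
  exact h1

/-- summation of `alpha m * W m` -/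
lemma sum_alpha_W (u v : R) :
    HasSum (fun m => alpha Q m * W Q u v m)
      (∑' r, (-u) ^ r * Q ^ (r.choose 2) * theta3 Q (Q ^ r)
        + ∑' r, (-v) ^ r * Q ^ (r.choose 2) * theta3 Q (Q ^ r) - theta3 Q 1) := by
  have h1 := sum_alpha_S hQ u
  have h2 := sum_alpha_S hQ v
  have h3 := H_eq hQ 1
  refine hasSum_of_eq ((h1.add h2).sub h3) (fun m => ?_) rfl
  unfold W bb
  simp only [mul_zero, Nat.choose_zero_succ, one_pow, mul_one, one_mul, zero_add, pow_one,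
    add_zero, pow_zero]
  ring

end

end Pool.Agent.Lib.MP_91ed4c_nt
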