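import Mathlib
import Pool.Agent.Lib.MP_91ed4c_nt.Main1

namespace Pool.Agent.Lib.MP_91ed4c_nt

open PowerSeries Filter Topology
open scoped PowerSeries.WithPiTopology

/-- convergence from divisibility of the difference -/
lemma tendsto_of_dvd_sub {f : ℕ → R} {a : R} (h : ∀ n, (X : R) ^ n ∣ f n - a) :
    Tendsto f atTop (𝓝 a) := by
  have h1 := tendsto_zero_of_dvd h
  have h2 := h1.add_const a
  simpa using h2

section
variable {Q : R} (hQ : (X : R) ∣ Q)
include hQ

omit hQ in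
lemma dvd_poch_sub_one {z : R} {n : ℕ} (hz : (X : R) ^ n ∣ z) (k : ℕ) :
    (X : R) ^ n ∣ poch Q z k - 1 := by
  induction k with
  | zero => simp
  | succ k ih =>
    rw [poch_succ]
    have : poch Q z k * (1 - z * Q ^ k) - 1 = (poch Q z k - 1) - poch Q z k * Q ^ k * z := by ring
    rw [this]
    exact dvd_sub ih (hz.mul_left _)

lemma dvd_L_sub {y z : R} {n : ℕ} (hz : (X : R) ^ n ∣ z) :
    (X : R) ^ n ∣ L Q y z - L Q y 0 := by
  have h1 : HasSum (Lterm Q y z) (L Q y z) := (summable_Lterm hQ y z).hasSum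
  have h2 : HasSum (Lterm Q y 0) (L Q y 0) := (summable_Lterm hQ y 0).hasSum
  have h3 := h1.sub h2
  rw [← h3.tsum_eq]
  refine dvd_tsum (fun k => ?_) h3.summable
  unfold Lterm
  have p0 : poch Q 0 k = 1 := by simp [poch]
  rw [p0]
  have : (-1) ^ k * Q ^ (k.choose 2) * y ^ k * poch Q z k * ip Q k -
      (-1) ^ k * Q ^ (k.choose 2) * y ^ k * 1 * ip Q k =
      ((-1) ^ k * Q ^ (k.choose 2) * y ^ k * ip Q k) * (poch Q z k - 1) := by ring
  rw [this]
  exact (dvd_poch_sub_one hz k).mul_left _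

lemma dvd_L_sub_one {y : R} {n : ℕ} (hy : (X : R) ^ n ∣ y) :
    (X : R) ^ n ∣ L Q y 0 - 1 := by
  have h2 : HasSum (Lterm Q y 0) (L Q y 0) := (summable_Lterm hQ y 0).hasSum
  have h3 := (hasSum_nat_add_iff' 1).mpr h2
  have h4 : Lterm Q y 0 0 = 1 := by simp [Lterm, ip_zero hQ]
  rw [Finset.sum_range_one, h4] at h3
  rw [← h3.tsum_eq]
  refine dvd_tsum (fun k => ?_) h3.summable
  unfold Lterm
  have : (-1) ^ (k + 1) * Q ^ ((k + 1).choose 2) * y ^ (k + 1) * poch Q 0 (k + 1) * ip Q (k + 1) =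
      ((-1) ^ (k + 1) * Q ^ ((k + 1).choose 2) * y ^ k * poch Q 0 (k + 1) * ip Q (k + 1)) * y := by
    ring
  rw [this]
  exact hy.mul_left _

/-- The Euler product `(Q; Q)_∞`, as the series `L(Q, 0)`. -/
noncomputable def EE (Q : R) : R := L Q Q 0

lemma EE_eq_prod (n : ℕ) : EE Q = poch Q Q n * L Q (Q ^ (n + 1)) 0 := by
  unfold EE
  induction n with
  | zero => simp
  | succ n ih =>
    rw [ih, L_zero hQ (Q ^ (n + 1)), poch_succ]
    have e : Q ^ (n + 1) * Q = Q ^ (n + 1 + 1) := by ring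
    rw [e]
    ring

lemma tendsto_poch : Tendsto (fun n => poch Q Q n) atTop (𝓝 (EE Q)) := by
  refine tendsto_of_dvd_sub fun n => ?_
  rw [EE_eq_prod hQ n]
  have : poch Q Q n - poch Q Q n * L Q (Q ^ (n + 1)) 0 =
      - (poch Q Q n * (L Q (Q ^ (n + 1)) 0 - 1)) := by ring
  rw [this]
  refine (Dvd.dvd.mul_left ?_ _).neg_right
  exact dvd_L_sub_one hQ ((pow_dvd_pow X (by omega)).trans (X_pow_dvd hQ (n + 1)))

lemma dvd_S_sub (u : R) (m : ℕ) : (X : R) ^ m ∣ S Q u m - bb Q m 0 := by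
  have h2 : HasSum (fun r => (-u) ^ r * bb Q m r) (S Q u m) := (summable_S hQ u m).hasSum
  have h3 := (hasSum_nat_add_iff' 1).mpr h2
  rw [Finset.sum_range_one, pow_zero, one_mul] at h3
  rw [← h3.tsum_eq]
  refine dvd_tsum (fun r => ?_) h3.summable
  unfold bb
  have h4 : (X : R) ^ m ∣ Q ^ ((r + 1).choose 2 + m * (r + 1)) := by
    refine (pow_dvd_pow X ?_).trans (X_pow_dvd hQ _)
    nlinarith [Nat.zero_le ((r + 1).choose 2), Nat.zero_le (m * r)]
  exact (h4.mul_right _).mul_left _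

lemma tendsto_W (u v : R) : Tendsto (fun m => W Q u v m) atTop (𝓝 (EE Q)) := by
  refine tendsto_of_dvd_sub fun m => ?_
  unfold W EE
  have h1 := dvd_S_sub hQ u m
  have h2 := dvd_S_sub hQ v m
  have h3 : (X : R) ^ m ∣ bb Q m 0 - L Q Q 0 := by
    unfold bb
    have hz : (X : R) ^ m ∣ Q ^ (2 * m + 1) := (pow_dvd_pow X (by omega)).trans (X_pow_dvd hQ _)
    have h0 : Nat.choose 0 2 = 0 := rfl
    simp only [h0, mul_zero, add_zero, pow_zero, one_mul, zero_add, pow_one]
    exact dvd_L_sub hQ hz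
  have e : S Q u m + S Q v m - bb Q m 0 - L Q Q 0 =
      (S Q u m - bb Q m 0) + (S Q v m - bb Q m 0) + (bb Q m 0 - L Q Q 0) := by ring
  rw [e]
  exact dvd_add (dvd_add h1 h2) h3

/-- explicit form of `S u 0` -/
lemma S_zero (u : R) : HasSum (fun N : ℕ => (-1) ^ N * Q ^ (N.choose 2) *
    ∑ p ∈ Finset.HasAntidiagonal.antidiagonal N, u ^ p.1 * Q ^ p.2) (S Q u 0) := by
  -- double family
  set F : ℕ × ℕ → R := fun p => (-u) ^ p.1 * Q ^ (p.1.choose 2) *
    ((-1) ^ p.2 * Q ^ (p.2.choose 2) * (Q ^ (p.1 + 1)) ^ p.2) with hF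
  have hsum : Summable F := by
    refine summable_nat_nat (e := fun p => (p.1 - 1) + p.2) (fun p => ?_)
      (fun p => by omega) (fun p => by omega)
    simp only [hF]
    have h1 : (X : R) ^ (p.1 - 1) ∣ Q ^ (p.1.choose 2) :=
      (pow_dvd_pow X (by have := le_choose p.1; omega)).trans (X_pow_dvd hQ _)
    have h2 : (X : R) ^ p.2 ∣ (Q ^ (p.1 + 1)) ^ p.2 := by
      rw [← pow_mul]
      refine (pow_dvd_pow X ?_).trans (X_pow_dvd hQ _)
      nlinarith [Nat.zero_le (p.1 * p.2)]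
    rw [pow_add]
    exact mul_dvd_mul (h1.mul_left _) (h2.mul_left _)
  have h1 : HasSum (fun r => (-u) ^ r * bb Q 0 r) (∑' p, F p) := by
    refine hsum.hasSum.prod_fiberwise fun r => ?_
    have h2 : HasSum (Lterm Q (Q ^ (r + 1)) Q) (L Q (Q ^ (r + 1)) Q) :=
      (summable_Lterm hQ _ _).hasSum
    have h3 := h2.mul_left ((-u) ^ r * Q ^ (r.choose 2))
    refine hasSum_of_eq h3 (fun k => ?_) ?_
    · simp only [hF, Lterm]
      have := poch_mul_ip hQ k
      calc (-u) ^ r * Q ^ r.choose 2 * ((-1) ^ k * Q ^ k.choose 2 * (Q ^ (r + 1)) ^ k)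
          = (-u) ^ r * Q ^ r.choose 2 * ((-1) ^ k * Q ^ k.choose 2 * (Q ^ (r + 1)) ^ k) *
            (poch Q Q k * ip Q k) := by rw [this, mul_one]
        _ = _ := by ring
    · unfold bb
      simp only [zero_mul, mul_zero, add_zero, zero_add, pow_one]
      ring
  have h2 : S Q u 0 = ∑' p, F p := h1.tsum_eq
  rw [h2]
  refine hasSum_of_eq (hasSum_antidiagonal hsum.hasSum) (fun N => ?_) rfl
  rw [Finset.mul_sum]
  refine Finset.sum_congr rfl fun p hp => ?_
  have hN : p.1 + p.2 = N := Finset.HasAntidiagonal.mem_antidiagonal.mp hp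
  have hc : N.choose 2 = p.1.choose 2 + p.2.choose 2 + p.1 * p.2 := by
    rw [← hN]
    have h : ∀ a b : ℕ, (a + b).choose 2 = a.choose 2 + b.choose 2 + a * b := by
      intro a b
      induction b with
      | zero => simp
      | succ b ih =>
        rw [← add_assoc, Nat.choose_succ_succ' (a + b) 1, Nat.choose_one_right,
          Nat.choose_succ_succ' b 1, Nat.choose_one_right, ih]
        ring
    exact h _ _
  simp only [hF]
  rw [hc, ← hN]
  have : (-u) ^ p.1 = (-1) ^ p.1 * u ^ p.1 := by rw [neg_pow]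
  rw [this]
  ring

end

lemma X_dvd_X : (X : R) ∣ X := dvd_rfl

lemma X_dvd_X2 : (X : R) ∣ X ^ 2 := dvd_pow_self X two_ne_zero

/-- The Euler function as Mathlib's pentagonal series. -/
lemma EE_X : EE (X : R) = pentagonalSeries ℤ := by
  have h1 := tendsto_poch X_dvd_X
  have h2 := (WithPiTopology.hasProd_one_sub_X_pow ℤ).tendsto_prod_nat
  have h3 : (fun n => poch (X : R) X n) = fun n => ∏ i ∈ Finset.range n, (1 - X ^ (i + 1)) := by
    funext n
    unfold poch
    refine Finset.prod_congr rfl fun j _ => ?_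
    ring
  rw [h3] at h1
  exact tendsto_nhds_unique h1 h2

lemma continuous_expand : Continuous (PowerSeries.expand 2 two_ne_zero : R →ₐ[ℤ] R) := by
  rw [continuous_iff_continuousAt]
  intro f
  unfold ContinuousAt
  rw [WithPiTopology.tendsto_iff_coeff_tendsto]
  intro d
  simp only [coeff_expand]
  split_ifs with h
  · exact (WithPiTopology.continuous_coeff ℤ (d / 2)).continuousAt
  · exact tendsto_const_nhds

lemma EE_X2 : EE ((X : R) ^ 2) = PowerSeries.expand 2 two_ne_zero (pentagonalSeries ℤ) := by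
  have h1 := tendsto_poch X_dvd_X2
  have h2 := (continuous_expand.tendsto (EE X)).comp (tendsto_poch X_dvd_X)
  have h3 : (fun n => poch ((X : R) ^ 2) (X ^ 2) n) =
      (PowerSeries.expand 2 two_ne_zero : R →ₐ[ℤ] R) ∘ fun n => poch (X : R) X n := by
    funext n
    unfold poch
    rw [Function.comp_apply, map_prod]
    refine Finset.prod_congr rfl fun j _ => ?_
    simp [expand_X]
  rw [h3] at h1
  rw [EE_X] at h2
  exact tendsto_nhds_unique h1 h2

lemma hasSum_EE_X2 : HasSum (fun k : ℤ => (Int.negOnePow k : R) * X ^ (2 * pentagonal k))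
    (EE ((X : R) ^ 2)) := by
  have h1 := WithPiTopology.hasSum_pentagonalSeries ℤ
  have h2 := h1.map (PowerSeries.expand 2 two_ne_zero : R →ₐ[ℤ] R) continuous_expand
  rw [← EE_X2] at h2
  refine hasSum_of_eq h2 (fun k => ?_) rfl
  simp only [Function.comp_apply, map_mul, map_pow, expand_X]
  rw [← pow_mul]
  congr 1
  rcases Int.even_or_odd k with h | h
  · simp [Int.negOnePow_even k h]
  · simp [Int.negOnePow_odd k h]

end Pool.Agent.Lib.MP_91ed4c_nt
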