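import Mathlib
import Pool.Agent.Lib.MP_91ed4c_nt.Limits

namespace Pool.Agent.Lib.MP_91ed4c_nt

open PowerSeries Filter Topology
open scoped PowerSeries.WithPiTopology

/-- `φ(-q)` -/
noncomputable def D1 : R := (1 - X) * W (X ^ 2) (X ^ 3) X 0

/-- `ψ(q)` -/
noncomputable def Psi : R := W X (-X) (-X) 0

/-- the `m`-th summand of `T_o` -/
noncomputable def Tterm (m : ℕ) : R :=
  X ^ (2 * m) * (∏ j ∈ Finset.range (2 * m), (1 + X ^ (j + 1))) *
    PowerSeries.invOfUnit (∏ j ∈ Finset.range (m + 1), (1 - X ^ (2 * j + 1))) 1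

lemma odd_prod_mul_inv (m : ℕ) : (∏ j ∈ Finset.range m, (1 - (X : R) ^ (2 * j + 1))) *
    PowerSeries.invOfUnit (∏ j ∈ Finset.range m, (1 - (X : R) ^ (2 * j + 1))) 1 = 1 := by
  apply PowerSeries.mul_invOfUnit
  rw [map_prod]
  have : ∀ j ∈ Finset.range m, constantCoeff (1 - (X : R) ^ (2 * j + 1)) = 1 := by
    intro j _
    simp
  rw [Finset.prod_congr rfl this]
  simp

/-- `A_m N_m (Q;Q)_m = (Q;Q)_{2m}` -/
lemma prod_identity (m : ℕ) :
    (∏ j ∈ Finset.range (2 * m), (1 + (X : R) ^ (j + 1))) *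
      (∏ j ∈ Finset.range m, (1 - (X : R) ^ (2 * j + 1))) * poch (X ^ 2) (X ^ 2) m =
      poch (X ^ 2) (X ^ 2) (2 * m) := by
  unfold poch
  induction m with
  | zero => simp
  | succ m ih =>
    rw [show 2 * (m + 1) = 2 * m + 1 + 1 by ring, Finset.prod_range_succ _ (2 * m + 1),
      Finset.prod_range_succ _ (2 * m), Finset.prod_range_succ _ m, Finset.prod_range_succ _ m,
      Finset.prod_range_succ _ (2 * m + 1), Finset.prod_range_succ _ (2 * m), ← ih]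
    ring

lemma D1_eq (m : ℕ) : D1 = (∏ j ∈ Finset.range (m + 1), (1 - (X : R) ^ (2 * j + 1))) *
    (∏ j ∈ Finset.range m, (1 - (X : R) ^ (2 * j + 1))) * W (X ^ 2) (X ^ 3) X m := by
  unfold D1
  rw [W_zero_eq X_dvd_X2 (show (X : R) ^ 3 * X = (X ^ 2) ^ 2 by ring) m, Finset.prod_mul_distrib,
    Finset.prod_range_succ']
  have h1 : ∏ x ∈ Finset.range m, (1 - (X : R) ^ 3 * (X ^ 2) ^ x) =
      ∏ x ∈ Finset.range m, (1 - (X : R) ^ (2 * (x + 1) + 1)) :=
    Finset.prod_congr rfl fun j _ => by ring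
  have h2 : ∏ x ∈ Finset.range m, (1 - (X : R) * (X ^ 2) ^ x) =
      ∏ x ∈ Finset.range m, (1 - (X : R) ^ (2 * x + 1)) :=
    Finset.prod_congr rfl fun j _ => by ring
  rw [h1, h2]
  simp only [mul_zero, zero_add, pow_one]
  ring

/-- key: `t_m φ(-q) = α_m W_m` -/
lemma Tterm_mul_D1 (m : ℕ) : Tterm m * D1 = alpha (X ^ 2) m * W (X ^ 2) (X ^ 3) X m := by
  rw [D1_eq m]
  unfold Tterm alpha
  have h1 := odd_prod_mul_inv (m + 1)
  have h2 := prod_identity m
  have h3 := poch_mul_ip X_dvd_X2 m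
  rw [← h2]
  calc X ^ (2 * m) * (∏ j ∈ Finset.range (2 * m), (1 + X ^ (j + 1))) *
        PowerSeries.invOfUnit (∏ j ∈ Finset.range (m + 1), (1 - X ^ (2 * j + 1))) 1 *
      ((∏ j ∈ Finset.range (m + 1), (1 - (X : R) ^ (2 * j + 1))) *
        (∏ j ∈ Finset.range m, (1 - (X : R) ^ (2 * j + 1))) * W (X ^ 2) (X ^ 3) X m)
      = X ^ (2 * m) * (∏ j ∈ Finset.range (2 * m), (1 + X ^ (j + 1))) *
        ((∏ j ∈ Finset.range (m + 1), (1 - (X : R) ^ (2 * j + 1))) *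
          PowerSeries.invOfUnit (∏ j ∈ Finset.range (m + 1), (1 - X ^ (2 * j + 1))) 1) *
        (∏ j ∈ Finset.range m, (1 - (X : R) ^ (2 * j + 1))) * W (X ^ 2) (X ^ 3) X m := by ring
    _ = X ^ (2 * m) * (∏ j ∈ Finset.range (2 * m), (1 + X ^ (j + 1))) *
        (∏ j ∈ Finset.range m, (1 - (X : R) ^ (2 * j + 1))) *
          (poch (X ^ 2) (X ^ 2) m * ip (X ^ 2) m) * W (X ^ 2) (X ^ 3) X m := by
        rw [h1, h3]; ring
    _ = _ := by rw [pow_mul]; ring

lemma summable_Tterm : Summable Tterm := by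
  refine summable_nat fun m => ?_
  unfold Tterm
  rw [mul_assoc]
  exact (pow_dvd_pow X (by omega)).mul_right _

/-- The series `T_o`. -/
noncomputable def To : R := ∑' m, Tterm m

lemma hasSum_To : HasSum Tterm To := summable_Tterm.hasSum

/-- `T_o φ(-q)` as a double sum -/
lemma To_mul_D1 : To * D1 =
    ∑' r : ℕ, (-(X : R) ^ 3) ^ r * (X ^ 2) ^ (r.choose 2) * theta3 (X ^ 2) ((X ^ 2) ^ r)
      + ∑' r : ℕ, (-(X : R)) ^ r * (X ^ 2) ^ (r.choose 2) * theta3 (X ^ 2) ((X ^ 2) ^ r)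
      - theta3 (X ^ 2) 1 := by
  have h1 := hasSum_To.mul_right D1
  have h2 := sum_alpha_W X_dvd_X2 (X ^ 3) X
  have h3 := hasSum_of_eq h2 Tterm_mul_D1 rfl
  exact h1.unique h3

/-- explicit form of `φ(-q)` -/
lemma hasSum_D1_nat : HasSum (fun N : ℕ => (-1) ^ N * ((X : R) ^ (N ^ 2) - X ^ ((N + 1) ^ 2))) D1 := by
  have h1 := S_zero X_dvd_X2 (X ^ 3)
  have h2 := S_zero X_dvd_X2 X
  have h3 : HasSum (fun N : ℕ => (-1) ^ N * ((X : R) ^ 2) ^ (N.choose 2) * (X ^ 2) ^ N)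
      (bb (X ^ 2) 0 0) := by
    have h4 : HasSum (Lterm ((X : R) ^ 2) (X ^ 2) (X ^ 2)) (L (X ^ 2) (X ^ 2) (X ^ 2)) :=
      (summable_Lterm X_dvd_X2 _ _).hasSum
    refine hasSum_of_eq h4 (fun k => ?_) ?_
    · unfold Lterm
      have := poch_mul_ip X_dvd_X2 k
      rw [mul_assoc _ (poch _ _ _), this, mul_one]
    · simp [bb]
  have h5 := ((h1.add h2).sub h3).mul_left (1 - X)
  refine hasSum_of_eq h5 (fun N => ?_) rfl
  -- geometric sums
  have g1 : (1 - (X : R)) * ∑ p ∈ Finset.HasAntidiagonal.antidiagonal N, (X ^ 3) ^ p.1 * (X ^ 2) ^ p.2 =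
      X ^ (2 * N) * (1 - X ^ (N + 1)) := by
    rw [Finset.Nat.sum_antidiagonal_eq_sum_range_succ_mk]
    have : ∑ k ∈ Finset.range N.succ, ((X : R) ^ 3) ^ k * (X ^ 2) ^ (N - k) =
        X ^ (2 * N) * ∑ k ∈ Finset.range (N + 1), X ^ k := by
      rw [Finset.mul_sum]
      refine Finset.sum_congr rfl fun k hk => ?_
      have hk' : k ≤ N := Nat.lt_succ_iff.mp (Finset.mem_range.mp hk)
      rw [← pow_mul, ← pow_mul, ← pow_add, ← pow_add]
      congr 1
      omega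
    rw [this, ← mul_neg_geom_sum (X : R) (N + 1)]
    ring
  have g2 : (1 - (X : R)) * ∑ p ∈ Finset.HasAntidiagonal.antidiagonal N, X ^ p.1 * (X ^ 2) ^ p.2 =
      X ^ N * (1 - X ^ (N + 1)) := by
    rw [← Finset.Nat.sum_antidiagonal_swap, Finset.Nat.sum_antidiagonal_eq_sum_range_succ_mk]
    have : ∑ k ∈ Finset.range N.succ, (X : R) ^ (N - k) * (X ^ 2) ^ k =
        X ^ N * ∑ k ∈ Finset.range (N + 1), X ^ k := by
      rw [Finset.mul_sum]
      refine Finset.sum_congr rfl fun k hk => ?_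
      have hk' : k ≤ N := Nat.lt_succ_iff.mp (Finset.mem_range.mp hk)
      rw [← pow_mul, ← pow_add, ← pow_add]
      congr 1
      omega
    simp only [Prod.fst_swap, Prod.snd_swap]
    rw [this, ← mul_neg_geom_sum (X : R) (N + 1)]
    ring
  have e : ∀ N : ℕ, 2 * N.choose 2 + N = N ^ 2 := by
    intro N
    induction N with
    | zero => rfl
    | succ n ih =>
      rw [Nat.choose_succ_succ' n 1, Nat.choose_one_right]
      nlinarith
  have e' : (X : R) ^ (N ^ 2) = (X ^ 2) ^ (N.choose 2) * X ^ N := by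
    rw [← pow_mul, ← pow_add, e]
  have e'' : (X : R) ^ ((N + 1) ^ 2) = (X ^ 2) ^ (N.choose 2) * X ^ N * X ^ (2 * N + 1) := by
    rw [← e', ← pow_add]; ring_nf
  rw [e', e'']
  calc (-1) ^ N * (((X : R) ^ 2) ^ (N.choose 2) * X ^ N -
        (X ^ 2) ^ (N.choose 2) * X ^ N * X ^ (2 * N + 1))
      = (-1) ^ N * (X ^ 2) ^ (N.choose 2) * (X ^ (2 * N) * (1 - X ^ (N + 1))
        + X ^ N * (1 - X ^ (N + 1)) - (1 - X) * (X ^ 2) ^ N) := by ring
    _ = _ := by rw [← g1, ← g2]; ring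

/-- explicit form of `ψ(q)` -/
lemma hasSum_Psi : HasSum (fun N : ℕ => (X : R) ^ (N.choose 2 + N)) Psi := by
  have h1 := S_zero X_dvd_X (-X)
  have h3 : HasSum (fun N : ℕ => (-1) ^ N * (X : R) ^ (N.choose 2) * X ^ N)
      (bb X 0 0) := by
    have h4 : HasSum (Lterm (X : R) X X) (L X X X) :=
      (summable_Lterm X_dvd_X _ _).hasSum
    refine hasSum_of_eq h4 (fun k => ?_) ?_
    · unfold Lterm
      have := poch_mul_ip X_dvd_X k
      rw [mul_assoc _ (poch _ _ _), this, mul_one]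
    · simp [bb]
  have h5 := ((h1.add h1).sub h3)
  refine hasSum_of_eq h5 (fun N => ?_) rfl
  have g1 : ∑ p ∈ Finset.HasAntidiagonal.antidiagonal N, (-(X : R)) ^ p.1 * X ^ p.2 =
      X ^ N * ∑ k ∈ Finset.range (N + 1), (-1) ^ k := by
    rw [Finset.Nat.sum_antidiagonal_eq_sum_range_succ_mk, Finset.mul_sum]
    refine Finset.sum_congr rfl fun k hk => ?_
    have hk' : k ≤ N := Nat.lt_succ_iff.mp (Finset.mem_range.mp hk)
    simp only
    rw [neg_pow, mul_assoc, ← pow_add, show k + (N - k) = N by omega]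
    ring
  have g2 : ∀ N : ℕ, 2 * ∑ k ∈ Finset.range (N + 1), (-1 : R) ^ k = 1 + (-1) ^ N := by
    intro N
    induction N with
    | zero => simp; norm_num
    | succ n ih => rw [Finset.sum_range_succ, mul_add, ih, pow_succ]; ring
  rw [g1]
  have g3 : ((-1 : R) ^ N) * (-1) ^ N = 1 := by
    rw [← mul_pow]; simp
  calc (X : R) ^ (N.choose 2 + N) = X ^ (N.choose 2) * X ^ N * ((-1) ^ N * (-1) ^ N) := by
        rw [g3, pow_add]; ring
    _ = (-1) ^ N * X ^ (N.choose 2) * X ^ N * ((1 + (-1) ^ N) - 1) := by ring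
    _ = _ := by rw [← g2 N]; ring

/-- `φ(-q) ψ(q) = (q;q)_∞ (q²;q²)_∞` -/
lemma D1_mul_Psi : D1 * Psi = EE X * EE (X ^ 2) := by
  -- expression with index m
  have h1 : ∀ m : ℕ, D1 * Psi = (poch (X ^ 2) ((X ^ 2) ^ (m + 1)) m) ^ 2 * (1 - X ^ (2 * m + 1)) *
      (W (X ^ 2) (X ^ 3) X m * W X (-X) (-X) (2 * m)) := by
    intro m
    have hP : Psi = (∏ j ∈ Finset.range (2 * m), (1 + (X : R) ^ (j + 1))) ^ 2 *
        W X (-X) (-X) (2 * m) := by
      unfold Psi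
      rw [W_zero_eq X_dvd_X (show (-(X : R)) * (-X) = X ^ 2 by ring) (2 * m),
        Finset.prod_mul_distrib]
      have h1 : ∏ x ∈ Finset.range (2 * m), (1 - (-(X : R)) * X ^ x) =
          ∏ x ∈ Finset.range (2 * m), (1 + (X : R) ^ (x + 1)) :=
        Finset.prod_congr rfl fun j _ => by ring
      rw [h1]; ring
    have hg : (∏ j ∈ Finset.range (2 * m), (1 + (X : R) ^ (j + 1))) *
      (∏ j ∈ Finset.range m, (1 - (X : R) ^ (2 * j + 1))) = poch (X ^ 2) ((X ^ 2) ^ (m + 1)) m := by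
      have h2 := prod_identity m
      have h3 : poch ((X : R) ^ 2) (X ^ 2) (2 * m) =
          poch (X ^ 2) (X ^ 2) m * poch (X ^ 2) ((X ^ 2) ^ (m + 1)) m := by
        rw [two_mul, poch_add]
        congr 2
        ring
      rw [h3, mul_comm] at h2
      exact (isUnit_poch _ X_dvd_X2 m).mul_left_cancel h2
    rw [D1_eq m, hP, Finset.prod_range_succ, ← hg]
    ring
  have t1 : Tendsto (fun m : ℕ => poch ((X : R) ^ 2) ((X ^ 2) ^ (m + 1)) m) atTop (𝓝 1) := by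
    refine tendsto_of_dvd_sub fun m => ?_
    refine dvd_poch_sub_one ?_ m
    rw [← pow_mul]
    exact pow_dvd_pow X (by omega)
  have t2 : Tendsto (fun m : ℕ => 1 - (X : R) ^ (2 * m + 1)) atTop (𝓝 1) := by
    refine tendsto_of_dvd_sub fun m => ?_
    have : 1 - (X : R) ^ (2 * m + 1) - 1 = - X ^ (2 * m + 1) := by ring
    rw [this]
    exact (pow_dvd_pow X (by omega)).neg_right
  have t3 := tendsto_W X_dvd_X2 (X ^ 3) X
  have t4 : Tendsto (fun m : ℕ => W (X : R) (-X) (-X) (2 * m)) atTop (𝓝 (EE X)) := by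
    have h5 := tendsto_W X_dvd_X (-X) (-X)
    exact h5.comp (tendsto_id.const_mul_atTop' two_pos)
  have t5 := ((t1.pow 2).mul t2).mul (t3.mul t4)
  have t6 : Tendsto (fun _ : ℕ => D1 * Psi) atTop (𝓝 (1 ^ 2 * 1 * (EE (X ^ 2) * EE X))) := by
    refine t5.congr fun m => ?_
    exact (h1 m).symm
  have t7 := tendsto_nhds_unique tendsto_const_nhds t6
  rw [t7]; ring

end Pool.Agent.Lib.MP_91ed4c_nt
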