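import Mathlib
import Pool.Agent.Lib.MP_91ed4c_nt.Theta

namespace Pool.Agent.Lib.MP_91ed4c_nt

open PowerSeries Filter Topology
open scoped PowerSeries.WithPiTopology

/-- sign of an integer as a power series -/
noncomputable def sg (k : ℤ) : R := ((Int.negOnePow k : ℤˣ) : ℤ)

lemma sg_add (a b : ℤ) : sg (a + b) = sg a * sg b := by
  unfold sg; rw [Int.negOnePow_add]; push_cast; rfl

lemma sg_neg (a : ℤ) : sg (-a) = sg a := by
  unfold sg; rw [Int.negOnePow_neg]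

lemma sg_nat (n : ℕ) : sg n = (-1) ^ n := by
  rcases Nat.even_or_odd n with h | h
  · have h' : Even (n : ℤ) := by exact_mod_cast h
    simp [sg, Int.negOnePow_even _ h', h.neg_one_pow]
  · have h' : Odd (n : ℤ) := by exact_mod_cast h
    simp [sg, Int.negOnePow_odd _ h', h.neg_one_pow]

lemma sg_mul_self (a : ℤ) : sg a * sg a = 1 := by
  rw [← sg_add]
  have : Even (a + a) := ⟨a, rfl⟩
  simp [sg, Int.negOnePow_even _ this]

lemma X_pow_toNat {a : ℕ} {b : ℤ} (h : (a : ℤ) = b) : (X : R) ^ b.toNat = X ^ a := by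
  rw [← h, Int.toNat_natCast]

/-- `φ(-q) = ∑_{k ∈ ℤ} (-1)^k q^{k²}` -/
noncomputable def fphi (k : ℤ) : R := sg k * X ^ (k ^ 2).toNat

lemma fphi_neg (k : ℤ) : fphi (-k) = fphi k := by
  unfold fphi; rw [sg_neg, neg_sq]

lemma hasSum_D1_int : HasSum fphi D1 := by
  have hs : Summable (fun N : ℕ => (-1) ^ N * (X : R) ^ (N ^ 2)) :=
    summable_nat fun N => ((pow_dvd_pow X (by nlinarith)).mul_left _)
  have hs' : Summable (fun N : ℕ => (-1) ^ (N + 1) * (X : R) ^ ((N + 1) ^ 2)) :=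
    summable_nat fun N => ((pow_dvd_pow X (by nlinarith)).mul_left _)
  have h1 := hs.hasSum.add hs'.hasSum
  have h2 := hasSum_of_eq h1 (g := fun N : ℕ => (-1) ^ N * ((X : R) ^ (N ^ 2) - X ^ ((N + 1) ^ 2)))
    (fun N => by ring) rfl
  rw [hasSum_D1_nat.unique h2]
  refine HasSum.of_nat_of_neg_add_one ?_ ?_
  · refine hasSum_of_eq hs.hasSum (fun N => ?_) rfl
    unfold fphi
    rw [sg_nat, X_pow_toNat (a := N ^ 2) (by push_cast; ring)]
  · refine hasSum_of_eq hs'.hasSum (fun N => ?_) rfl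
    unfold fphi
    rw [sg_neg, X_pow_toNat (a := (N + 1) ^ 2) (by push_cast; ring)]
    have : ((N : ℤ) + 1) = ((N + 1 : ℕ) : ℤ) := by push_cast; ring
    rw [this, sg_nat]

/-- splitting of `φ(-q)` at `-n` -/
lemma D1_split (n : ℕ) : HasSum (fun s : ℕ => fphi (s + n) + fphi (s + 1 - n)) D1 := by
  have e : HasSum (fphi ∘ (Equiv.subLeft (-(n : ℤ)))) D1 :=
    (Equiv.subLeft (-(n : ℤ))).hasSum_iff.mpr hasSum_D1_int
  have h1 := e.nat_add_neg_add_one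
  refine hasSum_of_eq h1 (fun s => ?_) rfl
  simp only [Function.comp_apply, Equiv.subLeft_apply]
  congr 1
  · rw [← fphi_neg]; congr 1; ring
  · congr 1; ring

/-- `P(q) = ∑ q^{2n²+3n}` -/
noncomputable def Pq : R := ∑' n : ℕ, X ^ (2 * n ^ 2 + 3 * n)

lemma hasSum_Pq : HasSum (fun n : ℕ => (X : R) ^ (2 * n ^ 2 + 3 * n)) Pq :=
  (summable_nat fun n => pow_dvd_pow X (by nlinarith)).hasSum

noncomputable def Uf (p : ℕ × ℕ) : R :=
  (-1) ^ (p.1 + p.2) * X ^ (p.1 ^ 2 + 2 * p.1 + 2 * p.1 * p.2 + 3 * p.2 ^ 2 + 3 * p.2)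

noncomputable def Vf (p : ℕ × ℕ) : R :=
  (-1) ^ (p.1 + p.2) * X ^ (p.1 ^ 2 + 2 * p.1 * p.2 + 3 * p.2 ^ 2 + 3 * p.2)

/-- second part of the product -/
noncomputable def Df (p : ℕ × ℕ) : R := fphi (p.1 + 1 - p.2) * X ^ (2 * p.2 ^ 2 + 3 * p.2)

lemma summable_Uf : Summable Uf := by
  refine summable_nat_nat
    (e := fun p => p.1 ^ 2 + 2 * p.1 + 2 * p.1 * p.2 + 3 * p.2 ^ 2 + 3 * p.2)
    (fun p => dvd_mul_left _ _) (fun p => ?_) (fun p => ?_)
  · nlinarith [Nat.zero_le (p.1 * p.2), Nat.zero_le (p.1 ^ 2), Nat.zero_le (p.2 ^ 2)]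
  · nlinarith [Nat.zero_le (p.1 * p.2), Nat.zero_le (p.1 ^ 2), Nat.zero_le (p.2 ^ 2)]

lemma summable_Vf : Summable Vf := by
  refine summable_nat_nat
    (e := fun p => p.1 ^ 2 + 2 * p.1 * p.2 + 3 * p.2 ^ 2 + 3 * p.2)
    (fun p => dvd_mul_left _ _) (fun p => ?_) (fun p => ?_)
  · nlinarith [Nat.zero_le (p.1 * p.2), Nat.zero_le (p.1 ^ 2), Nat.zero_le (p.2 ^ 2),
      Nat.le_self_pow two_ne_zero p.1]
  · nlinarith [Nat.zero_le (p.1 * p.2), Nat.zero_le (p.1 ^ 2), Nat.zero_le (p.2 ^ 2)]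

lemma Df_eq (r n : ℕ) : Df (r, n) =
    sg (r + 1 - n) * X ^ (((r : ℤ) + 1 - n) ^ 2 + 2 * n ^ 2 + 3 * n).toNat := by
  unfold Df fphi
  simp only
  rw [mul_assoc, ← pow_add]
  congr 2
  have h0 : (0 : ℤ) ≤ ((r : ℤ) + 1 - n) ^ 2 := sq_nonneg _
  zify
  rw [Int.toNat_of_nonneg h0, Int.toNat_of_nonneg (by positivity)]
  ring

lemma summable_Df : Summable Df := by
  refine summable_nat_nat
    (e := fun p => (((p.1 : ℤ) + 1 - p.2) ^ 2 + 2 * p.2 ^ 2 + 3 * p.2).toNat)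
    (fun p => ?_) (fun p => ?_) (fun p => ?_)
  · obtain ⟨r, n⟩ := p
    rw [Df_eq]
    exact dvd_mul_left _ _
  · have h0 : (0 : ℤ) ≤ ((p.1 : ℤ) + 1 - p.2) ^ 2 + 2 * p.2 ^ 2 + 3 * p.2 := by positivity
    zify
    rw [Int.toNat_of_nonneg h0]
    nlinarith [sq_nonneg ((p.1 : ℤ) + 1 - p.2 - 1), sq_nonneg (p.2 : ℤ),
      (Int.natCast_nonneg p.2 : (0 : ℤ) ≤ p.2)]
  · have h0 : (0 : ℤ) ≤ ((p.1 : ℤ) + 1 - p.2) ^ 2 + 2 * p.2 ^ 2 + 3 * p.2 := by positivity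
    zify
    rw [Int.toNat_of_nonneg h0]
    nlinarith [sq_nonneg ((p.1 : ℤ) + 1 - p.2), sq_nonneg (p.2 : ℤ),
      (Int.natCast_nonneg p.2 : (0 : ℤ) ≤ p.2)]

lemma theta3_hasSum (r : ℕ) : HasSum (fun N : ℕ => (-1) ^ N * (X : R) ^ (2 * r * N + 3 * N ^ 2 + 3 * N))
    (theta3 (X ^ 2) ((X ^ 2) ^ r)) := by
  have hc : ∀ N : ℕ, 2 * N.choose 2 + N = N ^ 2 := by
    intro N
    induction N with
    | zero => rfl
    | succ n ih =>
      rw [Nat.choose_succ_succ' n 1, Nat.choose_one_right]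
      nlinarith
  have hterm : ∀ N : ℕ, (-1) ^ N * (((X : R) ^ 2) ^ r) ^ N * (X ^ 2) ^ (N + N.choose 2 + N * (N + 1)) =
      (-1) ^ N * (X : R) ^ (2 * r * N + 3 * N ^ 2 + 3 * N) := by
    intro N
    rw [← pow_mul, ← pow_mul, ← pow_mul, mul_assoc, ← pow_add]
    congr 2
    have := hc N
    nlinarith
  have hs : Summable (fun N : ℕ => (-1) ^ N * (X : R) ^ (2 * r * N + 3 * N ^ 2 + 3 * N)) :=
    summable_nat fun N => ((pow_dvd_pow X (by nlinarith [Nat.zero_le (r * N)])).mul_left _)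
  have h1 : theta3 ((X : R) ^ 2) ((X ^ 2) ^ r) =
      ∑' N : ℕ, (-1) ^ N * (X : R) ^ (2 * r * N + 3 * N ^ 2 + 3 * N) := by
    unfold theta3
    exact tsum_congr hterm
  rw [h1]
  exact hs.hasSum

lemma choose_two_mul (N : ℕ) : 2 * N.choose 2 + N = N ^ 2 := by
  induction N with
  | zero => rfl
  | succ n ih =>
    rw [Nat.choose_succ_succ' n 1, Nat.choose_one_right]
    nlinarith

/-- fibre sums of `Uf` -/
lemma U_fiber (r : ℕ) : HasSum (fun N => Uf (r, N))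
    ((-(X : R) ^ 3) ^ r * (X ^ 2) ^ (r.choose 2) * theta3 (X ^ 2) ((X ^ 2) ^ r)) := by
  refine hasSum_of_eq ((theta3_hasSum r).mul_left ((-(X : R) ^ 3) ^ r * (X ^ 2) ^ (r.choose 2)))
    (fun N => ?_) rfl
  unfold Uf
  simp only
  have e : (-(X : R) ^ 3) ^ r = (-1) ^ r * X ^ (3 * r) := by rw [neg_pow, ← pow_mul]
  rw [e, ← pow_mul]
  have e2 : r ^ 2 + 2 * r + 2 * r * N + 3 * N ^ 2 + 3 * N =
      3 * r + 2 * r.choose 2 + (2 * r * N + 3 * N ^ 2 + 3 * N) := by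
    have := choose_two_mul r
    omega
  rw [e2]
  ring

lemma V_fiber (r : ℕ) : HasSum (fun N => Vf (r, N))
    ((-(X : R)) ^ r * (X ^ 2) ^ (r.choose 2) * theta3 (X ^ 2) ((X ^ 2) ^ r)) := by
  refine hasSum_of_eq ((theta3_hasSum r).mul_left ((-(X : R)) ^ r * (X ^ 2) ^ (r.choose 2)))
    (fun N => ?_) rfl
  unfold Vf
  simp only
  have e : (-(X : R)) ^ r = (-1) ^ r * X ^ r := by rw [neg_pow]
  rw [e, ← pow_mul]
  have e2 : r ^ 2 + 2 * r * N + 3 * N ^ 2 + 3 * N =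
      r + 2 * r.choose 2 + (2 * r * N + 3 * N ^ 2 + 3 * N) := by
    have := choose_two_mul r
    omega
  rw [e2]
  ring

/-- `T_o φ = ∑ U + ∑ V - θ₃(1)` -/
lemma To_mul_D1' : To * D1 = ∑' p, Uf p + ∑' p, Vf p - theta3 (X ^ 2) 1 := by
  rw [To_mul_D1]
  have h1 := summable_Uf.hasSum.prod_fiberwise U_fiber
  have h2 := summable_Vf.hasSum.prod_fiberwise V_fiber
  rw [h1.tsum_eq, h2.tsum_eq]

/-- `φ P = ∑ V + ∑ D` -/
lemma D1_mul_Pq : D1 * Pq = ∑' p, Vf p + ∑' p, Df p := by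
  -- double family over (n, s)
  have hV' : Summable (Vf ∘ Equiv.prodComm ℕ ℕ) := (Equiv.prodComm ℕ ℕ).summable_iff.mpr summable_Vf
  have hD' : Summable (Df ∘ Equiv.prodComm ℕ ℕ) := (Equiv.prodComm ℕ ℕ).summable_iff.mpr summable_Df
  have h1 := (hV'.hasSum.add hD'.hasSum).prod_fiberwise
    (g := fun n : ℕ => D1 * (X : R) ^ (2 * n ^ 2 + 3 * n)) (fun n => ?_)
  · have h2 := (hasSum_Pq.mul_left D1).unique h1
    rw [h2]
    have e1 : ∑' p, (Vf ∘ Equiv.prodComm ℕ ℕ) p = ∑' p, Vf p :=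
      Equiv.tsum_eq (Equiv.prodComm ℕ ℕ) Vf
    have e2 : ∑' p, (Df ∘ Equiv.prodComm ℕ ℕ) p = ∑' p, Df p :=
      Equiv.tsum_eq (Equiv.prodComm ℕ ℕ) Df
    rw [e1, e2]
  · refine hasSum_of_eq ((D1_split n).mul_right ((X : R) ^ (2 * n ^ 2 + 3 * n))) (fun s => ?_) rfl
    simp only [Function.comp_apply, Equiv.prodComm_apply, Prod.swap_prod_mk]
    rw [add_mul]
    congr 1
    unfold Vf fphi
    simp only
    have : ((s : ℤ) + n) = ((s + n : ℕ) : ℤ) := by push_cast; ring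
    rw [this, sg_nat, X_pow_toNat (a := (s + n) ^ 2) (by push_cast; ring),
      mul_assoc ((-1 : R) ^ (s + n)), ← pow_add]
    congr 2
    ring

/-- the two-sided theta terms -/
noncomputable def jj (r : ℕ) (n : ℤ) : R :=
  sg n * X ^ (((r : ℤ) + 1 - n) ^ 2 + 2 * n ^ 2 + 3 * n).toNat

/-- values of the theta sums -/
noncomputable def Jval (r : ℕ) : R :=
  if r % 3 = 0 then (-1) ^ (r / 3) * X ^ (6 * (r / 3) ^ 2 + 7 * (r / 3) + 1) * EE (X ^ 2)
  else if r % 3 = 1 then (-1) ^ (r / 3) * X ^ (6 * (r / 3) ^ 2 + 11 * (r / 3) + 4) * EE (X ^ 2)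
  else 0

lemma two_pent (k : ℤ) : ((2 * pentagonal k : ℕ) : ℤ) = 3 * k ^ 2 - k := by
  have h0 : 0 ≤ k * (3 * k - 1) := by
    rcases le_or_gt k 0 with h | h
    · nlinarith
    · nlinarith
  have hdvd : (2 : ℤ) ∣ k * (3 * k - 1) := by
    rcases Int.even_or_odd k with h | h
    · obtain ⟨a, ha⟩ := h
      exact ⟨a * (3 * k - 1), by rw [ha]; ring⟩
    · obtain ⟨a, ha⟩ := h
      exact ⟨k * (3 * a + 1), by rw [ha]; ring⟩
  rw [pentagonal_def]
  push_cast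
  rw [Int.toNat_of_nonneg (Int.ediv_nonneg h0 (by norm_num)), Int.mul_ediv_cancel' hdvd]
  ring

lemma jj_hasSum_0 (t : ℕ) : HasSum (jj (3 * t))
    ((-1) ^ t * X ^ (6 * t ^ 2 + 7 * t + 1) * EE (X ^ 2)) := by
  have h1 := hasSum_EE_X2.mul_left ((-1) ^ t * (X : R) ^ (6 * t ^ 2 + 7 * t + 1))
  have h2 := (Equiv.subLeft (t : ℤ)).hasSum_iff.mpr h1
  refine hasSum_of_eq h2 (fun n => ?_) rfl
  simp only [Function.comp_apply, Equiv.subLeft_apply]
  unfold jj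
  have e1 : (((Int.negOnePow ((t : ℤ) - n) : ℤˣ) : ℤ) : R) = sg (t - n) := rfl
  have e0 : ((t : ℤ) - n) = t + -n := by ring
  rw [e1, e0, sg_add, sg_nat, sg_neg]
  have e2 : (X : R) ^ ((((3 * t : ℕ) : ℤ) + 1 - n) ^ 2 + 2 * n ^ 2 + 3 * n).toNat =
      X ^ (6 * t ^ 2 + 7 * t + 1 + 2 * pentagonal (t + -n)) := by
    apply X_pow_toNat
    have := two_pent (t + -n)
    push_cast at this ⊢
    linear_combination this
  rw [e2, pow_add]
  have e3 : ((-1 : R) ^ t) * (-1) ^ t = 1 := by rw [← mul_pow]; simp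
  calc sg n * (X ^ (6 * t ^ 2 + 7 * t + 1) * X ^ (2 * pentagonal (t + -n)))
      = ((-1) ^ t * (-1) ^ t) * (sg n * (X ^ (6 * t ^ 2 + 7 * t + 1) * X ^ (2 * pentagonal (t + -n)))) := by
        rw [e3, one_mul]
    _ = _ := by ring

lemma jj_hasSum_1 (t : ℕ) : HasSum (jj (3 * t + 1))
    ((-1) ^ t * X ^ (6 * t ^ 2 + 11 * t + 4) * EE (X ^ 2)) := by
  have h1 := hasSum_EE_X2.mul_left ((-1) ^ t * (X : R) ^ (6 * t ^ 2 + 11 * t + 4))
  have h2 := (Equiv.subRight (t : ℤ)).hasSum_iff.mpr h1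
  refine hasSum_of_eq h2 (fun n => ?_) rfl
  simp only [Function.comp_apply, Equiv.subRight_apply]
  unfold jj
  have e1 : (((Int.negOnePow (n - (t : ℤ)) : ℤˣ) : ℤ) : R) = sg (n - t) := rfl
  have e0 : (n - (t : ℤ)) = n + -t := by ring
  rw [e1, e0, sg_add, sg_neg, sg_nat]
  have e2 : (X : R) ^ ((((3 * t + 1 : ℕ) : ℤ) + 1 - n) ^ 2 + 2 * n ^ 2 + 3 * n).toNat =
      X ^ (6 * t ^ 2 + 11 * t + 4 + 2 * pentagonal (n + -t)) := by
    apply X_pow_toNat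
    have := two_pent (n + -t)
    push_cast at this ⊢
    linear_combination this
  rw [e2, pow_add]
  have e3 : ((-1 : R) ^ t) * (-1) ^ t = 1 := by rw [← mul_pow]; simp
  calc sg n * (X ^ (6 * t ^ 2 + 11 * t + 4) * X ^ (2 * pentagonal (n + -t)))
      = ((-1) ^ t * (-1) ^ t) * (sg n * (X ^ (6 * t ^ 2 + 11 * t + 4) * X ^ (2 * pentagonal (n + -t)))) := by
        rw [e3, one_mul]
    _ = _ := by ring

lemma summable_jj (r : ℕ) : Summable (jj r) := by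
  refine summable_of_dvd (e := fun n : ℤ => (((r : ℤ) + 1 - n) ^ 2 + 2 * n ^ 2 + 3 * n).toNat)
    (fun d => ?_) (fun n => dvd_mul_left _ _)
  refine (Set.finite_Icc (-(d : ℤ) - 3) (d + 3)).subset fun n hn => ?_
  simp only [Set.mem_ofPred_eq, Int.toNat_le] at hn
  rw [Set.mem_Icc]
  constructor
  · by_contra hlt
    push Not at hlt
    nlinarith [sq_nonneg ((r : ℤ) + 1 - n), (Int.natCast_nonneg d : (0 : ℤ) ≤ d)]
  · by_contra hlt
    push Not at hlt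
    nlinarith [sq_nonneg ((r : ℤ) + 1 - n), (Int.natCast_nonneg d : (0 : ℤ) ≤ d)]

lemma jj_hasSum_2 (t : ℕ) : HasSum (jj (3 * t + 2)) 0 := by
  have h1 := (summable_jj (3 * t + 2)).hasSum
  have h2 := (Equiv.subLeft (2 * (t : ℤ) + 1)).hasSum_iff.mpr h1
  have h3 : (jj (3 * t + 2)) ∘ (Equiv.subLeft (2 * (t : ℤ) + 1)) = fun n => - jj (3 * t + 2) n := by
    funext n
    simp only [Function.comp_apply, Equiv.subLeft_apply]
    unfold jj
    have e0 : sg (2 * (t : ℤ) + 1 - n) = - sg n := by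
      have : (2 * (t : ℤ) + 1 - n) = (t + t) + (1 + -n) := by ring
      rw [this, sg_add, sg_add 1, sg_neg, sg_add (t : ℤ), sg_mul_self]
      have : sg 1 = -1 := by simp [sg]
      rw [this]; ring
    rw [e0]
    have e1 : ((((3 * t + 2 : ℕ) : ℤ) + 1 - (2 * (t : ℤ) + 1 - n)) ^ 2 +
        2 * (2 * (t : ℤ) + 1 - n) ^ 2 + 3 * (2 * (t : ℤ) + 1 - n)) =
        (((3 * t + 2 : ℕ) : ℤ) + 1 - n) ^ 2 + 2 * n ^ 2 + 3 * n := by
      push_cast; ring
    rw [e1]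
    ring
  rw [h3] at h2
  have h4 := h1.neg
  have h5 := h2.unique h4
  -- S = -S
  have h6 : (2 : R) * ∑' n, jj (3 * t + 2) n = 0 := by
    have : ∑' n, jj (3 * t + 2) n = - ∑' n, jj (3 * t + 2) n := h5
    linear_combination this
  have h7 : ∑' n, jj (3 * t + 2) n = 0 := by
    rcases mul_eq_zero.mp h6 with h | h
    · exfalso
      have h8 := congrArg (coeff 0) h
      have h9 : (2 : R) = C (2 : ℤ) := by simp
      rw [h9, coeff_zero_C] at h8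
      simp at h8
    · exact h
  rw [h7] at h1
  exact h1

lemma jj_hasSum (r : ℕ) : HasSum (jj r) (Jval r) := by
  unfold Jval
  have hr := Nat.div_add_mod r 3
  have hlt := Nat.mod_lt r (show 3 > 0 by norm_num)
  set t := r / 3 with ht
  split_ifs with h0 h1
  · have : r = 3 * t := by omega
    rw [this]; exact jj_hasSum_0 t
  · have : r = 3 * t + 1 := by omega
    rw [this]; exact jj_hasSum_1 t
  · have : r = 3 * t + 2 := by omega
    rw [this]; exact jj_hasSum_2 t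

/-- `B(q)` -/
noncomputable def Bq : R := ∑' t : ℕ, ((X : R) ^ (6 * t ^ 2 + 7 * t + 1) - X ^ (6 * t ^ 2 + 11 * t + 4))

lemma hasSum_Bq : HasSum
    (fun t : ℕ => (X : R) ^ (6 * t ^ 2 + 7 * t + 1) - X ^ (6 * t ^ 2 + 11 * t + 4)) Bq :=
  (summable_nat fun n => dvd_sub (pow_dvd_pow X (by nlinarith)) (pow_dvd_pow X (by nlinarith))).hasSum

/-- difference -/
lemma diff_hasSum : HasSum (fun r : ℕ => (-1) ^ r * Jval r) (To * D1 - D1 * Pq) := by
  have hU := summable_Uf.hasSum.prod_fiberwise U_fiber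
  have hU1 := (hasSum_nat_add_iff' 1).mpr hU
  -- fibre sums of Df
  have hDs : ∀ r : ℕ, Summable (fun n => Df (r, n)) := by
    intro r
    exact summable_Df.comp_injective (i := fun n => (r, n)) (fun a b h => (Prod.mk.inj h).2)
  have hD := summable_Df.hasSum.prod_fiberwise (fun r => (hDs r).hasSum)
  have h1 := hU1.sub hD
  have hval : To * D1 - D1 * Pq = (∑' p, Uf p - ∑ i ∈ Finset.range 1,
      (-(X : R) ^ 3) ^ i * (X ^ 2) ^ (i.choose 2) * theta3 (X ^ 2) ((X ^ 2) ^ i)) - ∑' p, Df p := by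
    rw [To_mul_D1', D1_mul_Pq]
    simp only [Finset.sum_range_one, pow_zero, one_mul, Nat.choose_zero_succ]
    ring
  refine hasSum_of_eq h1 (fun r => ?_) hval
  -- compute the fibre difference
  have h2 : HasSum (fun N => Uf (r + 1, N) - Df (r, N))
      ((-(X : R) ^ 3) ^ (r + 1) * (X ^ 2) ^ ((r + 1).choose 2) * theta3 (X ^ 2) ((X ^ 2) ^ (r + 1))
        - ∑' n, Df (r, n)) := (U_fiber (r + 1)).sub (hDs r).hasSum
  have h3 := ((jj_hasSum r).nat_add_neg_add_one).mul_left ((-1) ^ r)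
  have h4 := hasSum_of_eq h3 (g := fun N => Uf (r + 1, N) - Df (r, N)) (fun N => ?_) rfl
  · exact h4.unique h2
  · rw [Df_eq]
    unfold Uf jj
    simp only
    have e1 : (X : R) ^ (((r : ℤ) + 1 - -((N : ℤ) + 1)) ^ 2 + 2 * (-((N : ℤ) + 1)) ^ 2 +
        3 * (-((N : ℤ) + 1))).toNat =
        X ^ ((r + 1) ^ 2 + 2 * (r + 1) + 2 * (r + 1) * N + 3 * N ^ 2 + 3 * N) := by
      apply X_pow_toNat
      push_cast; ring
    rw [e1, sg_neg]
    have e2 : sg ((r : ℤ) + 1 - N) = (-1) ^ (r + 1) * (-1) ^ N := by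
      have : ((r : ℤ) + 1 - N) = ((r + 1 : ℕ) : ℤ) + -(N : ℤ) := by push_cast; ring
      rw [this, sg_add, sg_nat, sg_neg, sg_nat]
    have e3 : sg ((N : ℤ) + 1) = (-1) ^ (N + 1) := by
      have : ((N : ℤ) + 1) = ((N + 1 : ℕ) : ℤ) := by push_cast; ring
      rw [this, sg_nat]
    rw [e2, e3, sg_nat]
    ring

lemma diff_eq : To * D1 - D1 * Pq = Bq * EE (X ^ 2) := by
  have h := diff_hasSum
  have h1 := Nat.sumByResidueClasses h.summable 3
  rw [h.tsum_eq] at h1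
  rw [h1]
  have h2 : ∀ f : ZMod 3 → R, ∑ j, f j = f 0 + f 1 + f 2 := by
    intro f
    exact Fin.sum_univ_three f
  rw [h2]
  have v0 : (0 : ZMod 3).val = 0 := rfl
  have v1 : (1 : ZMod 3).val = 1 := rfl
  have v2 : (2 : ZMod 3).val = 2 := rfl
  rw [v0, v1, v2]
  have s : ∀ t : ℕ, ((-1 : R) ^ t) * (-1) ^ t = 1 := fun t => by rw [← mul_pow]; simp
  have j0 : ∀ t : ℕ, (-1) ^ (0 + 3 * t) * Jval (0 + 3 * t) =
      X ^ (6 * t ^ 2 + 7 * t + 1) * EE (X ^ 2) := by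
    intro t
    have a1 : (0 + 3 * t) % 3 = 0 := by omega
    have a2 : (0 + 3 * t) / 3 = t := by omega
    unfold Jval
    rw [if_pos a1, a2, zero_add, pow_mul, show ((-1 : R) ^ 3) = -1 by ring]
    calc (-1) ^ t * ((-1) ^ t * X ^ (6 * t ^ 2 + 7 * t + 1) * EE (X ^ 2))
        = ((-1) ^ t * (-1) ^ t) * (X ^ (6 * t ^ 2 + 7 * t + 1) * EE (X ^ 2)) := by ring
      _ = _ := by rw [s, one_mul]
  have j1 : ∀ t : ℕ, (-1) ^ (1 + 3 * t) * Jval (1 + 3 * t) =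
      - (X ^ (6 * t ^ 2 + 11 * t + 4) * EE (X ^ 2)) := by
    intro t
    have a0 : ¬ (1 + 3 * t) % 3 = 0 := by omega
    have a1 : (1 + 3 * t) % 3 = 1 := by omega
    have a2 : (1 + 3 * t) / 3 = t := by omega
    unfold Jval
    rw [if_neg a0, if_pos a1, a2, pow_add, pow_mul, show ((-1 : R) ^ 3) = -1 by ring]
    calc (-1) ^ 1 * (-1) ^ t * ((-1) ^ t * X ^ (6 * t ^ 2 + 11 * t + 4) * EE (X ^ 2))
        = ((-1) ^ t * (-1) ^ t) * (-(X ^ (6 * t ^ 2 + 11 * t + 4) * EE (X ^ 2))) := by ring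
      _ = _ := by rw [s, one_mul]
  have j2 : ∀ t : ℕ, (-1) ^ (2 + 3 * t) * Jval (2 + 3 * t) = (0 : R) := by
    intro t
    have a0 : ¬ (2 + 3 * t) % 3 = 0 := by omega
    have a1 : ¬ (2 + 3 * t) % 3 = 1 := by omega
    unfold Jval
    rw [if_neg a0, if_neg a1, mul_zero]
  simp_rw [j0, j1, j2]
  rw [tsum_zero, add_zero]
  have s1 : Summable (fun t : ℕ => (X : R) ^ (6 * t ^ 2 + 7 * t + 1) * EE (X ^ 2)) :=
    summable_nat fun n => (pow_dvd_pow X (by nlinarith)).mul_right _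
  have s2 : Summable (fun t : ℕ => -((X : R) ^ (6 * t ^ 2 + 11 * t + 4) * EE (X ^ 2))) :=
    summable_nat fun n => ((pow_dvd_pow X (by nlinarith)).mul_right _).neg_right
  have h3 := s1.hasSum.add s2.hasSum
  have h4 := hasSum_Bq.mul_right (EE (X ^ 2))
  have h5 := hasSum_of_eq h4 (g := fun t : ℕ => (X : R) ^ (6 * t ^ 2 + 7 * t + 1) * EE (X ^ 2) +
    -((X : R) ^ (6 * t ^ 2 + 11 * t + 4) * EE (X ^ 2))) (fun t => by ring) rfl
  exact h3.unique h5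

lemma D1_ne_zero : D1 ≠ 0 := by
  intro h
  have h1 := D1_mul_Psi
  rw [h, zero_mul] at h1
  have h2 : ∀ Q : R, (X : R) ∣ Q → EE Q ≠ 0 := by
    intro Q hQ h3
    have h4 := dvd_L_sub_one hQ (y := Q) (n := 1) (by simpa using hQ)
    have h5 : L Q Q 0 = 0 := h3
    rw [h5, pow_one, zero_sub, dvd_neg] at h4
    have h6 := X_dvd_iff.mp h4
    simp at h6
  rcases mul_eq_zero.mp h1.symm with h3 | h3
  · exact h2 _ X_dvd_X h3
  · exact h2 _ X_dvd_X2 h3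

/-- The theta-type formula `C(q) = (q;q)_∞ P + ψ B`. -/
theorem C_formula : EE X * To = EE X * Pq + Psi * Bq := by
  have h1 := diff_eq
  have h2 := D1_mul_Psi
  have h3 : D1 * (EE X * To) = D1 * (EE X * Pq + Psi * Bq) := by
    calc D1 * (EE X * To) = EE X * (To * D1 - D1 * Pq) + D1 * EE X * Pq := by ring
      _ = (EE X * EE (X ^ 2)) * Bq + D1 * EE X * Pq := by rw [h1]; ring
      _ = D1 * (EE X * Pq + Psi * Bq) := by rw [← h2]; ring
  exact mul_left_cancel₀ D1_ne_zero h3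

end Pool.Agent.Lib.MP_91ed4c_nt
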