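import Mathlib
import Pool.Agent.Lib.MP_91ed4c_nt.Assemble
import Pool.Agent.Lib.MP_91ed4c_nt.Arith

namespace Pool.Agent.Lib.MP_91ed4c_nt

open PowerSeries Filter Topology
open scoped PowerSeries.WithPiTopology

/-- `A(q)` -/
noncomputable def Aq : R := ∑' s : ℕ, ((X : R) ^ (6 * s ^ 2 + s) - X ^ (6 * s ^ 2 + 5 * s + 1))

/-- `Q'(q)` -/
noncomputable def Qser : R := ∑' s : ℕ, (X : R) ^ (2 * s ^ 2 + s)

lemma hasSum_Aq : HasSum (fun s : ℕ => (X : R) ^ (6 * s ^ 2 + s) - X ^ (6 * s ^ 2 + 5 * s + 1)) Aq :=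
  (summable_nat fun n => dvd_sub (pow_dvd_pow X (by nlinarith)) (pow_dvd_pow X (by nlinarith))).hasSum

lemma hasSum_Qser : HasSum (fun s : ℕ => (X : R) ^ (2 * s ^ 2 + s)) Qser :=
  (summable_nat fun n => (pow_dvd_pow X (by nlinarith))).hasSum

lemma pent_neg_nat (k : ℕ) (m : ℕ) (h : k * (3 * k + 1) = 2 * m) : pentagonal (-(k : ℤ)) = m := by
  rw [pentagonal_neg]
  have : (k : ℤ) * (3 * k + 1) = 2 * m := by exact_mod_cast h
  rw [this]
  simp

lemma pent_pos_nat (k : ℕ) (m : ℕ) (h : (k + 1) * (3 * k + 2) = 2 * m) :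
    pentagonal ((k : ℤ) + 1) = m := by
  rw [pentagonal_def]
  have : ((k : ℤ) + 1) * (3 * ((k : ℤ) + 1) - 1) = 2 * m := by
    have h' : ((k : ℤ) + 1) * (3 * k + 2) = 2 * m := by exact_mod_cast h
    rw [← h']; ring
  rw [this]
  simp

lemma EE_eq_Aq : EE (X : R) = Aq - X * Bq := by
  rw [EE_X]
  have h := WithPiTopology.hasSum_pow_pentagonal_sub_pentagonalSeries ℤ
  have h1 := hasSum_Aq
  have h2 := (hasSum_Bq.mul_left X).neg
  refine h.unique ?_
  rw [sub_eq_add_neg]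
  refine HasSum.even_add_odd ?_ ?_
  · refine hasSum_of_eq h1 (fun s => ?_) rfl
    have e1 : pentagonal (-((2 * s : ℕ) : ℤ)) = 6 * s ^ 2 + s := pent_neg_nat _ _ (by ring)
    have e2 : pentagonal (((2 * s : ℕ) : ℤ) + 1) = 6 * s ^ 2 + 5 * s + 1 :=
      pent_pos_nat _ _ (by ring)
    rw [e1, e2]
    simp
  · refine hasSum_of_eq h2 (fun s => ?_) rfl
    have e1 : pentagonal (-((2 * s + 1 : ℕ) : ℤ)) = 6 * s ^ 2 + 7 * s + 2 := pent_neg_nat _ _ (by ring)
    have e2 : pentagonal (((2 * s + 1 : ℕ) : ℤ) + 1) = 6 * s ^ 2 + 11 * s + 5 :=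
      pent_pos_nat _ _ (by ring)
    rw [e1, e2]
    have e3 : (-1 : R) ^ (2 * s + 1) = -1 := by
      rw [pow_succ, pow_mul]; simp
    rw [e3]
    ring

lemma Psi_eq_Qser : Psi = Qser + X * Pq := by
  have h := hasSum_Psi
  have h1 := hasSum_Qser
  have h2 := hasSum_Pq.mul_left X
  refine h.unique ?_
  refine HasSum.even_add_odd ?_ ?_
  · refine hasSum_of_eq h1 (fun s => ?_) rfl
    congr 1
    have := choose_two_mul (2 * s)
    nlinarith
  · refine hasSum_of_eq h2 (fun s => ?_) rfl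
    rw [← pow_succ']
    congr 1
    have := choose_two_mul (2 * s + 1)
    nlinarith

/-- The final theta formula. -/
theorem C_formula' : EE X * To = Aq * Pq + Qser * Bq := by
  rw [C_formula, EE_eq_Aq, Psi_eq_Qser]; ring

/-- sums of `X ^ e p` over pairs -/
noncomputable def Fser (e : ℕ × ℕ → ℕ) : R := ∑' p, (X : R) ^ (e p)

lemma coeff_Fser (e : ℕ × ℕ → ℕ) (h1 : ∀ p, p.1 ≤ e p) (h2 : ∀ p, p.2 ≤ e p) (n : ℕ) :
    coeff n (Fser e) =
      (((Finset.range (n + 1)) ×ˢ (Finset.range (n + 1))).filter (fun p => e p = n)).card := by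
  have hs : Summable (fun p => (X : R) ^ (e p)) :=
    summable_nat_nat (e := e) (fun p => dvd_rfl) (fun p => by have := h1 p; omega)
      (fun p => by have := h2 p; omega)
  have h3 := ((WithPiTopology.hasSum_iff_hasSum_coeff ℤ).mp hs.hasSum) n
  have h4 : HasSum (fun p => coeff n ((X : R) ^ (e p)))
      (∑ p ∈ ((Finset.range (n + 1)) ×ˢ (Finset.range (n + 1))).filter (fun p => e p = n),
        coeff n ((X : R) ^ (e p))) := by
    apply hasSum_sum_of_ne_finset_zero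
    intro p hp
    rw [coeff_X_pow, if_neg]
    intro h5
    apply hp
    rw [Finset.mem_filter, Finset.mem_product, Finset.mem_range, Finset.mem_range]
    have := h1 p
    have := h2 p
    refine ⟨⟨by omega, by omega⟩, h5.symm⟩
  have h5 := h3.unique h4
  unfold Fser
  rw [h5]
  have h6 : ∀ p ∈ ((Finset.range (n + 1)) ×ˢ (Finset.range (n + 1))).filter (fun p => e p = n),
      coeff n ((X : R) ^ (e p)) = 1 := by
    intro p hp
    rw [coeff_X_pow, if_pos]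
    exact ((Finset.mem_filter.mp hp).2).symm
  rw [Finset.sum_congr rfl h6]
  simp

lemma mul_hasSum {f g : ℕ → ℕ} {a b : R} (hf : HasSum (fun s => (X : R) ^ (f s)) a)
    (hg : HasSum (fun s => (X : R) ^ (g s)) b) (h1 : ∀ s, s ≤ f s) (h2 : ∀ s, s ≤ g s) :
    a * b = Fser (fun p => f p.1 + g p.2) := by
  have hs : Summable (fun p : ℕ × ℕ => (X : R) ^ (f p.1) * (X : R) ^ (g p.2)) := by
    refine summable_nat_nat (e := fun p => f p.1 + g p.2) (fun p => by rw [pow_add])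
      (fun p => by have := h1 p.1; omega) (fun p => by have := h2 p.2; omega)
  have h := hf.mul hg hs
  unfold Fser
  rw [← h.tsum_eq]
  exact tsum_congr fun p => by rw [pow_add]

def ex1 (p : ℕ × ℕ) : ℕ := (6 * p.1 ^ 2 + p.1) + (2 * p.2 ^ 2 + 3 * p.2)
def ex2 (p : ℕ × ℕ) : ℕ := (6 * p.1 ^ 2 + 5 * p.1 + 1) + (2 * p.2 ^ 2 + 3 * p.2)
def ex3 (p : ℕ × ℕ) : ℕ := (6 * p.1 ^ 2 + 7 * p.1 + 1) + (2 * p.2 ^ 2 + p.2)
def ex4 (p : ℕ × ℕ) : ℕ := (6 * p.1 ^ 2 + 11 * p.1 + 4) + (2 * p.2 ^ 2 + p.2)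

lemma C_formula'' : EE X * To = (Fser ex1 - Fser ex2) + (Fser ex3 - Fser ex4) := by
  have a1 : HasSum (fun s : ℕ => (X : R) ^ (6 * s ^ 2 + s)) (∑' s : ℕ, (X : R) ^ (6 * s ^ 2 + s)) :=
    (summable_nat fun n => (pow_dvd_pow X (by nlinarith))).hasSum
  have a2 : HasSum (fun s : ℕ => (X : R) ^ (6 * s ^ 2 + 5 * s + 1))
      (∑' s : ℕ, (X : R) ^ (6 * s ^ 2 + 5 * s + 1)) :=
    (summable_nat fun n => (pow_dvd_pow X (by nlinarith))).hasSum
  have a3 : HasSum (fun s : ℕ => (X : R) ^ (6 * s ^ 2 + 7 * s + 1))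
      (∑' s : ℕ, (X : R) ^ (6 * s ^ 2 + 7 * s + 1)) :=
    (summable_nat fun n => (pow_dvd_pow X (by nlinarith))).hasSum
  have a4 : HasSum (fun s : ℕ => (X : R) ^ (6 * s ^ 2 + 11 * s + 4))
      (∑' s : ℕ, (X : R) ^ (6 * s ^ 2 + 11 * s + 4)) :=
    (summable_nat fun n => (pow_dvd_pow X (by nlinarith))).hasSum
  have hA : Aq = (∑' s : ℕ, (X : R) ^ (6 * s ^ 2 + s)) - (∑' s : ℕ, (X : R) ^ (6 * s ^ 2 + 5 * s + 1)) :=
    (a1.sub a2).tsum_eq
  have hB : Bq = (∑' s : ℕ, (X : R) ^ (6 * s ^ 2 + 7 * s + 1)) -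
      (∑' s : ℕ, (X : R) ^ (6 * s ^ 2 + 11 * s + 4)) := (a3.sub a4).tsum_eq
  have n1 := mul_hasSum a1 hasSum_Pq (fun s => by nlinarith) (fun s => by nlinarith)
  have n2 := mul_hasSum a2 hasSum_Pq (fun s => by nlinarith) (fun s => by nlinarith)
  have n3 := mul_hasSum a3 hasSum_Qser (fun s => by nlinarith) (fun s => by nlinarith)
  have n4 := mul_hasSum a4 hasSum_Qser (fun s => by nlinarith) (fun s => by nlinarith)
  rw [C_formula', hA, hB, sub_mul, mul_comm Qser, sub_mul, n1, n2, n3, n4]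
  rfl

/-- counting function -/
def cnt (e : ℕ × ℕ → ℕ) (n : ℕ) : ℕ :=
  (((Finset.range (n + 1)) ×ˢ (Finset.range (n + 1))).filter (fun p => e p = n)).card

lemma coeff_C (n : ℕ) : coeff n (EE X * To) =
    ((cnt ex1 n : ℤ) - cnt ex2 n) + ((cnt ex3 n : ℤ) - cnt ex4 n) := by
  rw [C_formula'', map_add, map_sub, map_sub]
  rw [coeff_Fser ex1 (fun p => by unfold ex1; nlinarith) (fun p => by unfold ex1; nlinarith),
    coeff_Fser ex2 (fun p => by unfold ex2; nlinarith) (fun p => by unfold ex2; nlinarith),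
    coeff_Fser ex3 (fun p => by unfold ex3; nlinarith) (fun p => by unfold ex3; nlinarith),
    coeff_Fser ex4 (fun p => by unfold ex4; nlinarith) (fun p => by unfold ex4; nlinarith)]
  rfl

/-! ### the finite combinatorics -/

/-- all `(x, y)` with `x² + 3y² = 4 N`, `x` odd, `x + y ≡ 0 (mod 4)` -/
def ZZ (N : ℕ) : Finset (ℕ × ℕ) :=
  ((Finset.range (4 * N + 1)) ×ˢ (Finset.range (4 * N + 1))).filter
    (fun p => p.1 ^ 2 + 3 * p.2 ^ 2 = 4 * N ∧ p.1 % 2 = 1 ∧ (p.1 + p.2) % 4 = 0)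

lemma mem_ZZ {N : ℕ} {p : ℕ × ℕ} :
    p ∈ ZZ N ↔ p.1 ^ 2 + 3 * p.2 ^ 2 = 4 * N ∧ p.1 % 2 = 1 ∧ (p.1 + p.2) % 4 = 0 := by
  unfold ZZ
  rw [Finset.mem_filter, Finset.mem_product, Finset.mem_range, Finset.mem_range]
  constructor
  · exact fun h => h.2
  · intro h
    refine ⟨⟨?_, ?_⟩, h⟩
    · nlinarith [h.1, Nat.zero_le p.2, sq_nonneg p.1, Nat.le_self_pow (two_ne_zero) p.1]
    · nlinarith [h.1, Nat.zero_le p.2, sq_nonneg p.1, Nat.le_self_pow (two_ne_zero) p.2]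

lemma card_class (n a b : ℕ) (e : ℕ × ℕ → ℕ) (ha : a < 12) (hb : b < 4)
    (he : ∀ s t : ℕ, (12 * s + a) ^ 2 + 3 * (4 * t + b) ^ 2 = 24 * e (s, t) + 28)
    (hab : (a + b) % 4 = 0) (ha2 : a % 2 = 1)
    (h1 : ∀ p, p.1 ≤ e p) (h2 : ∀ p, p.2 ≤ e p) :
    cnt e n = ((ZZ (6 * n + 7)).filter (fun p => p.1 % 12 = a)).card := by
  unfold cnt
  refine Finset.card_nbij' (fun p => (12 * p.1 + a, 4 * p.2 + b)) (fun p => (p.1 / 12, p.2 / 4))
    ?_ ?_ ?_ ?_
  · rintro ⟨s, t⟩ hp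
    have hp' := Finset.mem_coe.mp hp
    rw [Finset.mem_filter] at hp'
    rw [Finset.mem_coe, Finset.mem_filter, mem_ZZ]
    have := he s t
    rw [hp'.2] at this
    simp only
    refine ⟨⟨by rw [this]; ring, by omega, by omega⟩, by omega⟩
  · rintro ⟨x, y⟩ hp
    have hp' := Finset.mem_coe.mp hp
    rw [Finset.mem_filter, mem_ZZ] at hp'
    simp only at hp'
    obtain ⟨⟨q1, q2, q3⟩, q4⟩ := hp'
    have hx : x = 12 * (x / 12) + a := by omega
    have hy : y = 4 * (y / 4) + b := by omega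
    have h3 := he (x / 12) (y / 4)
    rw [← hx, ← hy, q1] at h3
    have h4 : e (x / 12, y / 4) = n := by omega
    rw [Finset.mem_coe, Finset.mem_filter, Finset.mem_product, Finset.mem_range, Finset.mem_range]
    have h5 := h1 (x / 12, y / 4)
    have h6 := h2 (x / 12, y / 4)
    simp only at h5 h6 ⊢
    exact ⟨⟨by omega, by omega⟩, h4⟩
  · rintro ⟨s, t⟩ _
    simp only [Prod.mk.injEq]
    constructor <;> omega
  · rintro ⟨x, y⟩ hp
    have hp' := Finset.mem_coe.mp hp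
    rw [Finset.mem_filter, mem_ZZ] at hp'
    simp only at hp'
    obtain ⟨⟨q1, q2, q3⟩, q4⟩ := hp'
    simp only [Prod.mk.injEq]
    constructor <;> omega

lemma sum_ZZ (n : ℕ) : ∑ p ∈ ZZ (6 * n + 7), chi3 p.1 =
    ((cnt ex1 n : ℤ) - cnt ex2 n) + ((cnt ex3 n : ℤ) - cnt ex4 n) := by
  rw [card_class n 1 3 ex1 (by norm_num) (by norm_num) (fun s t => by unfold ex1; ring)
      (by norm_num) (by norm_num) (fun p => by unfold ex1; nlinarith)
      (fun p => by unfold ex1; nlinarith),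
    card_class n 5 3 ex2 (by norm_num) (by norm_num) (fun s t => by unfold ex2; ring)
      (by norm_num) (by norm_num) (fun p => by unfold ex2; nlinarith)
      (fun p => by unfold ex2; nlinarith),
    card_class n 7 1 ex3 (by norm_num) (by norm_num) (fun s t => by unfold ex3; ring)
      (by norm_num) (by norm_num) (fun p => by unfold ex3; nlinarith)
      (fun p => by unfold ex3; nlinarith),
    card_class n 11 1 ex4 (by norm_num) (by norm_num) (fun s t => by unfold ex4; ring)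
      (by norm_num) (by norm_num) (fun p => by unfold ex4; nlinarith)
      (fun p => by unfold ex4; nlinarith)]
  simp only [Finset.card_filter]
  push_cast
  rw [← Finset.sum_sub_distrib, ← Finset.sum_sub_distrib, ← Finset.sum_add_distrib]
  refine Finset.sum_congr rfl fun p hp => ?_
  rw [mem_ZZ] at hp
  obtain ⟨h1, h2, h3⟩ := hp
  -- 3 ∤ p.1
  have h4 : p.1 % 3 ≠ 0 := by
    intro h
    have h5 : (p.1 ^ 2 + 3 * p.2 ^ 2) % 3 = (4 * (6 * n + 7)) % 3 := by rw [h1]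
    have h6 : (p.1 ^ 2) % 3 = 0 := by
      rw [Nat.pow_mod, h]
    omega
  have h7 : p.1 % 12 = 1 ∨ p.1 % 12 = 5 ∨ p.1 % 12 = 7 ∨ p.1 % 12 = 11 := by omega
  unfold chi3
  rcases h7 with h | h | h | h
  · have : p.1 % 3 = 1 := by omega
    simp [h, this]
  · have : p.1 % 3 = 2 := by omega
    simp [h, this]
  · have : p.1 % 3 = 1 := by omega
    simp [h, this]
  · have : p.1 % 3 = 2 := by omega
    simp [h, this]

def A1 (N : ℕ) : Finset (ℕ × ℕ) :=
  ((Finset.range (N + 1)) ×ˢ (Finset.range (N + 1))).filter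
    (fun p => p.1 ^ 2 + 3 * p.2 ^ 2 = N ∧ 0 < p.1 ∧ p.1 < p.2)

def A2 (N : ℕ) : Finset (ℕ × ℕ) :=
  ((Finset.range (N + 1)) ×ˢ (Finset.range (N + 1))).filter
    (fun p => p.1 ^ 2 + 3 * p.2 ^ 2 = N ∧ 0 < p.1 ∧ p.1 < 3 * p.2)

lemma mem_A1 {N : ℕ} {p : ℕ × ℕ} :
    p ∈ A1 N ↔ p.1 ^ 2 + 3 * p.2 ^ 2 = N ∧ 0 < p.1 ∧ p.1 < p.2 := by
  unfold A1
  rw [Finset.mem_filter, Finset.mem_product, Finset.mem_range, Finset.mem_range]
  constructor
  · exact fun h => h.2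
  · intro h
    refine ⟨⟨?_, ?_⟩, h⟩
    · nlinarith [h.1, Nat.zero_le p.2, sq_nonneg p.1, Nat.le_self_pow (two_ne_zero) p.1]
    · nlinarith [h.1, Nat.zero_le p.2, sq_nonneg p.1, Nat.le_self_pow (two_ne_zero) p.2]

lemma mem_A2 {N : ℕ} {p : ℕ × ℕ} :
    p ∈ A2 N ↔ p.1 ^ 2 + 3 * p.2 ^ 2 = N ∧ 0 < p.1 ∧ p.1 < 3 * p.2 := by
  unfold A2
  rw [Finset.mem_filter, Finset.mem_product, Finset.mem_range, Finset.mem_range]
  constructor
  · exact fun h => h.2
  · intro h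
    refine ⟨⟨?_, ?_⟩, h⟩
    · nlinarith [h.1, Nat.zero_le p.2, sq_nonneg p.1, Nat.le_self_pow (two_ne_zero) p.1]
    · nlinarith [h.1, Nat.zero_le p.2, sq_nonneg p.1, Nat.le_self_pow (two_ne_zero) p.2]

lemma chi3_add (a b : ℕ) : chi3 (a + 3 * b) = chi3 a := by
  unfold chi3
  have : (a + 3 * b) % 3 = a % 3 := by omega
  rw [this]

lemma chi3_sub {a b : ℕ} (h : a < 3 * b) : chi3 (3 * b - a) = - chi3 a := by
  unfold chi3
  have : a % 3 = 0 ∨ a % 3 = 1 ∨ a % 3 = 2 := by omega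
  rcases this with h1 | h1 | h1
  · have h2 : (3 * b - a) % 3 = 0 := by omega
    simp [h1, h2]
  · have h2 : (3 * b - a) % 3 = 2 := by omega
    simp [h1, h2]
  · have h2 : (3 * b - a) % 3 = 1 := by omega
    simp [h1, h2]

lemma sum_ZZ_gt (n : ℕ) : ∑ p ∈ (ZZ (6 * n + 7)).filter (fun p => 3 * p.2 < p.1), chi3 p.1 =
    ∑ p ∈ A1 (6 * n + 7), chi3 p.1 := by
  refine Finset.sum_nbij' (fun p => ((p.1 - 3 * p.2) / 4, (p.1 + p.2) / 4))
    (fun p => (p.1 + 3 * p.2, p.2 - p.1)) ?_ ?_ ?_ ?_ ?_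
  · rintro ⟨x, y⟩ hp
    rw [Finset.mem_filter, mem_ZZ] at hp
    simp only at hp
    obtain ⟨⟨h1, h2, h3⟩, h4⟩ := hp
    obtain ⟨a, ha⟩ : ∃ a, x = 3 * y + 4 * a := ⟨(x - 3 * y) / 4, by omega⟩
    have e1 : (x - 3 * y) / 4 = a := by omega
    have e2 : (x + y) / 4 = a + y := by omega
    rw [mem_A1]
    simp only
    rw [e1, e2]
    refine ⟨?_, by omega, by omega⟩
    rw [ha] at h1
    nlinarith
  · rintro ⟨a, b⟩ hp
    rw [mem_A1] at hp
    simp only at hp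
    obtain ⟨h1, h2, h3⟩ := hp
    rw [Finset.mem_filter, mem_ZZ]
    simp only
    obtain ⟨y, hy⟩ : ∃ y, b = a + y := ⟨b - a, by omega⟩
    subst hy
    have e1 : a + y - a = y := by omega
    rw [e1]
    have hodd : (a ^ 2 + 3 * (a + y) ^ 2) % 2 = 1 := by rw [h1]; omega
    have hpar : y % 2 = 1 := by
      rcases Nat.even_or_odd y with hy | hy
      · exfalso
        obtain ⟨k, rfl⟩ := hy
        have : a ^ 2 + 3 * (a + (k + k)) ^ 2 = 2 * (2 * a ^ 2 + 6 * a * k + 6 * k ^ 2) := by ring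
        rw [this] at hodd
        omega
      · exact Nat.odd_iff.mp hy
    refine ⟨⟨?_, ?_, ?_⟩, ?_⟩
    · rw [← h1]; ring
    · omega
    · omega
    · omega
  · rintro ⟨x, y⟩ hp
    rw [Finset.mem_filter, mem_ZZ] at hp
    simp only at hp
    obtain ⟨⟨h1, h2, h3⟩, h4⟩ := hp
    simp only [Prod.mk.injEq]
    constructor <;> omega
  · rintro ⟨a, b⟩ hp
    rw [mem_A1] at hp
    simp only at hp
    obtain ⟨h1, h2, h3⟩ := hp
    simp only [Prod.mk.injEq]
    constructor <;> omega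
  · rintro ⟨x, y⟩ hp
    rw [Finset.mem_filter, mem_ZZ] at hp
    simp only at hp
    obtain ⟨⟨h1, h2, h3⟩, h4⟩ := hp
    simp only
    obtain ⟨a, ha⟩ : ∃ a, x = 3 * y + 4 * a := ⟨(x - 3 * y) / 4, by omega⟩
    have e1 : (x - 3 * y) / 4 = a := by omega
    rw [e1, ha, show 3 * y + 4 * a = a + 3 * (y + a) by ring, chi3_add]

lemma sum_ZZ_lt (n : ℕ) : ∑ p ∈ (ZZ (6 * n + 7)).filter (fun p => ¬ 3 * p.2 < p.1), chi3 p.1 =
    - ∑ p ∈ A2 (6 * n + 7), chi3 p.1 := by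
  rw [← Finset.sum_neg_distrib]
  have hne : ∀ x y : ℕ, x ^ 2 + 3 * y ^ 2 = 4 * (6 * n + 7) → x ≠ 3 * y := by
    intro x y h1 h2
    subst h2
    have : (3 * y) ^ 2 + 3 * y ^ 2 = 3 * (4 * y ^ 2) := by ring
    rw [this] at h1
    omega
  refine Finset.sum_nbij' (fun p => ((3 * p.2 - p.1) / 4, (p.1 + p.2) / 4))
    (fun p => (3 * p.2 - p.1, p.1 + p.2)) ?_ ?_ ?_ ?_ ?_
  · rintro ⟨x, y⟩ hp
    rw [Finset.mem_filter, mem_ZZ] at hp
    simp only at hp
    obtain ⟨⟨h1, h2, h3⟩, h4⟩ := hp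
    have h5 := hne x y h1
    -- x + y = 4 b, 3 y - x = 4 a, so y = a + b, x = 3 b - a
    obtain ⟨a, ha⟩ : ∃ a, 3 * y = x + 4 * a := ⟨(3 * y - x) / 4, by omega⟩
    obtain ⟨b, hb⟩ : ∃ b, x + y = 4 * b := ⟨(x + y) / 4, by omega⟩
    have e1 : (3 * y - x) / 4 = a := by omega
    have e2 : (x + y) / 4 = b := by omega
    have hy : y = a + b := by omega
    have hx : x + a = 3 * b := by omega
    rw [mem_A2]
    simp only
    rw [e1, e2]
    refine ⟨?_, by omega, by omega⟩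
    zify at h1 hy hx ⊢
    have hx' : (x : ℤ) = 3 * b - a := by linarith
    rw [hx', hy] at h1
    nlinarith
  · rintro ⟨a, b⟩ hp
    rw [mem_A2] at hp
    simp only at hp
    obtain ⟨h1, h2, h3⟩ := hp
    rw [Finset.mem_filter, mem_ZZ]
    simp only
    obtain ⟨x, hx⟩ : ∃ x, 3 * b = a + x := ⟨3 * b - a, by omega⟩
    have e1 : 3 * b - a = x := by omega
    rw [e1]
    have hodd : (a ^ 2 + 3 * b ^ 2) % 2 = 1 := by rw [h1]; omega
    have hpar : (a + b) % 2 = 1 := by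
      rcases Nat.even_or_odd (a + b) with hy | hy
      · exfalso
        obtain ⟨k, hk⟩ := hy
        have h5 : a ^ 2 + 3 * b ^ 2 + 2 * (a * b) = (a + b) ^ 2 + 2 * b ^ 2 := by ring
        rw [hk] at h5
        have h6 : (k + k) ^ 2 = 2 * (2 * k ^ 2) := by ring
        rw [h6] at h5
        omega
      · exact Nat.odd_iff.mp hy
    refine ⟨⟨?_, ?_, ?_⟩, ?_⟩
    · zify at h1 hx ⊢
      have hx' : (x : ℤ) = 3 * b - a := by linarith
      rw [hx', ← h1]; ring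
    · omega
    · omega
    · omega
  · rintro ⟨x, y⟩ hp
    rw [Finset.mem_filter, mem_ZZ] at hp
    simp only at hp
    obtain ⟨⟨h1, h2, h3⟩, h4⟩ := hp
    simp only [Prod.mk.injEq]
    constructor <;> omega
  · rintro ⟨a, b⟩ hp
    rw [mem_A2] at hp
    simp only at hp
    obtain ⟨h1, h2, h3⟩ := hp
    simp only [Prod.mk.injEq]
    constructor <;> omega
  · rintro ⟨x, y⟩ hp
    rw [Finset.mem_filter, mem_ZZ] at hp
    simp only at hp
    obtain ⟨⟨h1, h2, h3⟩, h4⟩ := hp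
    have h5 := hne x y h1
    simp only
    obtain ⟨a, ha⟩ : ∃ a, 3 * y = x + 4 * a := ⟨(3 * y - x) / 4, by omega⟩
    obtain ⟨b, hb⟩ : ∃ b, x + y = 4 * b := ⟨(x + y) / 4, by omega⟩
    have e1 : (3 * y - x) / 4 = a := by omega
    have hx : x = 3 * b - a := by omega
    have hlt : a < 3 * b := by omega
    rw [e1, hx, chi3_sub hlt]

lemma A2_eq (n : ℕ) : A2 (6 * n + 7) = A1 (6 * n + 7) ∪ reps (6 * n + 7) := by
  ext ⟨a, b⟩
  rw [Finset.mem_union, mem_A1, mem_A2, mem_reps]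
  simp only
  constructor
  · rintro ⟨h1, h2, h3⟩
    rcases lt_trichotomy a b with h | h | h
    · left; exact ⟨h1, h2, h⟩
    · exfalso
      subst h
      have : a ^ 2 + 3 * a ^ 2 = 2 * (2 * a ^ 2) := by ring
      rw [this] at h1
      omega
    · right; exact ⟨h1, h, h3⟩
  · rintro (⟨h1, h2, h3⟩ | ⟨h1, h2, h3⟩)
    · exact ⟨h1, h2, by omega⟩
    · exact ⟨h1, by omega, h3⟩

/-- The coefficient formula. -/
theorem coeff_eq_cval (n : ℕ) : coeff n (EE X * To) = cval (6 * n + 7) := by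
  rw [coeff_C, ← sum_ZZ]
  rw [← Finset.sum_filter_add_sum_filter_not (ZZ (6 * n + 7)) (fun p => 3 * p.2 < p.1)]
  rw [sum_ZZ_gt, sum_ZZ_lt, A2_eq, Finset.sum_union]
  · unfold cval; ring
  · rw [Finset.disjoint_left]
    intro p h1 h2
    rw [mem_A1] at h1
    rw [mem_reps] at h2
    omega

/-- Both-sided unboundedness of the coefficients of `C = (q;q)_∞ T_o`. -/
theorem unbounded_coeff :
    (∀ M : ℤ, ∃ n : ℕ, M < coeff n (EE X * To)) ∧ (∀ M : ℤ, ∃ n : ℕ, coeff n (EE X * To) < M) := by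
  -- absolute values are unbounded
  have habs : ∀ M : ℤ, ∃ n : ℕ, M < |coeff n (EE X * To)| := by
    intro M
    obtain ⟨m, hm⟩ := cval_unbounded (max M 0)
    have hm1 : m ≠ 0 := by
      rintro rfl
      rw [pow_zero, cval_one, abs_zero] at hm
      exact absurd hm (not_lt.mpr (le_max_right _ _))
    have hge : 7 ≤ 49 ^ m := by
      calc 7 ≤ 49 ^ 1 := by norm_num
        _ ≤ 49 ^ m := Nat.pow_le_pow_right (by norm_num) (by omega)
    have hmod : 49 ^ m % 6 = 1 := by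
      rw [Nat.pow_mod]; norm_num
    refine ⟨(49 ^ m - 7) / 6, ?_⟩
    rw [coeff_eq_cval]
    have : 6 * ((49 ^ m - 7) / 6) + 7 = 49 ^ m := by omega
    rw [this]
    exact lt_of_le_of_lt (le_max_left _ _) hm
  -- sign change
  have hsign : ∀ n : ℕ, coeff (25 * n + 28) (EE X * To) = - coeff n (EE X * To) := by
    intro n
    rw [coeff_eq_cval, coeff_eq_cval, show 6 * (25 * n + 28) + 7 = 25 * (6 * n + 7) by ring,
      cval_twentyfive]
  constructor
  · intro M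
    obtain ⟨n, hn⟩ := habs M
    rcases lt_abs.mp hn with h | h
    · exact ⟨n, h⟩
    · exact ⟨25 * n + 28, by rw [hsign]; exact h⟩
  · intro M
    obtain ⟨n, hn⟩ := habs (-M)
    rcases lt_abs.mp hn with h | h
    · exact ⟨25 * n + 28, by rw [hsign]; linarith⟩
    · exact ⟨n, by linarith⟩

end Pool.Agent.Lib.MP_91ed4c_nt
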